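import Pool.Agent.H85.Flat

/-!
# Blocks `1^w (1 0^d)^n 0` and their values
-/

open Ordinal Set Order

namespace Pool.Agent.H85

/-! ### Chains of images -/

theorem LeT.image {S : Set ℝ} {θ : Ordinal.{0}} (h : LeT S θ) {ψ : ℝ → ℝ}
    (hψ : StrictMonoOn ψ S) : LeT (ψ '' S) θ := by
  refine h.comap (Function.invFunOn ψ S) ?_ ?_
  · intro x hx y hy hxy
    have h1 := Function.invFunOn_mem hx
    have h2 := Function.invFunOn_eq hx
    have h3 := Function.invFunOn_mem hy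
    have h4 := Function.invFunOn_eq hy
    by_contra hcon
    have h5 := hψ.monotoneOn h3 h1 (not_lt.1 hcon)
    rw [h2, h4] at h5
    exact absurd hxy (not_lt.2 h5)
  · intro x hx
    exact Function.invFunOn_mem hx

theorem GeT.image {S : Set ℝ} {θ : Ordinal.{0}} (h : GeT θ S) {ψ : ℝ → ℝ}
    (hψ : StrictMonoOn ψ S) : GeT θ (ψ '' S) :=
  h.map ψ hψ (fun x hx => ⟨x, hx, rfl⟩)

/-- data for a chain of images: `ψ n` maps the unit interval strictly monotonically to a set lying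
below the image under `ψ (n+1)` -/
structure Chain (ψ : ℕ → ℝ → ℝ) : Prop where
  mono : ∀ n, StrictMono (ψ n)
  sep : ∀ n n', n < n' → ∀ x ∈ Ico (0 : ℝ) 1, ∀ y ∈ Ico (0 : ℝ) 1, ψ n x < ψ n' y

theorem Chain.exists_index {ψ : ℕ → ℝ → ℝ} (hψ : Chain ψ) {S : ℕ → Set ℝ}
    (hS : ∀ n, S n ⊆ Ico 0 1) {U : Set ℝ} (hU : ∀ z ∈ U, ∃ n, ∃ y ∈ S n, z = ψ n y) :
    ∃ h : ℝ → ℕ, MonotoneOn h U ∧ (∀ n, {x ∈ U | h x = n} ⊆ ψ n '' S n) ∧
      (∀ n, ψ n '' S n ⊆ U → ψ n '' S n ⊆ {x ∈ U | h x = n}) := by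
  classical
  set h : ℝ → ℕ := fun z => if hz : ∃ n, ∃ y ∈ S n, z = ψ n y then hz.choose else 0 with hh
  have hspec : ∀ z ∈ U, ∃ y ∈ S (h z), z = ψ (h z) y := by
    intro z hz
    have h1 := hU z hz
    simp only [hh, h1, dif_pos]
    exact h1.choose_spec
  have huniq : ∀ z ∈ U, ∀ n, ∀ y ∈ S n, z = ψ n y → h z = n := by
    intro z hz n y hy hzy
    obtain ⟨y', hy', hzy'⟩ := hspec z hz
    by_contra hne
    rcases lt_or_gt_of_ne hne with h1 | h1
    · have := hψ.sep _ _ h1 y' (hS _ hy') y (hS _ hy)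
      rw [← hzy, ← hzy'] at this
      exact lt_irrefl _ this
    · have := hψ.sep _ _ h1 y (hS _ hy) y' (hS _ hy')
      rw [← hzy, ← hzy'] at this
      exact lt_irrefl _ this
  refine ⟨h, ?_, ?_, ?_⟩
  · intro x hx y hy hxy
    obtain ⟨x', hx', hxx'⟩ := hspec x hx
    obtain ⟨y', hy', hyy'⟩ := hspec y hy
    by_contra hcon
    have := hψ.sep _ _ (not_le.1 hcon) y' (hS _ hy') x' (hS _ hx')
    rw [← hxx', ← hyy'] at this
    exact absurd hxy (not_le.2 this)
  · rintro n x ⟨hx, rfl⟩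
    obtain ⟨x', hx', hxx'⟩ := hspec x hx
    exact ⟨x', hx', hxx'.symm⟩
  · rintro n hn _ ⟨x, hx, rfl⟩
    have hmem := hn ⟨x, hx, rfl⟩
    exact ⟨hmem, huniq _ hmem n x hx rfl⟩

theorem Chain.le_opow {ψ : ℕ → ℝ → ℝ} (hψ : Chain ψ) {S : ℕ → Set ℝ}
    (hS : ∀ n, S n ⊆ Ico 0 1) {U : Set ℝ} (hU : ∀ z ∈ U, ∃ n, ∃ y ∈ S n, z = ψ n y)
    (ξ : Ordinal.{0}) (hθ : ∀ n, ∃ θ < ω ^ ξ, LeT (S n) θ) : LeT U (ω ^ ξ) := by
  obtain ⟨h, hmono, h1, -⟩ := hψ.exists_index hS hU
  refine LeT_chain_opow h hmono ξ (fun n => ?_)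
  obtain ⟨θ, hlt, hθ⟩ := hθ n
  exact ⟨θ, hlt, (hθ.image ((hψ.mono n).strictMonoOn _)).mono (h1 n) le_rfl⟩

theorem Chain.le_mul {ψ : ℕ → ℝ → ℝ} (hψ : Chain ψ) {S : ℕ → Set ℝ}
    (hS : ∀ n, S n ⊆ Ico 0 1) {U : Set ℝ} (hU : ∀ z ∈ U, ∃ n, ∃ y ∈ S n, z = ψ n y)
    (θ : Ordinal.{0}) (hθ : ∀ n, LeT (S n) θ) : LeT U (θ * ω) := by
  obtain ⟨h, hmono, h1, -⟩ := hψ.exists_index hS hU
  refine LeT_chain_mul h hmono θ (fun n => ?_)
  exact ((hθ n).image ((hψ.mono n).strictMonoOn _)).mono (h1 n) le_rfl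

theorem Chain.ge_opow {ψ : ℕ → ℝ → ℝ} (hψ : Chain ψ) {S : ℕ → Set ℝ}
    (hS : ∀ n, S n ⊆ Ico 0 1) {U : Set ℝ} (hU : ∀ z ∈ U, ∃ n, ∃ y ∈ S n, z = ψ n y)
    {ξ τ : Ordinal.{0}} (hτ : LeT U τ) (hξ : ξ ≠ 0)
    (hθ : ∀ β < ξ, ∀ N : ℕ, ∃ n ≥ N, ψ n '' S n ⊆ U ∧ GeT (ω ^ β) (S n)) : GeT (ω ^ ξ) U := by
  obtain ⟨h, hmono, -, h2⟩ := hψ.exists_index hS hU
  refine GeT_chain h hmono hτ hξ (fun β hβ N => ?_)
  obtain ⟨n, hn, hsub, hg⟩ := hθ β hβ N
  exact ⟨n, hn, (hg.image ((hψ.mono n).strictMonoOn _)).mono (h2 n hsub) le_rfl⟩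

/-! ### The basic maps -/

/-- prepend the digit `0` -/
noncomputable def e0 (x : ℝ) : ℝ := x / 2

/-- prepend the digit `1` -/
noncomputable def e1 (x : ℝ) : ℝ := (1 + x) / 2

/-- prepend the word `1 0^d` -/
noncomputable def qq (d : ℕ) (x : ℝ) : ℝ := e1 (e0^[d] x)

/-- prepend the word `1^w (1 0^d)^n 0`, where `p = (w, n)` -/
noncomputable def blk (d : ℕ) (p : ℕ × ℕ) (x : ℝ) : ℝ := e1^[p.1] ((qq d)^[p.2] (e0 x))

/-- prepend a list of blocks -/
noncomputable def blks (d : ℕ) : List (ℕ × ℕ) → ℝ → ℝ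
  | [], y => y
  | p :: l, y => blk d p (blks d l y)

theorem e0_strictMono : StrictMono e0 := fun x y h => by unfold e0; linarith

theorem e1_strictMono : StrictMono e1 := fun x y h => by unfold e1; linarith

theorem qq_strictMono (d : ℕ) : StrictMono (qq d) :=
  e1_strictMono.comp (e0_strictMono.iterate d)

theorem blk_strictMono (d : ℕ) (p : ℕ × ℕ) : StrictMono (blk d p) :=
  (e1_strictMono.iterate p.1).comp (((qq_strictMono d).iterate p.2).comp e0_strictMono)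

theorem blks_append (d : ℕ) (l l' : List (ℕ × ℕ)) (y : ℝ) :
    blks d (l ++ l') y = blks d l (blks d l' y) := by
  induction l with
  | nil => rfl
  | cons p l ih => simp [blks, ih]

theorem e0_iter (r : ℕ) (x : ℝ) : e0^[r] x = x / 2 ^ r := by
  induction r with
  | zero => simp
  | succ r ih =>
    rw [Function.iterate_succ_apply', ih, e0, pow_succ]
    field_simp

theorem e1_iter (r : ℕ) (x : ℝ) : e1^[r] x = 1 - (1 - x) / 2 ^ r := by
  induction r with
  | zero => simp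
  | succ r ih =>
    rw [Function.iterate_succ_apply', ih, e1, pow_succ]
    field_simp
    ring

theorem e1_mem {x : ℝ} (h : x ∈ Ico (0 : ℝ) 1) : e1 x ∈ Ico (1 / 2 : ℝ) 1 := by
  unfold e1
  constructor <;> linarith [h.1, h.2]

theorem e0_mem {x : ℝ} (h : x ∈ Icc (0 : ℝ) 1) : e0 x ∈ Icc (0 : ℝ) (1 / 2) := by
  unfold e0
  constructor <;> linarith [h.1, h.2]

theorem half_sub {x : ℝ} (h : x ∈ Ico (1 / 2 : ℝ) 1) : x ∈ Ico (0 : ℝ) 1 :=
  ⟨by linarith [h.1], h.2⟩

theorem e0_iter_mem (d : ℕ) {x : ℝ} (h : x ∈ Ico (0 : ℝ) 1) : e0^[d] x ∈ Ico (0 : ℝ) 1 := by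
  rw [e0_iter]
  have h1 : (1 : ℝ) ≤ 2 ^ d := one_le_pow₀ (by norm_num)
  refine ⟨div_nonneg h.1 (by positivity), ?_⟩
  rw [div_lt_one (by positivity)]
  linarith [h.2]

theorem qq_mem (d : ℕ) {x : ℝ} (h : x ∈ Ico (0 : ℝ) 1) : qq d x ∈ Ico (1 / 2 : ℝ) 1 :=
  e1_mem (e0_iter_mem d h)

theorem qq_lt (d : ℕ) (hd : 1 ≤ d) {x : ℝ} (h : x ∈ Ico (0 : ℝ) 1) : qq d x < 3 / 4 := by
  unfold qq e1
  rw [e0_iter]
  have h1 : (2 : ℝ) ≤ 2 ^ d := by
    calc (2 : ℝ) = 2 ^ 1 := by norm_num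
      _ ≤ 2 ^ d := pow_le_pow_right₀ (by norm_num) hd
  have h2 : x / 2 ^ d < 1 / 2 := by
    rw [div_lt_div_iff₀ (by positivity) (by norm_num)]
    nlinarith [h.1, h.2]
  linarith

theorem qq_iter_mem (d n : ℕ) {x : ℝ} (h : x ∈ Ico (0 : ℝ) 1) :
    (qq d)^[n] x ∈ Ico (0 : ℝ) 1 := by
  induction n with
  | zero => exact h
  | succ n ih => rw [Function.iterate_succ_apply']; exact half_sub (qq_mem d ih)

theorem qq_iter_mem' (d : ℕ) {n : ℕ} (hn : 1 ≤ n) {x : ℝ} (h : x ∈ Ico (0 : ℝ) 1) :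
    (qq d)^[n] x ∈ Ico (1 / 2 : ℝ) 1 := by
  obtain ⟨m, rfl⟩ : ∃ m, n = m + 1 := ⟨n - 1, by omega⟩
  rw [Function.iterate_succ_apply']
  exact qq_mem d (qq_iter_mem d m h)

theorem qq_iter_lt (d : ℕ) (hd : 1 ≤ d) {n : ℕ} (hn : 1 ≤ n) {x : ℝ}
    (h : x ∈ Ico (0 : ℝ) 1) : (qq d)^[n] x < 3 / 4 := by
  obtain ⟨m, rfl⟩ : ∃ m, n = m + 1 := ⟨n - 1, by omega⟩
  rw [Function.iterate_succ_apply']
  exact qq_lt d hd (qq_iter_mem d m h)

theorem e0_mem' {x : ℝ} (h : x ∈ Ico (0 : ℝ) 1) : e0 x ∈ Ico (0 : ℝ) (1 / 2) := by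
  unfold e0
  constructor <;> linarith [h.1, h.2]

theorem e0_mem01 {x : ℝ} (h : x ∈ Icc (0 : ℝ) 1) : e0 x ∈ Ico (0 : ℝ) 1 := by
  unfold e0
  constructor <;> linarith [h.1, h.2]

theorem qe_sep (d : ℕ) {n n' : ℕ} (hn : n < n') {x y : ℝ} (hx : x ∈ Ico (0 : ℝ) 1)
    (hy : y ∈ Ico (0 : ℝ) 1) : (qq d)^[n] (e0 x) < (qq d)^[n'] (e0 y) := by
  obtain ⟨m, rfl⟩ : ∃ m, n' = n + m := ⟨n' - n, by omega⟩
  rw [Function.iterate_add_apply]
  refine ((qq_strictMono d).iterate n) ?_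
  have h1 := (e0_mem' hx).2
  have h2 := (qq_iter_mem' d (n := m) (by omega) (e0_mem01 ⟨hy.1, hy.2.le⟩)).1
  linarith

theorem e1_iter_mem (w : ℕ) {x : ℝ} (h : x ∈ Ico (1 / 2 : ℝ) 1) :
    e1^[w] x ∈ Ico (1 / 2 : ℝ) 1 := by
  induction w with
  | zero => exact h
  | succ w ih => rw [Function.iterate_succ_apply']; exact e1_mem (half_sub ih)

theorem e1_iter_ge {w : ℕ} (hw : 1 ≤ w) {x : ℝ} (h : x ∈ Ico (1 / 2 : ℝ) 1) :
    3 / 4 ≤ e1^[w] x := by
  obtain ⟨m, rfl⟩ : ∃ m, w = m + 1 := ⟨w - 1, by omega⟩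
  rw [Function.iterate_succ_apply']
  have := (e1_iter_mem m h).1
  change 3 / 4 ≤ (1 + e1^[m] x) / 2
  linarith

/-- separation of different numbers of leading ones -/
theorem e1_sep {w w' : ℕ} (hw : w < w') {x y : ℝ} (hx : x < 3 / 4)
    (hy : y ∈ Ico (1 / 2 : ℝ) 1) : e1^[w] x < e1^[w'] y := by
  obtain ⟨m, rfl⟩ : ∃ m, w' = w + m := ⟨w' - w, by omega⟩
  rw [Function.iterate_add_apply]
  refine (e1_strictMono.iterate w) ?_
  have := e1_iter_ge (w := m) (by omega) hy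
  linarith

theorem blk_mem (d : ℕ) {p : ℕ × ℕ} (hp : 1 ≤ p.2) {x : ℝ} (h : x ∈ Icc (0 : ℝ) 1) :
    blk d p x ∈ Ico (1 / 2 : ℝ) 1 :=
  e1_iter_mem p.1 (qq_iter_mem' d hp (e0_mem01 h))

theorem chain_qe (d : ℕ) : Chain (fun n x => (qq d)^[n] (e0 x)) where
  mono n := ((qq_strictMono d).iterate n).comp e0_strictMono
  sep _ _ h _ hx _ hy := qe_sep d h hx hy

theorem chain_blk (d w : ℕ) : Chain (fun n x => blk d (w, n) x) where
  mono n := blk_strictMono d (w, n)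
  sep _ _ h _ hx _ hy := (e1_strictMono.iterate w) (qe_sep d h hx hy)

/-! ### Words of a block -/

/-- the word `(1 0^d)^n 0` -/
def zw (d : ℕ) : ℕ → List (Fin 2)
  | 0 => [0]
  | n + 1 => 1 :: (List.replicate d 0 ++ zw d n)

/-- the word `1^w (1 0^d)^n 0` -/
def bits (d : ℕ) (p : ℕ × ℕ) : List (Fin 2) := List.replicate p.1 1 ++ zw d p.2

theorem lval_replicate_zero (r : ℕ) (y : ℝ) : lval (List.replicate r 0) y = e0^[r] y := by
  induction r with
  | zero => rfl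
  | succ r ih =>
    rw [List.replicate_succ, lval_cons, ih, Function.iterate_succ_apply', e0]
    simp

theorem lval_replicate_one (r : ℕ) (y : ℝ) : lval (List.replicate r 1) y = e1^[r] y := by
  induction r with
  | zero => rfl
  | succ r ih =>
    rw [List.replicate_succ, lval_cons, ih, Function.iterate_succ_apply', e1]
    simp

theorem lval_zw (d n : ℕ) (y : ℝ) : lval (zw d n) y = (qq d)^[n] (e0 y) := by
  induction n with
  | zero => simp [zw, e0]
  | succ n ih =>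
    rw [zw, lval_cons, lval_append, ih, lval_replicate_zero, Function.iterate_succ_apply', qq, e1]
    simp

theorem lval_bits (d : ℕ) (p : ℕ × ℕ) (y : ℝ) : lval (bits d p) y = blk d p y := by
  rw [bits, lval_append, lval_zw, lval_replicate_one, blk]

theorem lval_flatMap_bits (d : ℕ) (l : List (ℕ × ℕ)) (y : ℝ) :
    lval (l.flatMap (bits d)) y = blks d l y := by
  induction l with
  | nil => rfl
  | cons p l ih => rw [List.flatMap_cons, lval_append, ih, lval_bits, blks]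

theorem zw_ne_nil (d n : ℕ) : zw d n ≠ [] := by
  cases n <;> simp [zw]

theorem bits_ne_nil (d : ℕ) (p : ℕ × ℕ) : bits d p ≠ [] := by
  simp [bits, zw_ne_nil]

theorem zw_suffix (d n : ℕ) (u v : List (Fin 2)) (h : zw d n = u ++ v) (hv : v ≠ []) :
    ∃ r n', r ≤ d ∧ n' ≤ n ∧ (r = 0 ∨ n' < n) ∧
      ∀ y, lval v y = e0^[r] ((qq d)^[n'] (e0 y)) := by
  induction n generalizing u with
  | zero =>
    have hu : u = [] := by
      rw [zw] at h
      by_contra hu
      have h1 := congrArg List.length h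
      have h2 := List.length_pos_iff.2 hu
      have h3 := List.length_pos_iff.2 hv
      simp at h1
      omega
    subst hu
    refine ⟨0, 0, Nat.zero_le _, le_rfl, Or.inl rfl, fun y => ?_⟩
    rw [List.nil_append] at h
    rw [← h, lval_zw]
    rfl
  | succ n ih =>
    cases u with
    | nil =>
      refine ⟨0, n + 1, Nat.zero_le _, le_rfl, Or.inl rfl, fun y => ?_⟩
      rw [List.nil_append] at h
      rw [← h, lval_zw]
      rfl
    | cons a u =>
      rw [zw, List.cons_append, List.cons.injEq] at h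
      rcases List.append_eq_append_iff.1 h.2 with ⟨w, hw1, hw2⟩ | ⟨w, hw1, hw2⟩
      · obtain ⟨r, n', h1, h2, h3, h4⟩ := ih w hw2
        exact ⟨r, n', h1, by omega, by omega, h4⟩
      · have hw : w = List.replicate w.length 0 := by
          refine List.eq_replicate_of_mem (fun x hx => ?_)
          have : x ∈ List.replicate d (0 : Fin 2) := by
            rw [hw1]
            exact List.mem_append_right _ hx
          exact List.eq_of_mem_replicate this
        have hlen : w.length ≤ d := by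
          have := congrArg List.length hw1
          rw [List.length_replicate, List.length_append] at this
          omega
        refine ⟨w.length, n, hlen, by omega, Or.inr (by omega), fun y => ?_⟩
        rw [hw2, lval_append, lval_zw]
        conv_lhs => rw [hw]
        rw [lval_replicate_zero]

theorem zw_suffix' (d n r n' : ℕ) (hr : r ≤ d) (hn : n' ≤ n) (h : r = 0 ∨ n' < n) :
    ∃ u v, zw d n = u ++ v ∧ v ≠ [] ∧ ∀ y, lval v y = e0^[r] ((qq d)^[n'] (e0 y)) := by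
  induction n with
  | zero =>
    obtain rfl : n' = 0 := by omega
    obtain rfl : r = 0 := by omega
    exact ⟨[], zw d 0, rfl, zw_ne_nil _ _, fun y => lval_zw _ _ _⟩
  | succ n ih =>
    rcases Nat.lt_or_ge n' (n + 1) with h1 | h1
    · rcases Nat.lt_or_ge n' n with h2 | h2
      · obtain ⟨u, v, h3, h4, h5⟩ := ih (by omega) (Or.inr h2)
        refine ⟨1 :: (List.replicate d 0 ++ u), v, ?_, h4, h5⟩
        rw [zw, h3]
        simp
      · obtain rfl : n' = n := by omega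
        refine ⟨1 :: List.replicate (d - r) 0, List.replicate r 0 ++ zw d n', ?_, ?_, ?_⟩
        · rw [zw, List.cons_append, ← List.append_assoc, ← List.replicate_add]
          congr 3
          omega
        · simp [zw_ne_nil]
        · intro y
          rw [lval_append, lval_zw, lval_replicate_zero]
    · obtain rfl : n' = n + 1 := by omega
      obtain rfl : r = 0 := by omega
      exact ⟨[], zw d (n + 1), rfl, zw_ne_nil _ _, fun y => lval_zw _ _ _⟩

/-- classification of the nonempty suffixes of a block -/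
theorem bits_suffix (d w n : ℕ) (u v : List (Fin 2)) (h : bits d (w, n) = u ++ v)
    (hv : v ≠ []) :
    (∃ w', 1 ≤ w' ∧ w' ≤ w ∧ ∀ y, lval v y = e1^[w'] ((qq d)^[n] (e0 y))) ∨
    (∃ r n', r ≤ d ∧ n' ≤ n ∧ (r = 0 ∨ n' < n) ∧
      ∀ y, lval v y = e0^[r] ((qq d)^[n'] (e0 y))) := by
  rw [bits] at h
  rcases List.append_eq_append_iff.1 h with ⟨z, hz1, hz2⟩ | ⟨z, hz1, hz2⟩
  · right
    exact zw_suffix d n z v hz2 hv
  · rcases Nat.eq_zero_or_pos z.length with h0 | h0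
    · right
      have : z = [] := List.length_eq_zero_iff.1 h0
      subst this
      rw [List.nil_append] at hz2
      exact zw_suffix d n [] v (by rw [List.nil_append, hz2]) hv
    · left
      have hw : z = List.replicate z.length 1 := by
        refine List.eq_replicate_of_mem (fun x hx => ?_)
        have : x ∈ List.replicate w (1 : Fin 2) := by
          change x ∈ List.replicate (w, n).1 (1 : Fin 2)
          rw [hz1]
          exact List.mem_append_right _ hx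
        exact List.eq_of_mem_replicate this
      have hlen : z.length ≤ w := by
        have := congrArg List.length hz1
        rw [List.length_replicate, List.length_append] at this
        simp only at this
        omega
      refine ⟨z.length, h0, hlen, fun y => ?_⟩
      rw [hz2, lval_append, lval_zw]
      conv_lhs => rw [hw]
      rw [lval_replicate_one]

theorem bits_suffix_ones (d w n w' : ℕ) (hw : w' ≤ w) :
    ∃ u v, bits d (w, n) = u ++ v ∧ v ≠ [] ∧ ∀ y, lval v y = e1^[w'] ((qq d)^[n] (e0 y)) := by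
  refine ⟨List.replicate (w - w') 1, List.replicate w' 1 ++ zw d n, ?_, ?_, ?_⟩
  · rw [bits, ← List.append_assoc, ← List.replicate_add]
    congr 2
    simp only
    omega
  · simp [zw_ne_nil]
  · intro y
    rw [lval_append, lval_zw, lval_replicate_one]

theorem bits_suffix_zeros (d w n r n' : ℕ) (hr : r ≤ d) (hn : n' ≤ n) (h : r = 0 ∨ n' < n) :
    ∃ u v, bits d (w, n) = u ++ v ∧ v ≠ [] ∧
      ∀ y, lval v y = e0^[r] ((qq d)^[n'] (e0 y)) := by
  obtain ⟨u, v, h1, h2, h3⟩ := zw_suffix' d n r n' hr hn h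
  refine ⟨List.replicate w 1 ++ u, v, ?_, h2, h3⟩
  rw [bits, h1, List.append_assoc]

end Pool.Agent.H85
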