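import Pool.Agent.H85.Forest

/-!
# The order type of the constructed orbit
-/

open Ordinal Set Order

namespace Pool.Agent.H85

theorem GeT_diff_finite {S F : Set ℝ} {ξ : Ordinal.{0}} (hξ : ξ ≠ 0) (h : GeT (ω ^ ξ) S)
    (hF : F.Finite) : GeT (ω ^ ξ) (S \ F) := by
  obtain ⟨g, hg, hm⟩ := h
  have hlim : IsSuccLimit (ω ^ ξ : Ordinal.{0}) :=
    Ordinal.isSuccLimit_opow_left Ordinal.isSuccLimit_omega0 hξ
  have hfin : (Iio (ω ^ ξ) ∩ g ⁻¹' F).Finite := by
    refine Set.Finite.of_finite_image (f := g) (hF.subset ?_)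
      (hg.injOn.mono inter_subset_left)
    rintro _ ⟨β, hβ, rfl⟩
    exact hβ.2
  obtain ⟨β₀, hβ₀, hb⟩ : ∃ β₀ < ω ^ ξ, ∀ β ∈ Iio (ω ^ ξ) ∩ g ⁻¹' F, β < β₀ := by
    by_cases hne : (Iio (ω ^ ξ) ∩ g ⁻¹' F).Nonempty
    · obtain ⟨m, hm', hmax⟩ := hfin.exists_maximal hne
      refine ⟨succ m, hlim.succ_lt hm'.1, fun β hβ => ?_⟩
      rw [Order.lt_succ_iff]
      rcases le_total β m with h | h
      · exact h
      · exact hmax hβ h
    · refine ⟨0, hlim.bot_lt, fun β hβ => absurd ⟨β, hβ⟩ hne⟩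
  have hadd : ∀ β < ω ^ ξ, β₀ + β < ω ^ ξ := fun β hβ =>
    Ordinal.isPrincipal_add_omega0_opow ξ hβ₀ hβ
  refine ⟨fun β => g (β₀ + β), ?_, ?_⟩
  · intro β hβ β' hβ' hlt'
    exact hg (hadd _ hβ) (hadd _ hβ') ((add_lt_add_iff_left _).2 hlt')
  · intro β hβ
    refine ⟨hm _ (hadd _ hβ), fun hcon => ?_⟩
    have := hb (β₀ + β) ⟨hadd _ hβ, hcon⟩
    exact absurd this (not_lt.2 le_self_add)

section build

variable {child : Ordinal.{0} → ℕ → Ordinal.{0}} {ξ : ℕ → Ordinal.{0}} {k M d : ℕ} {S : ℕ → ℝ}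

/-- standing assumptions on the data of the construction -/
structure Data (child : Ordinal.{0} → ℕ → Ordinal.{0}) (ξ : ℕ → Ordinal.{0}) (k M d : ℕ)
    (S : ℕ → ℝ) : Prop where
  hc : GoodChild child
  hω : ∀ w ≤ k, ξ w < ω₁
  h1 : ∀ w ≤ k, 1 ≤ ξ w
  anti : ∀ w w', w ≤ w' → w' ≤ k → ξ w' ≤ ξ w
  hM : k ≤ M
  hd : 1 ≤ M → 1 ≤ d
  hS : GoodS child ξ k M d S

/-- `PP w n y`: the block `(w, n)` occurs in the sequence followed by a sequence of value `y` -/
def PP (child : Ordinal.{0} → ℕ → Ordinal.{0}) (ξ : ℕ → Ordinal.{0}) (k M d : ℕ)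
    (S : ℕ → ℝ) (w n : ℕ) (y : ℝ) : Prop :=
  ∃ i pre rest, stage child ξ k M i = pre ++ (w, n) :: rest ∧ y = blks d rest (S (i + 1))

theorem PP_cases {w n : ℕ} {y : ℝ} (h : PP child ξ k M d S w n y) :
    (∃ l n', l ≠ [] ∧ Valid child ξ k (n' :: l) ∧ w = mark l ∧ n = ltr (n' :: l) ∧
      y ∈ CC child ξ k M d S (n' :: l)) ∨ (∃ i, (w, n) = sep M i ∧ y = S (i + 1)) := by
  obtain ⟨i, pre, rest, h1, h2⟩ := h
  rcases stage_cases child ξ k M i with ⟨l₀, hi, hleaf, h3⟩ | h3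
  · rw [h3] at h1
    rcases List.eq_nil_or_concat' rest with rfl | ⟨rest', q, rfl⟩
    · right
      have h4 := List.append_inj' h1 rfl
      refine ⟨i, ?_, h2⟩
      simpa using h4.2.symm
    · left
      have h2' : pB l₀ ++ [sep M i] = (pre ++ (w, n) :: rest') ++ [q] := by
        rw [h1]; simp
      have h4 := List.append_inj' h2' rfl
      have hq : sep M i = q := by simpa using h4.2
      obtain ⟨u, n', l', hl', hll, hp, hrest⟩ := pB_decomp l₀ pre rest' (w, n) h4.1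
      rw [Prod.mk.injEq] at hp
      refine ⟨l', n', hl', ?_, hp.1, hp.2, u, ?_, ?_⟩
      · rw [hll] at hleaf
        by_cases hu : u = []
        · subst hu; exact hleaf.1
        · exact (valid_append child ξ k (by simp) u hu hleaf.1).1
      · rw [← hll]; exact hleaf
      · rw [h2, ← hll, hi, ← hq, blks_append, hrest]
        rfl
  · right
    rw [h3] at h1
    have h5 : pre = [] ∧ rest = [] := by
      have := congrArg List.length h1
      simp only [List.length_append, List.length_cons, List.length_nil] at this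
      exact ⟨List.length_eq_zero_iff.1 (by omega), List.length_eq_zero_iff.1 (by omega)⟩
    obtain ⟨rfl, rfl⟩ := h5
    refine ⟨i, ?_, h2⟩
    simpa using h1.symm

theorem PP_of_CC {l : List ℕ} (hl : l ≠ []) {n : ℕ} {y : ℝ}
    (hy : y ∈ CC child ξ k M d S (n :: l)) :
    PP child ξ k M d S (mark l) (ltr (n :: l)) y := by
  obtain ⟨u, hu, rfl⟩ := hy
  refine ⟨Encodable.encode (u ++ n :: l), pB l, rem u (n :: l) ++
    [sep M (Encodable.encode (u ++ n :: l))], ?_, ?_⟩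
  · rw [stage_leaf child ξ k M hu, pB_append (by simp), pB_cons hl]
    simp
  · rw [blks_append]
    rfl

theorem PP_sep (i : ℕ) : PP child ξ k M d S (sep M i).1 (sep M i).2 (S (i + 1)) := by
  rcases stage_cases child ξ k M i with ⟨l₀, hi, hleaf, h3⟩ | h3
  · exact ⟨i, pB l₀, [], h3, rfl⟩
  · exact ⟨i, [], [], h3, rfl⟩

/-- the set of values of suffixes starting at a block -/
def TT (child : Ordinal.{0} → ℕ → Ordinal.{0}) (ξ : ℕ → Ordinal.{0}) (k M d : ℕ)
    (S : ℕ → ℝ) : Set ℝ :=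
  {x | ∃ w n y, PP child ξ k M d S w n y ∧ x = blk d (w, n) y}

theorem PP_TT (hD : Data child ξ k M d S) {w n : ℕ} {y : ℝ} (h : PP child ξ k M d S w n y) :
    y ∈ TT child ξ k M d S := by
  obtain ⟨i, pre, rest, h1, h2⟩ := h
  cases rest with
  | nil =>
    obtain ⟨p, l, hpl⟩ := List.exists_cons_of_ne_nil (stage_ne_nil child ξ k M (i + 1))
    have h3 := hD.hS.step (i + 1)
    rw [hpl] at h3
    exact ⟨p.1, p.2, _, ⟨i + 1, [], l, hpl, rfl⟩, by rw [h2]; exact h3⟩
  | cons p l =>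
    refine ⟨p.1, p.2, _, ⟨i, pre ++ [(w, n)], l, ?_, rfl⟩, by rw [h2]; rfl⟩
    rw [h1]
    simp

theorem PP_pos {w n : ℕ} {y : ℝ} (h : PP child ξ k M d S w n y) : 1 ≤ n := by
  obtain ⟨i, pre, rest, h1, h2⟩ := h
  exact stage_pos i (w, n) (by rw [h1]; simp)

theorem PP_mem (hD : Data child ξ k M d S) {w n : ℕ} {y : ℝ} (h : PP child ξ k M d S w n y) :
    y ∈ Ico (1 / 2 : ℝ) 1 := by
  rcases PP_cases h with ⟨l, n', -, -, -, -, hy⟩ | ⟨i, -, rfl⟩
  · exact CC_sub hD.hS _ hy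
  · exact hD.hS.mem' _

theorem PP_le (hD : Data child ξ k M d S) {w n : ℕ} {y : ℝ} (h : PP child ξ k M d S w n y) :
    w ≤ M := by
  rcases PP_cases h with ⟨l, n', hl, hv, hw, -, -⟩ | ⟨i, hi, rfl⟩
  · have h1 := ((valid_cons child ξ k hl n').1 hv).1
    match l, hl, h1, hw with
    | [w'], _, h1, hw =>
      have h1' : w' ≤ k := h1
      have hw' : w = w' := hw
      have := hD.hM
      omega
    | _ :: _ :: _, _, _, hw =>
      have hw' : w = 0 := hw
      omega
  · rw [sep, Prod.mk.injEq] at hi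
    rw [hi.1]
    split_ifs <;> omega

theorem label_le_zero (hD : Data child ξ k M d S) :
    ∀ l : List ℕ, Valid child ξ k l → label child ξ l ≤ ξ 0
  | [], h => absurd h id
  | [w], h => hD.anti 0 w (Nat.zero_le _) h
  | n :: m :: l, h => by
    have h1 := label_le_zero hD (m :: l) h.1
    exact ((hD.hc _ h.2 (label_lt hD.hc hD.hω _ h.1)).1 n).le.trans h1

theorem label_lt_of_mark (hD : Data child ξ k M d S) {l : List ℕ} (hl : l ≠ []) {n a : ℕ}
    (hv : Valid child ξ k (n :: l)) (ha : a ≤ k) (hm : a ≤ mark l) :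
    label child ξ (n :: l) < ξ a := by
  have hv' := (valid_cons child ξ k hl n).1 hv
  have h1 : label child ξ (n :: l) < label child ξ l := by
    rw [label_cons child ξ hl]
    exact (hD.hc _ hv'.2 (label_lt hD.hc hD.hω _ hv'.1)).1 n
  refine h1.trans_le ?_
  match l, hl, hv'.1, hm with
  | [w'], _, h1, hm => exact hD.anti a w' hm h1
  | p :: q :: l', _, h1, hm =>
    have hm' : a ≤ 0 := hm
    obtain rfl : a = 0 := by omega
    exact label_le_zero hD _ h1

/-- values following a given letter with mark at least `a` -/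
theorem letter_type (hD : Data child ξ k M d S) (n : ℕ) {a : ℕ} (ha : a ≤ k) :
    ∃ θ < ω ^ (ξ a), LeT {y | ∃ w ≥ a, PP child ξ k M d S w n y} θ := by
  by_cases h : ∃ l n', l ≠ [] ∧ Valid child ξ k (n' :: l) ∧ a ≤ mark l ∧ n = ltr (n' :: l)
  · obtain ⟨l, n', hl, hv, hm, hn⟩ := h
    refine ⟨ω ^ (label child ξ (n' :: l)), ?_, ?_⟩
    · exact (Ordinal.opow_lt_opow_iff_right Ordinal.one_lt_omega0).2
        (label_lt_of_mark hD hl hv ha hm)
    · refine (CC_type hD.hc hD.hω hD.hS _ (n' :: l) hv rfl).1.mono ?_ le_rfl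
      rintro y ⟨w, hw, hP⟩
      rcases PP_cases hP with ⟨l₁, n₁, -, -, -, hn₁, hy⟩ | ⟨i, hi, -⟩
      · rw [hn] at hn₁
        rw [ltr_injective hn₁]
        exact hy
      · exfalso
        rw [sep, Prod.mk.injEq] at hi
        rw [hn, ltr] at hi
        omega
  · refine ⟨1, ?_, ?_⟩
    · have h1 : (1 : Ordinal.{0}) = ω ^ (0 : Ordinal.{0}) := by simp
      rw [h1]
      refine (Ordinal.opow_lt_opow_iff_right Ordinal.one_lt_omega0).2 ?_
      exact zero_lt_one.trans_le (hD.h1 a ha)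
    · refine LeT_subsingleton ?_
      have key : ∀ y ∈ {y | ∃ w ≥ a, PP child ξ k M d S w n y}, y = S ((n - 1) / 2 + 1) := by
        rintro y ⟨w, hw, hP⟩
        rcases PP_cases hP with ⟨l₁, n₁, hl₁, hv₁, hw₁, hn₁, hy⟩ | ⟨i, hi, hy⟩
        · exact absurd ⟨l₁, n₁, hl₁, hv₁, by omega, hn₁⟩ h
        · rw [sep, Prod.mk.injEq] at hi
          rw [hy]
          congr 2
          omega
      intro y hy y' hy'
      rw [key y hy, key y' hy']

/-- block suffixes with mark `w` -/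
theorem TTw_le (hD : Data child ξ k M d S) (w : ℕ) :
    LeT {x | ∃ n y, PP child ξ k M d S w n y ∧ x = blk d (w, n) y} (ω ^ (ξ 0)) := by
  refine (chain_blk d w).le_opow (S := fun n => {y | PP child ξ k M d S w n y})
    (fun n y hy => half_sub (PP_mem hD hy)) ?_ _ ?_
  · rintro z ⟨n, y, hy, rfl⟩
    exact ⟨n, y, hy, rfl⟩
  · intro n
    obtain ⟨θ, hθ, hle⟩ := letter_type hD n (Nat.zero_le k)
    exact ⟨θ, hθ, hle.mono (fun y hy => ⟨w, Nat.zero_le _, hy⟩) le_rfl⟩

theorem TT_le_aux (hD : Data child ξ k M d S) (a : ℕ) (ha : a ≤ M) :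
    LeT {x | ∃ w n y, w ≤ a ∧ PP child ξ k M d S w n y ∧ x = blk d (w, n) y}
      (ω ^ (ξ 0) * (a + 1 : ℕ)) := by
  induction a with
  | zero =>
    refine (TTw_le hD 0).mono ?_ ?_
    · rintro x ⟨w, n, y, hw, hP, rfl⟩
      obtain rfl : w = 0 := by omega
      exact ⟨n, y, hP, rfl⟩
    · simp
  | succ a ih =>
    rw [Nat.cast_succ, mul_add_one]
    refine (LeT.union (ih (by omega)) (TTw_le hD (a + 1)) ?_).mono ?_ le_rfl
    · rintro x ⟨w, n, y, hw, hP, rfl⟩ x' ⟨n', y', hP', rfl⟩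
      have h1 := PP_mem hD hP
      have h2 := PP_mem hD hP'
      refine e1_sep (by simp only; omega) ?_ ?_
      · exact qq_iter_lt d (hD.hd (by omega)) (PP_pos hP) (e0_mem01 ⟨by linarith [h1.1], h1.2.le⟩)
      · exact qq_iter_mem' d (PP_pos hP') (e0_mem01 ⟨by linarith [h2.1], h2.2.le⟩)
    · rintro x ⟨w, n, y, hw, hP, rfl⟩
      rcases Nat.lt_or_ge w (a + 1) with h | h
      · exact Or.inl ⟨w, n, y, by omega, hP, rfl⟩
      · obtain rfl : w = a + 1 := by omega
        exact Or.inr ⟨n, y, hP, rfl⟩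

theorem TT_le (hD : Data child ξ k M d S) :
    LeT (TT child ξ k M d S) (ω ^ (ξ 0) * (M + 1 : ℕ)) := by
  refine (TT_le_aux hD M le_rfl).mono ?_ le_rfl
  rintro x ⟨w, n, y, hP, rfl⟩
  exact ⟨w, n, y, PP_le hD hP, hP, rfl⟩

/-- values of suffixes `(1 0^d)^{n'} 0 …` with `1 ≤ n'` -/
def GG (child : Ordinal.{0} → ℕ → Ordinal.{0}) (ξ : ℕ → Ordinal.{0}) (k M d : ℕ)
    (S : ℕ → ℝ) : Set ℝ :=
  {x | ∃ w n y n', PP child ξ k M d S w n y ∧ 1 ≤ n' ∧ n' ≤ n ∧ x = (qq d)^[n'] (e0 y)}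

/-- the same with `n'` less than the full number -/
def GG' (child : Ordinal.{0} → ℕ → Ordinal.{0}) (ξ : ℕ → Ordinal.{0}) (k M d : ℕ)
    (S : ℕ → ℝ) : Set ℝ :=
  {x | ∃ w n y n', PP child ξ k M d S w n y ∧ 1 ≤ n' ∧ n' < n ∧ x = (qq d)^[n'] (e0 y)}

theorem GG_le (hD : Data child ξ k M d S) : LeT (GG child ξ k M d S) (ω ^ (ξ 0 + 1)) := by
  have h1 : LeT (GG child ξ k M d S) (ω ^ (ξ 0) * (M + 1 : ℕ) * ω) := by
    refine (chain_qe d).le_mul
      (S := fun n' => {y | ∃ w n, PP child ξ k M d S w n y ∧ 1 ≤ n' ∧ n' ≤ n}) ?_ ?_ _ ?_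
    · rintro n' y ⟨w, n, hP, -⟩
      exact half_sub (PP_mem hD hP)
    · rintro z ⟨w, n, y, n', hP, h1, h2, rfl⟩
      exact ⟨n', y, ⟨w, n, hP, h1, h2⟩, rfl⟩
    · intro n'
      refine (TT_le hD).mono ?_ le_rfl
      rintro y ⟨w, n, hP, -⟩
      exact PP_TT hD hP
  rwa [mul_assoc, Ordinal.natCast_mul_omega0 (Nat.succ_pos M), ← Ordinal.opow_add_one] at h1

theorem tail_ge (hD : Data child ξ k M d S) (i₀ : ℕ) :
    GeT (ω ^ (ξ 0)) {y | ∃ i ≥ i₀, y = S (i + 1)} := by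
  have h0 : ξ 0 ≠ 0 := (zero_lt_one.trans_le (hD.h1 0 (Nat.zero_le _))).ne'
  have h1 : GeT (ω ^ (ξ 0)) (CC child ξ k M d S [0]) :=
    (CC_type hD.hc hD.hω hD.hS (ξ 0) [0] (Nat.zero_le k) rfl).2
  have h2 : ((fun j => S j) '' Iic i₀).Finite := (Set.finite_Iic i₀).image _
  refine (GeT_diff_finite h0 h1 h2).mono ?_ le_rfl
  rintro x ⟨⟨u, hu, rfl⟩, hx⟩
  set j := Encodable.encode (u ++ [0]) with hj
  have hSj : S j = blks d (rem u [0]) (blk d (sep M j) (S (j + 1))) := by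
    rw [hD.hS.step j, hj, stage_leaf child ξ k M hu, pB_append (by simp), blks_append, blks_append]
    rfl
  rw [← hSj] at hx ⊢
  have hij : i₀ < j := by
    by_contra hcon
    exact hx ⟨j, not_lt.1 hcon, rfl⟩
  refine ⟨j - 1, by omega, ?_⟩
  congr 1
  omega

theorem GG'_ge (hD : Data child ξ k M d S) : GeT (ω ^ (ξ 0 + 1)) (GG' child ξ k M d S) := by
  have hle : LeT (GG' child ξ k M d S) (ω ^ (ξ 0 + 1)) := by
    refine (GG_le hD).mono ?_ le_rfl
    rintro x ⟨w, n, y, n', hP, h1, h2, h3⟩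
    exact ⟨w, n, y, n', hP, h1, h2.le, h3⟩
  refine (chain_qe d).ge_opow
      (S := fun n' => {y | ∃ w n, PP child ξ k M d S w n y ∧ 1 ≤ n' ∧ n' < n}) ?_ ?_ hle ?_ ?_
  · rintro n' y ⟨w, n, hP, -⟩
    exact half_sub (PP_mem hD hP)
  · rintro z ⟨w, n, y, n', hP, h1, h2, rfl⟩
    exact ⟨n', y, ⟨w, n, hP, h1, h2⟩, rfl⟩
  · rw [← Order.succ_eq_add_one]
    exact (Order.bot_lt_succ _).ne'
  · intro β hβ N
    refine ⟨N + 1, Nat.le_succ N, ?_, ?_⟩
    · rintro _ ⟨y, ⟨w, n, hP, h1, h2⟩, rfl⟩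
      exact ⟨w, n, y, N + 1, hP, h1, h2, rfl⟩
    · have hβ' : β ≤ ξ 0 := by
        rw [← Order.succ_eq_add_one, Order.lt_succ_iff] at hβ
        exact hβ
      refine (tail_ge hD (N + 1)).mono ?_ (Ordinal.opow_le_opow_right Ordinal.omega0_pos hβ')
      rintro y ⟨i, hi, rfl⟩
      refine ⟨_, _, PP_sep i, by omega, ?_⟩
      simp only [sep]
      omega

/-- values of `(1 0^d)^n 0 …` for full blocks with mark at least `a` -/
def SW (child : Ordinal.{0} → ℕ → Ordinal.{0}) (ξ : ℕ → Ordinal.{0}) (k M d : ℕ)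
    (S : ℕ → ℝ) (a : ℕ) : Set ℝ :=
  {x | ∃ w n y, PP child ξ k M d S w n y ∧ a ≤ w ∧ x = (qq d)^[n] (e0 y)}

theorem SW_mem (hD : Data child ξ k M d S) {a : ℕ} {x : ℝ} (hx : x ∈ SW child ξ k M d S a) :
    x ∈ Ico (1 / 2 : ℝ) 1 := by
  obtain ⟨w, n, y, hP, hw, rfl⟩ := hx
  have h2 := PP_mem hD hP
  exact qq_iter_mem' d (PP_pos hP) (e0_mem01 ⟨by linarith [h2.1], h2.2.le⟩)

theorem SW_lt (hD : Data child ξ k M d S) {a : ℕ} (ha : 1 ≤ a) {x : ℝ}
    (hx : x ∈ SW child ξ k M d S a) : x < 3 / 4 := by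
  obtain ⟨w, n, y, hP, hw, rfl⟩ := hx
  have h2 := PP_mem hD hP
  have h3 := PP_le hD hP
  exact qq_iter_lt d (hD.hd (by omega)) (PP_pos hP) (e0_mem01 ⟨by linarith [h2.1], h2.2.le⟩)

theorem SW_type (hD : Data child ξ k M d S) {a : ℕ} (ha : a ≤ k) :
    LeT (SW child ξ k M d S a) (ω ^ (ξ a)) ∧ GeT (ω ^ (ξ a)) (SW child ξ k M d S a) := by
  have hsub : ∀ n, {y | ∃ w ≥ a, PP child ξ k M d S w n y} ⊆ Ico (0 : ℝ) 1 := by
    rintro n y ⟨w, hw, hP⟩
    exact half_sub (PP_mem hD hP)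
  have hU : ∀ z ∈ SW child ξ k M d S a, ∃ n, ∃ y ∈ {y | ∃ w ≥ a, PP child ξ k M d S w n y},
      z = (qq d)^[n] (e0 y) := by
    rintro z ⟨w, n, y, hP, hw, rfl⟩
    exact ⟨n, y, ⟨w, hw, hP⟩, rfl⟩
  have hle : LeT (SW child ξ k M d S a) (ω ^ (ξ a)) :=
    (chain_qe d).le_opow hsub hU _ (fun n => letter_type hD n ha)
  have h0 : ξ a ≠ 0 := (zero_lt_one.trans_le (hD.h1 a ha)).ne'
  refine ⟨hle, (chain_qe d).ge_opow hsub hU hle h0 (fun β hβ N => ?_)⟩
  obtain ⟨n', hn', hcn⟩ := (hD.hc _ h0 (hD.hω a ha)).2 β hβ N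
  have hv : Valid child ξ k [n', a] := ⟨ha, h0⟩
  refine ⟨ltr [n', a], ?_, ?_, ?_⟩
  · have := (ltr_strictMono [a]).id_le n'
    exact hn'.le.trans this
  · rintro _ ⟨y, ⟨w, hw, hP⟩, rfl⟩
    exact ⟨w, _, y, hP, hw, rfl⟩
  · refine ((CC_type hD.hc hD.hω hD.hS β [n', a] hv hcn).2).mono ?_ le_rfl
    intro y hy
    exact ⟨a, le_rfl, PP_of_CC (l := [a]) (by simp) hy⟩

theorem SW_single {a : ℕ} (ha1 : k < a) (ha : a ≤ M) :
    LeT (SW child ξ k M d S a) 1 ∧ GeT 1 (SW child ξ k M d S a) := by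
  constructor
  · refine LeT_subsingleton ?_
    have key : ∀ x ∈ SW child ξ k M d S a, x = (qq d)^[1] (e0 (S 1)) := by
      rintro x ⟨w, n, y, hP, hw, rfl⟩
      rcases PP_cases hP with ⟨l, n', hl, hv, hw', -, -⟩ | ⟨i, hi, hy⟩
      · exfalso
        have h1 := ((valid_cons child ξ k hl n').1 hv).1
        match l, hl, h1, hw' with
        | [w'], _, h1, hw' =>
          have h1' : w' ≤ k := h1
          have hw'' : w = w' := hw'
          omega
        | _ :: _ :: _, _, _, hw' =>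
          have hw'' : w = 0 := hw'
          omega
      · rw [sep, Prod.mk.injEq] at hi
        have hi0 : i = 0 := by
          by_contra hne
          rw [if_neg hne] at hi
          omega
        rw [hy, hi.2, hi0]
    intro x hx x' hx'
    rw [key x hx, key x' hx']
  · refine GeT_one ⟨_, M, 1, S 1, ?_, ha, rfl⟩
    exact PP_sep 0

/-- values of suffixes starting with extra ones, at most `a` of them -/
def WW (child : Ordinal.{0} → ℕ → Ordinal.{0}) (ξ : ℕ → Ordinal.{0}) (k M d : ℕ)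
    (S : ℕ → ℝ) (a : ℕ) : Set ℝ :=
  {x | ∃ w', 1 ≤ w' ∧ w' ≤ a ∧ ∃ z ∈ SW child ξ k M d S w', x = e1^[w'] z}

/-- the sequence of types of the sets `SW (j+1)` -/
noncomputable def wtype (ξ : ℕ → Ordinal.{0}) (k : ℕ) (j : ℕ) : Ordinal.{0} :=
  if j < k then ω ^ (ξ (j + 1)) else 1

theorem WW_type (hD : Data child ξ k M d S) (a : ℕ) (ha : a ≤ M) :
    LeT (WW child ξ k M d S a) (psum (wtype ξ k) a) ∧
    GeT (psum (wtype ξ k) a) (WW child ξ k M d S a) := by
  induction a with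
  | zero =>
    constructor
    · refine (LeT_empty _).mono ?_ le_rfl
      rintro x ⟨w', h1, h2, -⟩
      omega
    · exact GeT_zero _
  | succ a ih =>
    obtain ⟨ih1, ih2⟩ := ih (by omega)
    have hS : LeT (SW child ξ k M d S (a + 1)) (wtype ξ k a) ∧
        GeT (wtype ξ k a) (SW child ξ k M d S (a + 1)) := by
      unfold wtype
      split_ifs with h
      · exact SW_type hD (by omega)
      · exact SW_single (by omega) (by omega)
    have hsep : ∀ x ∈ WW child ξ k M d S a, ∀ y ∈ e1^[a + 1] '' SW child ξ k M d S (a + 1),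
        x < y := by
      rintro x ⟨w', h1, h2, z, hz, rfl⟩ _ ⟨z', hz', rfl⟩
      exact e1_sep (by omega) (SW_lt hD h1 hz) (SW_mem hD hz')
    have hmono : StrictMonoOn (e1^[a + 1]) (SW child ξ k M d S (a + 1)) :=
      (e1_strictMono.iterate (a + 1)).strictMonoOn _
    constructor
    · refine (LeT.union ih1 (hS.1.image hmono) hsep).mono ?_ le_rfl
      rintro x ⟨w', h1, h2, z, hz, rfl⟩
      rcases Nat.lt_or_ge w' (a + 1) with h | h
      · exact Or.inl ⟨w', h1, by omega, z, hz, rfl⟩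
      · obtain rfl : w' = a + 1 := by omega
        exact Or.inr ⟨z, hz, rfl⟩
    · refine (GeT.union ih2 (hS.2.image hmono) hsep).mono ?_ le_rfl
      rintro x (⟨w', h1, h2, z, hz, rfl⟩ | ⟨z, hz, rfl⟩)
      · exact ⟨w', h1, by omega, z, hz, rfl⟩
      · exact ⟨a + 1, by omega, le_rfl, z, hz, rfl⟩

/-- membership in the orbit -/
structure IsOrbit (child : Ordinal.{0} → ℕ → Ordinal.{0}) (ξ : ℕ → Ordinal.{0}) (k M d : ℕ)
    (S : ℕ → ℝ) (A : Set ℝ) : Prop where
  cases : ∀ x ∈ A, (∃ w n y w', PP child ξ k M d S w n y ∧ 1 ≤ w' ∧ w' ≤ w ∧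
      x = e1^[w'] ((qq d)^[n] (e0 y))) ∨
    (∃ w n y r n', PP child ξ k M d S w n y ∧ r ≤ d ∧ n' ≤ n ∧ (r = 0 ∨ n' < n) ∧
      x = e0^[r] ((qq d)^[n'] (e0 y)))
  ones : ∀ w n y w', PP child ξ k M d S w n y → w' ≤ w → e1^[w'] ((qq d)^[n] (e0 y)) ∈ A
  zeros : ∀ w n y r n', PP child ξ k M d S w n y → r ≤ d → n' ≤ n → (r = 0 ∨ n' < n) →
    e0^[r] ((qq d)^[n'] (e0 y)) ∈ A

variable {A : Set ℝ}

theorem pow_two_pos' (r : ℕ) : (0 : ℝ) < 2 ^ r := by positivity

theorem GG_mem (hD : Data child ξ k M d S) {x : ℝ} (hx : x ∈ GG child ξ k M d S) :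
    x ∈ Ico (1 / 2 : ℝ) 1 := by
  obtain ⟨w, n, y, n', hP, h1, h2, rfl⟩ := hx
  have h3 := PP_mem hD hP
  exact qq_iter_mem' d h1 (e0_mem01 ⟨by linarith [h3.1], h3.2.le⟩)

theorem TT_mem (hD : Data child ξ k M d S) {x : ℝ} (hx : x ∈ TT child ξ k M d S) :
    x ∈ Ico (1 / 2 : ℝ) 1 := by
  obtain ⟨w, n, y, hP, rfl⟩ := hx
  have h3 := PP_mem hD hP
  exact blk_mem d (PP_pos hP) ⟨by linarith [h3.1], h3.2.le⟩

theorem GG_lt_three (hD : Data child ξ k M d S) (hd : 1 ≤ d) {x : ℝ}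
    (hx : x ∈ GG child ξ k M d S) : x < 3 / 4 := by
  obtain ⟨w, n, y, n', hP, h1, h2, rfl⟩ := hx
  have h3 := PP_mem hD hP
  exact qq_iter_lt d hd h1 (e0_mem01 ⟨by linarith [h3.1], h3.2.le⟩)

/-- abbreviation for the bound on the type of `TT` -/
noncomputable def tau (ξ : ℕ → Ordinal.{0}) (M : ℕ) : Ordinal.{0} := ω ^ (ξ 0) * (M + 1 : ℕ)

theorem tau_absorb (ξ : ℕ → Ordinal.{0}) (M : ℕ) :
    tau ξ M + ω ^ (ξ 0 + 1) = ω ^ (ξ 0 + 1) := by
  refine Ordinal.add_omega0_opow ?_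
  unfold tau
  refine Ordinal.opow_mul_lt_opow (Ordinal.natCast_lt_omega0 _) ?_
  rw [← Order.succ_eq_add_one]
  exact Order.lt_succ _

theorem GT_le (hD : Data child ξ k M d S) :
    LeT (GG child ξ k M d S ∪ TT child ξ k M d S) (ω ^ (ξ 0 + 1) + tau ξ M) := by
  have h1 : LeT (GG child ξ k M d S ∪ (TT child ξ k M d S \ GG child ξ k M d S))
      (ω ^ (ξ 0 + 1) + tau ξ M) := by
    refine LeT.union (GG_le hD) ((TT_le hD).mono sdiff_subset le_rfl) ?_
    rintro x hx _ ⟨⟨w, n, y, hP, rfl⟩, hnot⟩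
    have hw : 1 ≤ w := by
      by_contra hcon
      obtain rfl : w = 0 := by omega
      exact hnot ⟨0, n, y, n, hP, PP_pos hP, le_rfl, rfl⟩
    have h3 := PP_mem hD hP
    have h4 := PP_le hD hP
    have h5 := GG_lt_three hD (hD.hd (by omega)) hx
    have h6 := e1_iter_ge hw (qq_iter_mem' d (PP_pos hP) (e0_mem01 ⟨by linarith [h3.1], h3.2.le⟩))
    exact h5.trans_le h6
  rwa [union_sdiff_self] at h1

theorem WW_ge_three (hD : Data child ξ k M d S) {a : ℕ} {x : ℝ} (hx : x ∈ WW child ξ k M d S a) :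
    3 / 4 ≤ x := by
  obtain ⟨w', h1, h2, z, hz, rfl⟩ := hx
  exact e1_iter_ge h1 (SW_mem hD hz)

theorem low_le (hD : Data child ξ k M d S) (hA : IsOrbit child ξ k M d S A) (t : ℕ) (ht : t ≤ d) :
    LeT (A ∩ Iio (1 / 2 ^ (d + 1 - t))) (ω ^ (ξ 0 + 1) * t + tau ξ M) := by
  induction t with
  | zero =>
    rw [Nat.cast_zero, mul_zero, zero_add, Nat.sub_zero]
    refine ((TT_le hD).image (ψ := e0^[d + 1])
      ((e0_strictMono.iterate _).strictMonoOn _)).mono ?_ le_rfl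
    rintro x ⟨hx, hlt⟩
    simp only [mem_Iio] at hlt
    rcases hA.cases x hx with ⟨w, n, y, w', hP, h1, h2, rfl⟩ | ⟨w, n, y, r, n', hP, h1, h2, h3, rfl⟩
    · exfalso
      have h3 := PP_mem hD hP
      have h4 := (e1_iter_mem w'
        (qq_iter_mem' d (PP_pos hP) (e0_mem01 ⟨by linarith [h3.1], h3.2.le⟩))).1
      have h5 : (1 : ℝ) / 2 ^ (d + 1) ≤ 1 / 2 := by
        rw [div_le_div_iff₀ (by positivity) (by norm_num), one_mul, one_mul, pow_succ]
        nlinarith [one_le_pow₀ (a := (2 : ℝ)) (n := d) (by norm_num)]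
      linarith
    · have h4 := PP_mem hD hP
      rcases Nat.eq_zero_or_pos n' with rfl | hn'
      · rw [Function.iterate_zero, id_eq] at hlt ⊢
        have h5 : e0^[r] (e0 y) = y / 2 ^ (r + 1) := by
          rw [← Function.iterate_succ_apply, e0_iter]
        rw [h5, div_lt_div_iff₀ (by positivity) (by positivity), one_mul] at hlt
        have h6 : d + 1 < r + 2 := by
          by_contra hcon
          have h7 : (2 : ℝ) ^ (r + 2) ≤ 2 ^ (d + 1) := pow_le_pow_right₀ (by norm_num) (by omega)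
          rw [pow_succ (2 : ℝ) (r + 1)] at h7
          nlinarith [h4.1, pow_two_pos' (d + 1), pow_two_pos' (r + 1)]
        obtain rfl : r = d := by omega
        exact ⟨y, PP_TT hD hP, by rw [Function.iterate_succ_apply]⟩
      · exfalso
        have h5 := (qq_iter_mem' d hn' (e0_mem01 ⟨by linarith [h4.1], h4.2.le⟩)).1
        rw [e0_iter, div_lt_div_iff₀ (by positivity) (by positivity), one_mul] at hlt
        have h7 : (2 : ℝ) ^ (r + 1) ≤ 2 ^ (d + 1) := pow_le_pow_right₀ (by norm_num) (by omega)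
        rw [pow_succ (2 : ℝ) r] at h7
        nlinarith [pow_two_pos' (d + 1), pow_two_pos' r]
  | succ t ih =>
    have ih' := ih (by omega)
    set r := d - t with hr
    have hr1 : d + 1 - (t + 1) = r := by omega
    have hr2 : d + 1 - t = r + 1 := by omega
    have hrd : r ≤ d := by omega
    have hr0 : 1 ≤ r := by omega
    rw [hr1]
    rw [hr2] at ih'
    have hsum : ω ^ (ξ 0 + 1) * ((t + 1 : ℕ) : Ordinal.{0}) + tau ξ M =
        (ω ^ (ξ 0 + 1) * (t : Ordinal.{0}) + tau ξ M) + (ω ^ (ξ 0 + 1) + tau ξ M) := by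
      rw [Nat.cast_succ, mul_add_one]
      rw [← add_assoc (ω ^ (ξ 0 + 1) * (t : Ordinal.{0}) + tau ξ M), add_assoc _ (tau ξ M),
        tau_absorb]
    rw [hsum]
    refine (LeT.union ih' ((GT_le hD).image (ψ := e0^[r])
      ((e0_strictMono.iterate _).strictMonoOn _)) ?_).mono ?_ le_rfl
    · rintro x ⟨-, hx⟩ _ ⟨z, hz, rfl⟩
      refine lt_of_lt_of_le hx ?_
      have hz1 : 1 / 2 ≤ z := by
        rcases hz with hz | hz
        · exact (GG_mem hD hz).1
        · exact (TT_mem hD hz).1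
      rw [e0_iter, div_le_div_iff₀ (by positivity) (by positivity), pow_succ]
      nlinarith [pow_two_pos' r]
    · rintro x ⟨hx, hlt⟩
      simp only [mem_Iio] at hlt
      by_cases hlow : x < 1 / 2 ^ (r + 1)
      · exact Or.inl ⟨hx, hlow⟩
      · right
        push Not at hlow
        rcases hA.cases x hx with
          ⟨w, n, y, w', hP, h1, h2, rfl⟩ | ⟨w, n, y, r', n', hP, h1, h2, h3, rfl⟩
        · exfalso
          have h3 := PP_mem hD hP
          have h4 := (e1_iter_mem w'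
            (qq_iter_mem' d (PP_pos hP) (e0_mem01 ⟨by linarith [h3.1], h3.2.le⟩))).1
          have h5 : (1 : ℝ) / 2 ^ r ≤ 1 / 2 := by
            rw [div_le_div_iff₀ (by positivity) (by norm_num), one_mul, one_mul]
            calc (2 : ℝ) = 2 ^ 1 := by norm_num
              _ ≤ 2 ^ r := pow_le_pow_right₀ (by norm_num) hr0
          linarith
        · have h4 := PP_mem hD hP
          rcases Nat.eq_zero_or_pos n' with rfl | hn'
          · rw [Function.iterate_zero, id_eq] at hlt hlow ⊢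
            have h5 : e0^[r'] (e0 y) = y / 2 ^ (r' + 1) := by
              rw [← Function.iterate_succ_apply, e0_iter]
            rw [h5, div_lt_div_iff₀ (by positivity) (by positivity), one_mul] at hlt
            rw [h5, div_le_div_iff₀ (by positivity) (by positivity), one_mul] at hlow
            have h6 : r < r' + 2 := by
              by_contra hcon
              have h7 : (2 : ℝ) ^ (r' + 2) ≤ 2 ^ r := pow_le_pow_right₀ (by norm_num) (by omega)
              rw [pow_succ (2 : ℝ) (r' + 1)] at h7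
              nlinarith [h4.1, pow_two_pos' r, pow_two_pos' (r' + 1)]
            have h7 : r' + 1 < r + 1 := by
              by_contra hcon
              have h7 : (2 : ℝ) ^ (r + 1) ≤ 2 ^ (r' + 1) :=
                pow_le_pow_right₀ (by norm_num) (by omega)
              nlinarith [h4.2, pow_two_pos' (r + 1), pow_two_pos' (r' + 1)]
            have h8 : r = r' + 1 := by omega
            exact ⟨y, Or.inr (PP_TT hD hP), by rw [h8, Function.iterate_succ_apply]⟩
          · have h5 := qq_iter_mem' d hn' (e0_mem01 (x := y) ⟨by linarith [h4.1], h4.2.le⟩)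
            rw [e0_iter, div_lt_div_iff₀ (by positivity) (by positivity), one_mul] at hlt
            rw [e0_iter, div_le_div_iff₀ (by positivity) (by positivity), one_mul] at hlow
            have h6 : r < r' + 1 := by
              by_contra hcon
              have h7 : (2 : ℝ) ^ (r' + 1) ≤ 2 ^ r := pow_le_pow_right₀ (by norm_num) (by omega)
              rw [pow_succ (2 : ℝ) r'] at h7
              nlinarith [h5.1, pow_two_pos' r, pow_two_pos' r']
            have h7 : r' < r + 1 := by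
              by_contra hcon
              have h7 : (2 : ℝ) ^ (r + 1) ≤ 2 ^ r' :=
                pow_le_pow_right₀ (by norm_num) (by omega)
              nlinarith [h5.2, pow_two_pos' (r + 1), pow_two_pos' r']
            have h8 : r' = r := by omega
            exact ⟨_, Or.inl ⟨w, n, y, n', hP, hn', h2, rfl⟩, by rw [h8]⟩

theorem orbit_le (hD : Data child ξ k M d S) (hA : IsOrbit child ξ k M d S A) :
    LeT A (ω ^ (ξ 0 + 1) * (d + 1 : ℕ) + psum (wtype ξ k) M) := by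
  have hlow := low_le hD hA d le_rfl
  have hd1 : d + 1 - d = 1 := by omega
  rw [hd1, pow_one] at hlow
  have hGW : LeT (GG child ξ k M d S ∪ WW child ξ k M d S M)
      (ω ^ (ξ 0 + 1) + psum (wtype ξ k) M) := by
    refine LeT.union (GG_le hD) (WW_type hD M le_rfl).1 ?_
    intro x hx y hy
    have h1 : 1 ≤ M := by
      obtain ⟨w', h1, h2, -⟩ := hy
      omega
    exact (GG_lt_three hD (hD.hd h1) hx).trans_le (WW_ge_three hD hy)
  have hsum : ω ^ (ξ 0 + 1) * ((d + 1 : ℕ) : Ordinal.{0}) + psum (wtype ξ k) M =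
      (ω ^ (ξ 0 + 1) * (d : Ordinal.{0}) + tau ξ M) +
        (ω ^ (ξ 0 + 1) + psum (wtype ξ k) M) := by
    rw [Nat.cast_succ, mul_add_one]
    rw [← add_assoc (ω ^ (ξ 0 + 1) * (d : Ordinal.{0}) + tau ξ M), add_assoc _ (tau ξ M),
      tau_absorb]
  rw [hsum]
  refine (LeT.union hlow hGW ?_).mono ?_ le_rfl
  · rintro x ⟨-, hx⟩ y (hy | hy)
    · exact lt_of_lt_of_le hx (GG_mem hD hy).1
    · have := WW_ge_three hD hy
      simp only [mem_Iio] at hx
      linarith
  · intro x hx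
    by_cases hlt : x < 1 / 2
    · exact Or.inl ⟨hx, hlt⟩
    · right
      push Not at hlt
      rcases hA.cases x hx with
          ⟨w, n, y, w', hP, h1, h2, rfl⟩ | ⟨w, n, y, r, n', hP, h1, h2, h3, rfl⟩
      · have := PP_le hD hP
        exact Or.inr ⟨w', h1, by omega, _, ⟨w, n, y, hP, h2, rfl⟩, rfl⟩
      · have h4 := PP_mem hD hP
        rw [e0_iter, le_div_iff₀ (by positivity)] at hlt
        rcases Nat.eq_zero_or_pos n' with rfl | hn'
        · exfalso
          rw [Function.iterate_zero, id_eq, e0] at hlt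
          nlinarith [one_le_pow₀ (a := (2 : ℝ)) (n := r) (by norm_num), h4.2]
        · have h5 := qq_iter_mem' d hn' (e0_mem01 (x := y) ⟨by linarith [h4.1], h4.2.le⟩)
          have hr : r = 0 := by
            by_contra hne
            have h7 : (2 : ℝ) ^ 1 ≤ 2 ^ r := pow_le_pow_right₀ (by norm_num) (by omega)
            rw [pow_one] at h7
            nlinarith [h5.2]
          subst hr
          exact Or.inl ⟨w, n, y, n', hP, hn', h2, rfl⟩

theorem low_ge (hD : Data child ξ k M d S) (hA : IsOrbit child ξ k M d S A) (t : ℕ) (ht : t ≤ d) :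
    GeT (ω ^ (ξ 0 + 1) * t) (A ∩ Iio (1 / 2 ^ (d + 1 - t))) := by
  induction t with
  | zero =>
    rw [Nat.cast_zero, mul_zero]
    exact GeT_zero _
  | succ t ih =>
    have ih' := ih (by omega)
    set r := d - t with hr
    have hr1 : d + 1 - (t + 1) = r := by omega
    have hr2 : d + 1 - t = r + 1 := by omega
    have hrd : r ≤ d := by omega
    rw [hr1]
    rw [hr2] at ih'
    rw [Nat.cast_succ, mul_add_one]
    have hGmem : ∀ z ∈ GG' child ξ k M d S, z ∈ Ico (1 / 2 : ℝ) 1 := by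
      rintro z ⟨w, n, y, n', hP, h1, h2, h3⟩
      exact GG_mem hD ⟨w, n, y, n', hP, h1, h2.le, h3⟩
    refine (GeT.union ih' ((GG'_ge hD).image (ψ := e0^[r])
      ((e0_strictMono.iterate _).strictMonoOn _)) ?_).mono ?_ le_rfl
    · rintro x ⟨-, hx⟩ _ ⟨z, hz, rfl⟩
      refine lt_of_lt_of_le hx ?_
      have hz1 := (hGmem z hz).1
      rw [e0_iter, div_le_div_iff₀ (by positivity) (by positivity), pow_succ]
      nlinarith [pow_two_pos' r]
    · rintro x (⟨hx, hlt⟩ | ⟨z, hz, rfl⟩)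
      · refine ⟨hx, mem_Iio.2 (lt_of_lt_of_le (mem_Iio.1 hlt) ?_)⟩
        exact one_div_le_one_div_of_le (by positivity) (pow_le_pow_right₀ (by norm_num) (by omega))
      · refine ⟨?_, ?_⟩
        · obtain ⟨w, n, y, n', hP, h1, h2, rfl⟩ := hz
          exact hA.zeros w n y r n' hP hrd h2.le (Or.inr h2)
        · have hz1 := (hGmem z hz).2
          simp only [mem_Iio]
          rw [e0_iter]
          exact div_lt_div_of_pos_right hz1 (by positivity)

theorem orbit_ge (hD : Data child ξ k M d S) (hA : IsOrbit child ξ k M d S A) :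
    GeT (ω ^ (ξ 0 + 1) * (d + 1 : ℕ) + psum (wtype ξ k) M) A := by
  have hlow := low_ge hD hA d le_rfl
  have hd1 : d + 1 - d = 1 := by omega
  rw [hd1, pow_one] at hlow
  have hGG : GG' child ξ k M d S ⊆ GG child ξ k M d S := by
    rintro z ⟨w, n, y, n', hP, h1, h2, h3⟩
    exact ⟨w, n, y, n', hP, h1, h2.le, h3⟩
  have hGW : GeT (ω ^ (ξ 0 + 1) + psum (wtype ξ k) M)
      (GG' child ξ k M d S ∪ WW child ξ k M d S M) := by
    refine GeT.union (GG'_ge hD) (WW_type hD M le_rfl).2 ?_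
    intro x hx y hy
    have h1 : 1 ≤ M := by
      obtain ⟨w', h1, h2, -⟩ := hy
      omega
    exact (GG_lt_three hD (hD.hd h1) (hGG hx)).trans_le (WW_ge_three hD hy)
  have hsum : ω ^ (ξ 0 + 1) * ((d + 1 : ℕ) : Ordinal.{0}) + psum (wtype ξ k) M =
      ω ^ (ξ 0 + 1) * (d : Ordinal.{0}) + (ω ^ (ξ 0 + 1) + psum (wtype ξ k) M) := by
    rw [Nat.cast_succ, mul_add_one, add_assoc]
  rw [hsum]
  refine (GeT.union hlow hGW ?_).mono ?_ le_rfl
  · rintro x ⟨-, hx⟩ y (hy | hy)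
    · exact lt_of_lt_of_le hx (GG_mem hD (hGG hy)).1
    · have := WW_ge_three hD hy
      simp only [mem_Iio] at hx
      linarith
  · rintro x (⟨hx, -⟩ | hx | hx)
    · exact hx
    · obtain ⟨w, n, y, n', hP, h1, h2, rfl⟩ := hx
      exact hA.zeros w n y 0 n' hP (Nat.zero_le _) h2.le (Or.inl rfl)
    · obtain ⟨w', h1, h2, z, ⟨w, n, y, hP, hw, rfl⟩, rfl⟩ := hx
      exact hA.ones w n y w' hP hw

end build

end Pool.Agent.H85
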