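import Mathlib

/-!
# Shift orbits of binary sequences as sets of real numbers
-/

namespace Pool.Agent.H85

/-- `shiftVal b i = ∑_{n ≥ 1} b_{n+i} 2^{-n}`, the real number whose binary digits are given by
the `i`-th shift of the sequence `(b_1, b_2, b_3, …) = (b 0, b 1, b 2, …)`. -/
noncomputable def shiftVal (b : ℕ → Fin 2) (i : ℕ) : ℝ :=
  ∑' n : ℕ, ((b (n + i) : ℕ) : ℝ) / 2 ^ (n + 1)

/-- The set `A(b) = {a_i : i ≥ 0}`. -/
def orbitSet (b : ℕ → Fin 2) : Set ℝ := Set.range (shiftVal b)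

end Pool.Agent.H85
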