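import Pool.Agent.H85.Necessity
import Pool.Agent.H85.OrbitDef

/-!
# Shift orbits of binary sequences as sets of real numbers
-/

open Ordinal Set Order

namespace Pool.Agent.H85

theorem fin2_le (d : Fin 2) : ((d : ℕ) : ℝ) ≤ 1 := by
  have : (d : ℕ) ≤ 1 := by omega
  exact_mod_cast this

theorem summable_half : Summable (fun n : ℕ => (1 : ℝ) / 2 ^ (n + 1)) := by
  have h := summable_geometric_two.mul_left (1 / 2 : ℝ)
  refine h.congr (fun n => ?_)
  rw [pow_succ]
  field_simp
  rw [div_pow, one_pow]
  field_simp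

theorem tsum_half : ∑' n : ℕ, (1 : ℝ) / 2 ^ (n + 1) = 1 := by
  have h : ∀ n : ℕ, (1 : ℝ) / 2 ^ (n + 1) = 1 / 2 * (1 / 2) ^ n := by
    intro n
    rw [pow_succ, div_pow, one_pow]
    field_simp
  simp_rw [h]
  rw [tsum_mul_left, tsum_geometric_two]
  norm_num

theorem summable_digits (b : ℕ → Fin 2) (i : ℕ) :
    Summable (fun n : ℕ => ((b (n + i) : ℕ) : ℝ) / 2 ^ (n + 1)) := by
  refine Summable.of_nonneg_of_le (fun n => by positivity) (fun n => ?_) summable_half
  gcongr
  exact fin2_le _

theorem shiftVal_succ (b : ℕ → Fin 2) (i : ℕ) :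
    shiftVal b i = (((b i : ℕ) : ℝ) + shiftVal b (i + 1)) / 2 := by
  unfold shiftVal
  rw [(summable_digits b i).tsum_eq_zero_add]
  have h : ∀ n : ℕ, ((b (n + 1 + i) : ℕ) : ℝ) / 2 ^ (n + 1 + 1)
      = 1 / 2 * (((b (n + (i + 1)) : ℕ) : ℝ) / 2 ^ (n + 1)) := by
    intro n
    have : n + 1 + i = n + (i + 1) := by omega
    rw [this, pow_succ (2 : ℝ) (n + 1)]
    field_simp
  simp_rw [h]
  rw [tsum_mul_left]
  simp
  ring

theorem shiftVal_nonneg (b : ℕ → Fin 2) (i : ℕ) : 0 ≤ shiftVal b i :=
  tsum_nonneg fun n => by positivity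

theorem shiftVal_le_one (b : ℕ → Fin 2) (i : ℕ) : shiftVal b i ≤ 1 := by
  rw [← tsum_half]
  refine Summable.tsum_le_tsum (fun n => ?_) (summable_digits b i) summable_half
  gcongr
  exact fin2_le _

theorem digit_cases (b : ℕ → Fin 2) (i : ℕ) :
    (((b i : ℕ) : ℝ) = 0 ∨ ((b i : ℕ) : ℝ) = 1) := by
  have h := (b i).2
  have : (b i : ℕ) = 0 ∨ (b i : ℕ) = 1 := by omega
  rcases this with h | h
  · left; exact_mod_cast h
  · right; exact_mod_cast h

/-- the orbit set is either finite or an injective orbit of the doubling map in `(0,1)` -/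
theorem orb_of_infinite (b : ℕ → Fin 2) (h : (orbitSet b).Infinite) : Orb (shiftVal b) := by
  have hfin : ∀ (i : ℕ) (v : ℝ), (∀ j ≥ i, shiftVal b j = v) → False := by
    intro i v hv
    refine h (((Set.finite_Iio i).image (shiftVal b)).union (Set.finite_singleton v) |>.subset ?_)
    rintro _ ⟨j, rfl⟩
    rcases lt_or_ge j i with hj | hj
    · exact Or.inl ⟨j, hj, rfl⟩
    · exact Or.inr (hv j hj)
  have hpos : ∀ i, 0 < shiftVal b i := by
    intro i
    refine lt_of_le_of_ne (shiftVal_nonneg b i) (fun h0 => ?_)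
    refine hfin i 0 ?_
    intro j hj
    induction j, hj using Nat.le_induction with
    | base => exact h0.symm
    | succ j hj ih =>
      have h1 := shiftVal_succ b j
      have h2 := shiftVal_nonneg b (j + 1)
      rcases digit_cases b j with h3 | h3 <;> rw [h3, ih] at h1 <;> linarith
  have hlt : ∀ i, shiftVal b i < 1 := by
    intro i
    refine lt_of_le_of_ne (shiftVal_le_one b i) (fun h0 => ?_)
    refine hfin i 1 ?_
    intro j hj
    induction j, hj using Nat.le_induction with
    | base => exact h0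
    | succ j hj ih =>
      have h1 := shiftVal_succ b j
      have h2 := shiftVal_le_one b (j + 1)
      rcases digit_cases b j with h3 | h3 <;> rw [h3, ih] at h1 <;> linarith
  have hstep : ∀ i, shiftVal b (i + 1) = dbl (shiftVal b i) := by
    intro i
    have h1 := shiftVal_succ b i
    have h2 := hpos (i + 1)
    have h3 := hlt (i + 1)
    rcases digit_cases b i with h4 | h4
    · rw [h4] at h1
      rw [dbl_of_le (by linarith)]
      linarith
    · rw [h4] at h1
      rw [dbl_of_gt (by linarith)]
      linarith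
  refine ⟨hpos, hlt, hstep, ?_⟩
  have hiter : ∀ i k, dbl^[k] (shiftVal b i) = shiftVal b (i + k) := by
    intro i k
    induction k with
    | zero => rfl
    | succ k ih => rw [Function.iterate_succ_apply', ih, ← hstep]; rfl
  have key : ∀ i j, i < j → shiftVal b i ≠ shiftVal b j := by
    intro i j hij heq
    refine h (((Set.finite_Iio j).image (shiftVal b)).subset ?_)
    rintro _ ⟨k, rfl⟩
    induction k using Nat.strong_induction_on with
    | _ k ih =>
      rcases lt_or_ge k j with hk | hk
      · exact ⟨k, hk, rfl⟩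
      · have h1 : shiftVal b k = shiftVal b (i + (k - j)) := by
          rw [← hiter, heq, hiter]
          congr 1
          omega
        rw [h1]
        exact ih _ (by omega)
  intro i j hij
  by_contra hne
  rcases lt_or_gt_of_ne hne with h1 | h1
  · exact key i j h1 hij
  · exact key j i h1 hij.symm

/-- The set of admissible order types. -/
def Admissible (α : Ordinal.{0}) : Prop :=
  (0 < α ∧ α < ω) ∨ ∃ γ : Ordinal.{0}, 1 ≤ γ ∧ γ < ω₁ ∧
    (α = ω ^ (γ + 1) ∨ (ω ^ (γ + 1) * 2 ≤ α ∧ α < ω ^ (γ + 2)))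

theorem lt_omega_one_of_countable {S : Set ℝ} (hS : S.Countable) [IsWellOrder S (· < ·)] :
    Ordinal.type ((· < ·) : S → S → Prop) < ω₁ := by
  rw [← Cardinal.ord_aleph, Cardinal.lt_ord, Ordinal.card_type]
  have h1 : Cardinal.mk S ≤ Cardinal.aleph0 := by
    have := hS.to_subtype
    exact Cardinal.mk_le_aleph0
  exact h1.trans_lt Cardinal.aleph0_lt_aleph_one

theorem necessity (b : ℕ → Fin 2) [hw : IsWellOrder (orbitSet b) (· < ·)] :
    Admissible (Ordinal.type ((· < ·) : orbitSet b → orbitSet b → Prop)) := by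
  obtain ⟨hL, hG⟩ := type_spec (orbitSet b)
  set α := Ordinal.type ((· < ·) : orbitSet b → orbitSet b → Prop) with hα
  by_cases hfin : (orbitSet b).Finite
  · left
    have hne : Nonempty (orbitSet b) := ⟨⟨shiftVal b 0, 0, rfl⟩⟩
    refine ⟨?_, ?_⟩
    · rw [pos_iff_ne_zero]
      exact Ordinal.type_ne_zero_of_nonempty _
    · rw [hα, ← Cardinal.ord_aleph0, Cardinal.lt_ord, Ordinal.card_type]
      have := hfin.to_subtype
      exact Cardinal.lt_aleph0_of_finite _
  · right
    have hinf : (orbitSet b).Infinite := hfin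
    have ho := orb_of_infinite b hinf
    have hω : ω ≤ α := by
      by_contra hcon
      have h1 : α.card < Cardinal.aleph0 := by
        rw [← Cardinal.lt_ord, Cardinal.ord_aleph0]
        exact not_le.1 hcon
      rw [hα, Ordinal.card_type] at h1
      exact hfin (Cardinal.lt_aleph0_iff_set_finite.1 h1)
    have hα0 : α ≠ 0 := fun h => by
      rw [h] at hω
      exact absurd hω (not_le.2 Ordinal.omega0_pos)
    set ξ := Ordinal.log ω α with hξdef
    have hξ : ξ ≠ 0 := (Ordinal.log_pos Ordinal.one_lt_omega0 hα0 hω).ne'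
    have hdiv := Ordinal.div_opow_log_lt α Ordinal.one_lt_omega0
    obtain ⟨c, hc⟩ := Ordinal.lt_omega0.1 hdiv
    have hcpos := Ordinal.div_opow_log_pos ω hα0
    rw [← hξdef, hc] at hcpos
    have hc0 : 0 < c := by exact_mod_cast hcpos
    set δ := α % ω ^ ξ with hδdef
    have hδ : δ < ω ^ ξ := Ordinal.mod_lt _ (Ordinal.opow_ne_zero _ Ordinal.omega0_ne_zero)
    have hdec : α = ω ^ ξ * c + δ := by
      rw [← hc, hδdef, Ordinal.div_add_mod]
    have hα1 : α < ω ^ ξ * (c + 1 : ℕ) := by
      rw [hdec, Nat.cast_add, Nat.cast_one, mul_add, mul_one]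
      exact (add_lt_add_iff_left _).2 hδ
    have hG1 : GeT (ω ^ ξ) (range (shiftVal b)) :=
      hG.mono subset_rfl (Ordinal.opow_log_le_self _ hα0)
    obtain ⟨γ, hγ1, hγ⟩ := top_exponent ho hξ hα1 hL hG1
    refine ⟨γ, hγ1, ?_, ?_⟩
    · have hαω : α < ω₁ := lt_omega_one_of_countable (S := orbitSet b) (Set.countable_range _)
      have h2 : γ < ω ^ (γ + 1) :=
        (Order.lt_succ γ).trans_le (by
          rw [Order.succ_eq_add_one]
          exact Ordinal.right_le_opow _ Ordinal.one_lt_omega0)
      refine h2.trans (lt_of_le_of_lt ?_ hαω)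
      rw [← hγ]
      exact Ordinal.opow_log_le_self _ hα0
    · rw [← hγ]
      rcases Nat.lt_or_ge c 2 with hc2 | hc2
      · have hc1 : c = 1 := by omega
        subst hc1
        left
        have hdec' : α = ω ^ ξ + δ := by simpa using hdec
        have := top_single ho hξ hδ (hdec' ▸ hL) (hdec' ▸ hG)
        rw [hdec', this, add_zero]
      · right
        constructor
        · rw [hdec]
          refine le_trans ?_ le_self_add
          exact mul_le_mul_right (by exact_mod_cast hc2) _
        · have h3 : γ + 2 = ξ + 1 := by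
            rw [hγ, add_assoc, one_add_one_eq_two]
          rw [h3, ← Order.succ_eq_add_one]
          exact Ordinal.lt_opow_succ_log_self Ordinal.one_lt_omega0 α

end Pool.Agent.H85
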