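import Pool.Agent.H85.Digits

/-!
# Infinite concatenations of words and the values of their suffixes
-/

open Ordinal Set Order

namespace Pool.Agent.H85

theorem exists_flat (Wd : ℕ → List (Fin 2)) (h : ∀ i, Wd i ≠ []) :
    ∃ (b : ℕ → Fin 2) (pos : ℕ → ℕ), pos 0 = 0 ∧ (∀ i, pos (i + 1) = pos i + (Wd i).length) ∧
      ∀ i t (ht : t < (Wd i).length), b (pos i + t) = (Wd i)[t] := by
  set acc : ℕ → List (Fin 2) := fun n => (List.range n).flatMap Wd with hacc
  have hsucc : ∀ n, acc (n + 1) = acc n ++ Wd n := by
    intro n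
    simp [hacc, List.range_succ, List.flatMap_append]
  have hlen : ∀ n, (acc (n + 1)).length = (acc n).length + (Wd n).length := by
    intro n
    rw [hsucc, List.length_append]
  have hpref : ∀ m n, m ≤ n → ∃ v, acc n = acc m ++ v := by
    intro m n hmn
    induction n, hmn using Nat.le_induction with
    | base => exact ⟨[], by simp⟩
    | succ n _ ih =>
      obtain ⟨v, hv⟩ := ih
      exact ⟨v ++ Wd n, by rw [hsucc, hv, List.append_assoc]⟩
  have hge : ∀ n, n ≤ (acc n).length := by
    intro n
    induction n with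
    | zero => exact Nat.zero_le _
    | succ n ih =>
      have := List.length_pos_iff.2 (h n)
      rw [hlen]
      omega
  refine ⟨fun n => (acc (n + 1)).getD n 0, fun n => (acc n).length, ?_, hlen, ?_⟩
  · simp [hacc]
  · intro i t ht
    obtain ⟨v, hv⟩ := hpref (i + 1) ((acc i).length + t + 1) (by have := hge i; omega)
    simp only
    rw [hv, hsucc, List.append_assoc, List.getD_append_right _ _ _ _ (by omega),
      Nat.add_sub_cancel_left, List.getD_append _ _ _ _ ht, List.getD_eq_getElem _ _ ht]

/-- the value of the sequence `u` followed by a sequence of value `y` -/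
noncomputable def lval : List (Fin 2) → ℝ → ℝ
  | [], y => y
  | d :: u, y => (((d : ℕ) : ℝ) + lval u y) / 2

@[simp] theorem lval_nil (y : ℝ) : lval [] y = y := rfl

@[simp] theorem lval_cons (d : Fin 2) (u : List (Fin 2)) (y : ℝ) :
    lval (d :: u) y = (((d : ℕ) : ℝ) + lval u y) / 2 := rfl

theorem lval_append (u v : List (Fin 2)) (y : ℝ) : lval (u ++ v) y = lval u (lval v y) := by
  induction u with
  | nil => rfl
  | cons d u ih => simp [ih]

theorem shiftVal_drop {Wd : ℕ → List (Fin 2)} {b : ℕ → Fin 2} {pos : ℕ → ℕ}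
    (hpos : ∀ i, pos (i + 1) = pos i + (Wd i).length)
    (hb : ∀ i t (ht : t < (Wd i).length), b (pos i + t) = (Wd i)[t]) (i : ℕ) :
    ∀ k t, t + k = (Wd i).length →
      shiftVal b (pos i + t) = lval ((Wd i).drop t) (shiftVal b (pos (i + 1))) := by
  intro k
  induction k with
  | zero =>
    intro t ht
    rw [List.drop_of_length_le (by omega), hpos, lval_nil, ← ht, add_zero]
  | succ k ih =>
    intro t ht
    have ht' : t < (Wd i).length := by omega
    rw [List.drop_eq_getElem_cons ht', lval_cons, ← hb i t ht', ← ih (t + 1) (by omega),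
      shiftVal_succ, add_assoc]

theorem mem_orbitSet_flat {Wd : ℕ → List (Fin 2)} {b : ℕ → Fin 2} {pos : ℕ → ℕ}
    (h : ∀ i, Wd i ≠ []) (h0 : pos 0 = 0)
    (hpos : ∀ i, pos (i + 1) = pos i + (Wd i).length)
    (hb : ∀ i t (ht : t < (Wd i).length), b (pos i + t) = (Wd i)[t]) (x : ℝ) :
    x ∈ orbitSet b ↔
      ∃ i u v, Wd i = u ++ v ∧ v ≠ [] ∧ x = lval v (shiftVal b (pos (i + 1))) := by
  constructor
  · rintro ⟨n, rfl⟩
    -- locate `n`
    have hstrict : ∀ i, pos i < pos (i + 1) := by
      intro i
      have := List.length_pos_iff.2 (h i)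
      rw [hpos]
      omega
    have hge : ∀ i, i ≤ pos i := by
      intro i
      induction i with
      | zero => exact Nat.zero_le _
      | succ i ih => have := hstrict i; omega
    have hex : ∃ i, n < pos (i + 1) := ⟨n, by have := hge (n + 1); omega⟩
    classical
    obtain ⟨i, hi, hmin⟩ : ∃ i, n < pos (i + 1) ∧ pos i ≤ n := by
      refine ⟨Nat.find hex, Nat.find_spec hex, ?_⟩
      rcases Nat.eq_zero_or_pos (Nat.find hex) with h1 | h1
      · rw [h1, h0]; exact Nat.zero_le _
      · have h2 := Nat.find_min hex (m := Nat.find hex - 1) (by omega)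
        have h3 : Nat.find hex - 1 + 1 = Nat.find hex := by omega
        rw [h3] at h2
        omega
    refine ⟨i, (Wd i).take (n - pos i), (Wd i).drop (n - pos i), ?_, ?_, ?_⟩
    · rw [List.take_append_drop]
    · rw [hpos] at hi
      intro hcon
      have := congrArg List.length hcon
      rw [List.length_drop, List.length_nil] at this
      omega
    · rw [hpos] at hi
      rw [← shiftVal_drop hpos hb i ((Wd i).length - (n - pos i)) (n - pos i) (by omega)]
      congr 1
      omega
  · rintro ⟨i, u, v, huv, hv, rfl⟩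
    refine ⟨pos i + u.length, ?_⟩
    rw [shiftVal_drop hpos hb i v.length u.length (by rw [huv, List.length_append])]
    rw [huv, List.drop_left]

/-- nonempty suffixes of a concatenation of words -/
theorem flatMap_suffix {β : Type} (f : β → List (Fin 2)) (l : List β) (u v : List (Fin 2))
    (h : l.flatMap f = u ++ v) (hv : v ≠ []) :
    ∃ pre p rest u' v', l = pre ++ p :: rest ∧ f p = u' ++ v' ∧ v' ≠ [] ∧
      v = v' ++ rest.flatMap f := by
  induction l generalizing u with
  | nil =>
    simp only [List.flatMap_nil, List.nil_eq, List.append_eq_nil_iff] at h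
    exact absurd h.2 hv
  | cons a l ih =>
    rw [List.flatMap_cons] at h
    rcases List.append_eq_append_iff.1 h with ⟨w, hw1, hw2⟩ | ⟨w, hw1, hw2⟩
    · obtain ⟨pre, p, rest, u', v', h1, h2, h3, h4⟩ := ih w hw2
      exact ⟨a :: pre, p, rest, u', v', by rw [h1, List.cons_append], h2, h3, h4⟩
    · rcases List.eq_nil_or_concat' w with rfl | hne
      · obtain ⟨pre, p, rest, u', v', h1, h2, h3, h4⟩ := ih [] (by simpa using hw2.symm)
        exact ⟨a :: pre, p, rest, u', v', by rw [h1, List.cons_append], h2, h3, h4⟩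
      · refine ⟨[], a, l, u, w, rfl, hw1, ?_, hw2⟩
        rintro rfl
        obtain ⟨_, _, h5⟩ := hne
        simp at h5

end Pool.Agent.H85
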