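import Pool.Agent.H85.Blocks

/-!
# The forest of labelled nodes

Nodes are nonempty lists of naturals; the parent of `n :: l` is `l`, and the roots are `[w]`,
`w ≤ k`.  Nodes carry ordinal labels; the labels of the children of a node with label `ξ ≠ 0`
enumerate the ordinals below `ξ`, each infinitely often; nodes with label `0` are leaves.
-/

open Ordinal Set Order

namespace Pool.Agent.H85

theorem countable_Iio_of_lt {ξ : Ordinal.{0}} (h : ξ < ω₁) : (Iio ξ).Countable := by
  rw [← Cardinal.ord_aleph, Cardinal.lt_ord] at h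
  have h1 : ξ.card ≤ Cardinal.aleph0 := by
    rw [← Cardinal.aleph_zero]
    rw [← Order.lt_succ_iff, Cardinal.succ_aleph]
    simpa using h
  have h2 : Cardinal.mk (Iio ξ) ≤ Cardinal.aleph0 := by
    rw [Cardinal.mk_Iio_ordinal]
    exact Cardinal.lift_le_aleph0.2 h1
  exact Cardinal.mk_le_aleph0_iff.1 h2

/-- an enumeration of the ordinals below each countable nonzero ordinal, each infinitely often -/
def GoodChild (child : Ordinal.{0} → ℕ → Ordinal.{0}) : Prop :=
  ∀ ξ, ξ ≠ 0 → ξ < ω₁ → (∀ n, child ξ n < ξ) ∧ ∀ β < ξ, ∀ N : ℕ, ∃ n ≥ N, child ξ n = β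

theorem exists_child : ∃ child, GoodChild child := by
  have h : ∀ ξ : Ordinal.{0}, ∃ f : ℕ → Ordinal.{0}, ξ ≠ 0 → ξ < ω₁ →
      (∀ n, f n < ξ) ∧ ∀ β < ξ, ∀ N : ℕ, ∃ n ≥ N, f n = β := by
    intro ξ
    by_cases hξ : ξ ≠ 0 ∧ ξ < ω₁
    · have hne : Nonempty (Iio ξ) := ⟨⟨0, pos_iff_ne_zero.2 hξ.1⟩⟩
      have hc : Countable (Iio ξ) := (countable_Iio_of_lt hξ.2).to_subtype
      obtain ⟨e, he⟩ := exists_surjective_nat (Iio ξ)
      refine ⟨fun n => e (Nat.unpair n).1, fun _ _ => ⟨fun n => (e _).2, fun β hβ N => ?_⟩⟩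
      obtain ⟨m, hm⟩ := he ⟨β, hβ⟩
      refine ⟨Nat.pair m N, Nat.right_le_pair _ _, ?_⟩
      simp [hm]
    · exact ⟨fun _ => 0, fun h1 h2 => absurd ⟨h1, h2⟩ hξ⟩
  choose child hchild using h
  exact ⟨child, fun ξ h1 h2 => hchild ξ h1 h2⟩

section forest

variable (child : Ordinal.{0} → ℕ → Ordinal.{0}) (ξ : ℕ → Ordinal.{0}) (k M d : ℕ)

/-- labels -/
noncomputable def label : List ℕ → Ordinal.{0}
  | [] => 0
  | [w] => ξ w
  | n :: m :: l => child (label (m :: l)) n

/-- validity of nodes -/
def Valid : List ℕ → Prop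
  | [] => False
  | [w] => w ≤ k
  | _ :: m :: l => Valid (m :: l) ∧ label child ξ (m :: l) ≠ 0

/-- leaves -/
def Leaf (l : List ℕ) : Prop := Valid child ξ k l ∧ label child ξ l = 0

/-- the mark attached to the children of a node: the root index for a root, `0` otherwise -/
def mark : List ℕ → ℕ
  | [w] => w
  | _ => 0

/-- the letter of a node -/
def ltr (l : List ℕ) : ℕ := 2 * Encodable.encode l + 2

/-- the list of blocks along the path from the root to a node -/
def pB : List ℕ → List (ℕ × ℕ)
  | [] => []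
  | [_] => []
  | n :: m :: l => pB (m :: l) ++ [(mark (m :: l), ltr (n :: m :: l))]

/-- the list of blocks along the path from the node `l` to the node `u ++ l` -/
def rem : List ℕ → List ℕ → List (ℕ × ℕ)
  | [], _ => []
  | n :: u, l => rem u l ++ [(mark (u ++ l), ltr (n :: (u ++ l)))]

theorem label_cons {l : List ℕ} (hl : l ≠ []) (n : ℕ) :
    label child ξ (n :: l) = child (label child ξ l) n := by
  obtain ⟨m, l', rfl⟩ := List.exists_cons_of_ne_nil hl
  rfl

theorem valid_cons {l : List ℕ} (hl : l ≠ []) (n : ℕ) :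
    Valid child ξ k (n :: l) ↔ Valid child ξ k l ∧ label child ξ l ≠ 0 := by
  obtain ⟨m, l', rfl⟩ := List.exists_cons_of_ne_nil hl
  rfl

theorem pB_cons {l : List ℕ} (hl : l ≠ []) (n : ℕ) :
    pB (n :: l) = pB l ++ [(mark l, ltr (n :: l))] := by
  obtain ⟨m, l', rfl⟩ := List.exists_cons_of_ne_nil hl
  rfl

theorem valid_append {l : List ℕ} (hl : l ≠ []) :
    ∀ u : List ℕ, u ≠ [] → Valid child ξ k (u ++ l) → Valid child ξ k l ∧ label child ξ l ≠ 0
  | [], h, _ => absurd rfl h
  | [n], _, h => (valid_cons child ξ k hl n).1 h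
  | n :: m :: u, _, h => by
    have h1 := (valid_cons child ξ k (l := m :: u ++ l) (by simp) n).1 h
    exact valid_append hl (m :: u) (by simp) h1.1

theorem pB_append {l : List ℕ} (hl : l ≠ []) (u : List ℕ) : pB (u ++ l) = pB l ++ rem u l := by
  induction u with
  | nil => simp [rem]
  | cons n u ih =>
    rw [List.cons_append, pB_cons (by simp [hl]), ih, rem, List.append_assoc]

theorem rem_concat (u l : List ℕ) (n : ℕ) :
    rem (u ++ [n]) l = (mark l, ltr (n :: l)) :: rem u (n :: l) := by
  induction u with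
  | nil => simp [rem]
  | cons m u ih =>
    rw [List.cons_append, rem, ih, rem, List.append_assoc]
    simp

theorem ltr_strictMono (l : List ℕ) : StrictMono (fun n => ltr (n :: l)) := by
  intro n n' h
  simp only [ltr, Encodable.encode_list_cons, Encodable.encode_nat]
  have := Nat.pair_lt_pair_left (Encodable.encode l) h
  omega

theorem ltr_injective : Function.Injective ltr := by
  intro l l' h
  unfold ltr at h
  exact Encodable.encode_injective (by omega)

/-- the separator block of a stage -/
def sep (i : ℕ) : ℕ × ℕ := (if i = 0 then M else 0, 2 * i + 1)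

open Classical in
/-- the blocks of stage `i` -/
noncomputable def stage (i : ℕ) : List (ℕ × ℕ) :=
  (if h : ∃ l, Encodable.encode l = i ∧ Leaf child ξ k l then pB h.choose else []) ++ [sep M i]

theorem stage_leaf {l : List ℕ} (h : Leaf child ξ k l) :
    stage child ξ k M (Encodable.encode l) = pB l ++ [sep M (Encodable.encode l)] := by
  have hex : ∃ l', Encodable.encode l' = Encodable.encode l ∧ Leaf child ξ k l' := ⟨l, rfl, h⟩
  rw [stage, dif_pos hex]
  have := Encodable.encode_injective hex.choose_spec.1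
  rw [this]

theorem stage_cases (i : ℕ) : (∃ l, Encodable.encode l = i ∧ Leaf child ξ k l ∧
    stage child ξ k M i = pB l ++ [sep M i]) ∨ stage child ξ k M i = [sep M i] := by
  by_cases h : ∃ l, Encodable.encode l = i ∧ Leaf child ξ k l
  · left
    obtain ⟨l, rfl, hl⟩ := h
    exact ⟨l, rfl, hl, stage_leaf child ξ k M hl⟩
  · right
    rw [stage, dif_neg h, List.nil_append]

theorem stage_ne_nil (i : ℕ) : stage child ξ k M i ≠ [] := by
  simp [stage]

/-- decomposition of the path blocks -/
theorem pB_decomp (l : List ℕ) (pre rest : List (ℕ × ℕ)) (p : ℕ × ℕ)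
    (h : pB l = pre ++ p :: rest) :
    ∃ u n l', l' ≠ [] ∧ l = u ++ n :: l' ∧ p = (mark l', ltr (n :: l')) ∧
      rest = rem u (n :: l') := by
  induction l generalizing rest with
  | nil => simp [pB] at h
  | cons n l ih =>
    by_cases hl : l = []
    · subst hl
      simp [pB] at h
    · rw [pB_cons hl] at h
      rcases List.eq_nil_or_concat' rest with rfl | ⟨rest', q, rfl⟩
      · have h1 := List.append_inj' h rfl
        refine ⟨[], n, l, hl, rfl, ?_, rfl⟩
        simpa using h1.2.symm
      · have h2 : pB l ++ [(mark l, ltr (n :: l))] = (pre ++ p :: rest') ++ [q] := by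
          rw [h]; simp
        have h1 := List.append_inj' h2 rfl
        obtain ⟨u, n', l', hl', hll, hp, hrest⟩ := ih rest' h1.1
        refine ⟨n :: u, n', l', hl', by rw [hll]; rfl, hp, ?_⟩
        rw [rem, ← hrest]
        congr 1
        rw [← hll]
        exact h1.2.symm

variable (S : ℕ → ℝ)

/-- values of the suffixes that start right after the letter of the node `l` -/
def CC (l : List ℕ) : Set ℝ :=
  {x | ∃ u, Leaf child ξ k (u ++ l) ∧ x = blks d (rem u l)
    (blk d (sep M (Encodable.encode (u ++ l))) (S (Encodable.encode (u ++ l) + 1)))}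

/-- the admissible value sequences -/
structure GoodS : Prop where
  mem : ∀ i, S i ∈ Icc (0 : ℝ) 1
  step : ∀ i, S i = blks d (stage child ξ k M i) (S (i + 1))

variable {child ξ k M d S}

/-- all letters are at least one -/
theorem rem_pos (u l : List ℕ) : ∀ p ∈ rem u l, 1 ≤ p.2 := by
  induction u with
  | nil => simp [rem]
  | cons n u ih =>
    intro p hp
    rw [rem, List.mem_append, List.mem_singleton] at hp
    rcases hp with hp | rfl
    · exact ih p hp
    · simp [ltr]

theorem pB_pos (l : List ℕ) : ∀ p ∈ pB l, 1 ≤ p.2 := by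
  induction l with
  | nil => simp [pB]
  | cons n l ih =>
    by_cases hl : l = []
    · subst hl; simp [pB]
    · intro p hp
      rw [pB_cons hl, List.mem_append, List.mem_singleton] at hp
      rcases hp with hp | rfl
      · exact ih p hp
      · simp [ltr]

theorem stage_pos (i : ℕ) : ∀ p ∈ stage child ξ k M i, 1 ≤ p.2 := by
  intro p hp
  rcases stage_cases child ξ k M i with ⟨l, -, -, h⟩ | h
  · rw [h, List.mem_append, List.mem_singleton] at hp
    rcases hp with hp | rfl
    · exact pB_pos l p hp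
    · simp [sep]
  · rw [h, List.mem_singleton] at hp
    subst hp
    simp [sep]

theorem blks_mem {l : List (ℕ × ℕ)} (hl : ∀ p ∈ l, 1 ≤ p.2) {y : ℝ}
    (hy : y ∈ Ico (1 / 2 : ℝ) 1) : blks d l y ∈ Ico (1 / 2 : ℝ) 1 := by
  induction l with
  | nil => exact hy
  | cons p l ih =>
    have h1 := ih (fun q hq => hl q (List.mem_cons_of_mem _ hq))
    exact blk_mem d (hl p (List.mem_cons_self)) ⟨by linarith [h1.1], h1.2.le⟩

theorem blks_mem' {l : List (ℕ × ℕ)} (hl : ∀ p ∈ l, 1 ≤ p.2) (hne : l ≠ []) {y : ℝ}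
    (hy : y ∈ Icc (0 : ℝ) 1) : blks d l y ∈ Ico (1 / 2 : ℝ) 1 := by
  induction l with
  | nil => exact absurd rfl hne
  | cons p l ih =>
    by_cases h : l = []
    · subst h
      exact blk_mem d (hl p (List.mem_cons_self)) hy
    · have h1 := ih (fun q hq => hl q (List.mem_cons_of_mem _ hq)) h
      exact blk_mem d (hl p (List.mem_cons_self)) ⟨by linarith [h1.1], h1.2.le⟩

theorem GoodS.mem' (h : GoodS child ξ k M d S) (i : ℕ) : S i ∈ Ico (1 / 2 : ℝ) 1 := by
  rw [h.step]
  exact blks_mem' (stage_pos i) (stage_ne_nil child ξ k M i) (h.mem _)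

theorem CC_sub (h : GoodS child ξ k M d S) (l : List ℕ) : CC child ξ k M d S l ⊆ Ico (1 / 2) 1 := by
  rintro _ ⟨u, -, rfl⟩
  refine blks_mem (rem_pos u l) ?_
  exact blk_mem d (by simp [sep]) (h.mem _)

theorem label_lt (hc : GoodChild child) (hξ : ∀ w ≤ k, ξ w < ω₁) :
    ∀ l : List ℕ, Valid child ξ k l → label child ξ l < ω₁
  | [], h => absurd h id
  | [w], h => hξ w h
  | n :: m :: l, h => by
    have h1 := label_lt hc hξ (m :: l) h.1
    exact ((hc _ h.2 h1).1 n).trans h1

/-- **the type of the set of values after a node is `ω ^ label`** -/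
theorem CC_type (hc : GoodChild child) (hξ : ∀ w ≤ k, ξ w < ω₁) (hS : GoodS child ξ k M d S)
    (β : Ordinal.{0}) : ∀ l, Valid child ξ k l → label child ξ l = β →
      LeT (CC child ξ k M d S l) (ω ^ β) ∧ GeT (ω ^ β) (CC child ξ k M d S l) := by
  induction β using WellFoundedLT.induction with
  | _ β ih =>
    intro l hl hβ
    have hlne : l ≠ [] := by rintro rfl; exact hl
    by_cases h0 : β = 0
    · -- a leaf
      have hleaf : Leaf child ξ k l := ⟨hl, by rw [hβ, h0]⟩
      have huniq : ∀ u, Leaf child ξ k (u ++ l) → u = [] := by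
        intro u hu
        by_contra hne
        exact (valid_append child ξ k hlne u hne hu.1).2 (by rw [hβ, h0])
      rw [h0, Ordinal.opow_zero]
      constructor
      · refine LeT_subsingleton ?_
        rintro _ ⟨u, hu, rfl⟩ _ ⟨v, hv, rfl⟩
        rw [huniq u hu, huniq v hv]
      · exact GeT_one ⟨_, [], hleaf, rfl⟩
    · have hlab : label child ξ l ≠ 0 := by rwa [hβ]
      have hlt := label_lt hc hξ l hl
      obtain ⟨hc1, hc2⟩ := hc _ hlab hlt
      have hvalid : ∀ n, Valid child ξ k (n :: l) := fun n =>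
        (valid_cons child ξ k hlne n).2 ⟨hl, hlab⟩
      have hlabn : ∀ n, label child ξ (n :: l) = child β n := by
        intro n
        rw [label_cons child ξ hlne, hβ]
      have hchain : Chain (fun n x => blk d (mark l, ltr (n :: l)) x) := by
        have h1 := chain_blk d (mark l)
        exact ⟨fun n => h1.mono _, fun n n' hn => h1.sep _ _ (ltr_strictMono l hn)⟩
      have hsub : ∀ n, CC child ξ k M d S (n :: l) ⊆ Ico 0 1 := fun n =>
        (CC_sub hS _).trans (fun x hx => half_sub hx)
      have hU : ∀ z ∈ CC child ξ k M d S l, ∃ n, ∃ y ∈ CC child ξ k M d S (n :: l),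
          z = blk d (mark l, ltr (n :: l)) y := by
        rintro z ⟨u, hu, rfl⟩
        rcases List.eq_nil_or_concat' u with rfl | ⟨u', n, rfl⟩
        · exact absurd hu.2 hlab
        · have happ : u' ++ [n] ++ l = u' ++ (n :: l) := by simp
          rw [happ] at hu ⊢
          exact ⟨n, _, ⟨u', hu, rfl⟩, by rw [rem_concat]; rfl⟩
      have hback : ∀ n, (fun x => blk d (mark l, ltr (n :: l)) x) '' CC child ξ k M d S (n :: l) ⊆
          CC child ξ k M d S l := by
        rintro n _ ⟨_, ⟨u, hu, rfl⟩, rfl⟩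
        have happ : u ++ (n :: l) = u ++ [n] ++ l := by simp
        rw [happ] at hu ⊢
        exact ⟨u ++ [n], hu, by rw [rem_concat]; rfl⟩
      have hle : LeT (CC child ξ k M d S l) (ω ^ β) := by
        refine hchain.le_opow hsub hU β (fun n => ⟨ω ^ (child β n), ?_, ?_⟩)
        · rw [hβ] at hc1
          exact (Ordinal.opow_lt_opow_iff_right Ordinal.one_lt_omega0).2 (hc1 n)
        · rw [hβ] at hc1
          exact (ih _ (hc1 n) (n :: l) (hvalid n) (hlabn n)).1
      refine ⟨hle, hchain.ge_opow hsub hU hle h0 (fun β' hβ' N => ?_)⟩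
      rw [hβ] at hc2
      obtain ⟨n, hn, hcn⟩ := hc2 β' hβ' N
      exact ⟨n, hn, hback n, (ih β' hβ' (n :: l) (hvalid n) (by rw [hlabn, hcn])).2⟩

end forest

end Pool.Agent.H85
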