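import Pool.Agent.H85.MemDefs

/-!
# The automata and the winning condition
-/

namespace Pool.Agent.H85.Mem

/-- states: dead, a level with a bit, or the top state -/
inductive St : Type
  | dead : St
  | lev : ℕ → Bool → St
  | top : St
deriving DecidableEq

/-- the aperiodic set of levels at which the bit is flipped -/
def Flip (j : ℕ) : Prop := Even ⌊2 * Real.sqrt 2 * (j : ℝ)⌋

open Classical in
/-- The flip of the bit at level `j`. -/
noncomputable def flipBit (j : ℕ) (b : Bool) : Bool := if Flip j then !b else b

/-- The transition function of the `n`-th automaton. Colours: `0` level up, `1` level down,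
`2` flip the bit at the levels in `Flip`, `3` guess that the bit is `false`, `4` guess that the
bit is `true` (a wrong guess costs one level and corrects the bit). -/
noncomputable def step (n : ℕ) (s : St) (c : Fin 5) : St :=
  match s with
  | St.dead => St.dead
  | St.top =>
    match c with
    | 0 => St.top
    | 1 => St.lev n false
    | 2 => St.top
    | 3 => St.lev n false
    | 4 => St.lev n true
  | St.lev j b =>
    match c with
    | 0 => if j < n then St.lev (j + 1) b else St.top
    | 1 => if j = 0 then St.dead else St.lev (j - 1) b
    | 2 => St.lev j (flipBit j b)
    | 3 => if b = false then St.lev j false else if j = 0 then St.dead else St.lev (j - 1) false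
    | 4 => if b = true then St.lev j true else if j = 0 then St.dead else St.lev (j - 1) true

/-- the order on the states of the `n`-th automaton -/
def Le (n : ℕ) : St → St → Prop
  | St.dead, _ => True
  | St.top, St.top => True
  | St.top, _ => False
  | St.lev j _, St.top => j ≤ n
  | St.lev _ _, St.dead => False
  | St.lev j b, St.lev j' b' => j < j' ∨ (j = j' ∧ b = b')

theorem Le.refl (n : ℕ) (s : St) : Le n s s := by
  cases s with
  | dead => exact trivial
  | top => exact trivial
  | lev j b => exact Or.inr ⟨rfl, rfl⟩

theorem Le.trans {n : ℕ} {s s' s'' : St} (h : Le n s s') (h' : Le n s' s'') : Le n s s'' := by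
  cases s with
  | dead => exact trivial
  | top =>
    cases s' with
    | top => exact h'
    | dead => exact h.elim
    | lev j b => exact h.elim
  | lev j b =>
    cases s' with
    | dead => exact h.elim
    | top =>
      cases s'' with
      | dead => exact h'.elim
      | lev j' b' => exact h'.elim
      | top => exact h
    | lev j' b' =>
      cases s'' with
      | dead => exact h'.elim
      | top =>
        rcases h with h | ⟨rfl, rfl⟩
        · exact (le_of_lt h).trans h'
        · exact h'
      | lev j'' b'' =>
        rcases h with h | ⟨rfl, rfl⟩
        · rcases h' with h' | ⟨rfl, rfl⟩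
          · exact Or.inl (h.trans h')
          · exact Or.inl h
        · exact h'

theorem Le.alive {n : ℕ} {s s' : St} (h : Le n s s') (hs : s ≠ St.dead) : s' ≠ St.dead := by
  rintro rfl
  cases s with
  | dead => exact hs rfl
  | top => exact h
  | lev j b => exact h

/-- all transitions are monotone -/
theorem step_mono (n : ℕ) {s s' : St} (h : Le n s s') (c : Fin 5) :
    Le n (step n s c) (step n s' c) := by
  cases s with
  | dead => exact trivial
  | top =>
    cases s' with
    | top => exact Le.refl _ _
    | dead => exact h.elim
    | lev j b => exact h.elim
  | lev j b =>
    cases s' with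
    | dead => exact h.elim
    | top =>
      have hj : j ≤ n := h
      fin_cases c
      · change Le n (if j < n then St.lev (j + 1) b else St.top) St.top
        split_ifs with h1
        · exact h1
        · exact trivial
      · change Le n (if j = 0 then St.dead else St.lev (j - 1) b) (St.lev n false)
        split_ifs with h1
        · exact trivial
        · exact Or.inl (by omega)
      · exact hj
      · change Le n (if b = false then St.lev j false else if j = 0 then St.dead
          else St.lev (j - 1) false) (St.lev n false)
        split_ifs with h1 h2
        · rcases hj.lt_or_eq with h3 | h3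
          · exact Or.inl h3
          · exact Or.inr ⟨h3, rfl⟩
        · exact trivial
        · exact Or.inl (by omega)
      · change Le n (if b = true then St.lev j true else if j = 0 then St.dead
          else St.lev (j - 1) true) (St.lev n true)
        split_ifs with h1 h2
        · rcases hj.lt_or_eq with h3 | h3
          · exact Or.inl h3
          · exact Or.inr ⟨h3, rfl⟩
        · exact trivial
        · exact Or.inl (by omega)
    | lev j' b' =>
      rcases h with h | ⟨rfl, rfl⟩
      · fin_cases c
        · change Le n (if j < n then St.lev (j + 1) b else St.top)
            (if j' < n then St.lev (j' + 1) b' else St.top)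
          split_ifs with h1 h2 h3
          · exact Or.inl (by omega)
          · exact h1
          · omega
          · exact trivial
        · change Le n (if j = 0 then St.dead else St.lev (j - 1) b)
            (if j' = 0 then St.dead else St.lev (j' - 1) b')
          split_ifs with h1 h2 h3
          · exact trivial
          · exact trivial
          · omega
          · exact Or.inl (by omega)
        · exact Or.inl h
        · change Le n (if b = false then St.lev j false else if j = 0 then St.dead
            else St.lev (j - 1) false) (if b' = false then St.lev j' false
            else if j' = 0 then St.dead else St.lev (j' - 1) false)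
          have h0 : j' ≠ 0 := by omega
          simp only [h0, if_false]
          split_ifs with h1 h2 h3 h4 h5
          · exact Or.inl (by omega)
          · rcases Nat.lt_or_ge j (j' - 1) with h6 | h6
            · exact Or.inl h6
            · exact Or.inr ⟨by omega, rfl⟩
          · exact trivial
          · exact trivial
          · exact Or.inl (by omega)
          · exact Or.inl (by omega)
        · change Le n (if b = true then St.lev j true else if j = 0 then St.dead
            else St.lev (j - 1) true) (if b' = true then St.lev j' true
            else if j' = 0 then St.dead else St.lev (j' - 1) true)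
          have h0 : j' ≠ 0 := by omega
          simp only [h0, if_false]
          split_ifs with h1 h2 h3 h4 h5
          · exact Or.inl (by omega)
          · rcases Nat.lt_or_ge j (j' - 1) with h6 | h6
            · exact Or.inl h6
            · exact Or.inr ⟨by omega, rfl⟩
          · exact trivial
          · exact trivial
          · exact Or.inl (by omega)
          · exact Or.inl (by omega)
      · exact Le.refl _ _

theorem step_dead (n : ℕ) (c : Fin 5) : step n St.dead c = St.dead := rfl

/-- the run of the `n`-th automaton on a finite word -/
noncomputable def run (n : ℕ) (s : St) (w : List (Fin 5)) : St := w.foldl (step n) s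

@[simp] theorem run_nil (n : ℕ) (s : St) : run n s [] = s := rfl

@[simp] theorem run_cons (n : ℕ) (s : St) (c : Fin 5) (w : List (Fin 5)) :
    run n s (c :: w) = run n (step n s c) w := rfl

theorem run_append (n : ℕ) (s : St) (w w' : List (Fin 5)) :
    run n s (w ++ w') = run n (run n s w) w' := by
  simp [run, List.foldl_append]

theorem run_dead (n : ℕ) (w : List (Fin 5)) : run n St.dead w = St.dead := by
  induction w with
  | nil => rfl
  | cons c w ih => rw [run_cons, step_dead, ih]

theorem run_mono (n : ℕ) {s s' : St} (h : Le n s s') (w : List (Fin 5)) :
    Le n (run n s w) (run n s' w) := by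
  induction w generalizing s s' with
  | nil => exact h
  | cons c w ih => exact ih (step_mono n h c)

theorem step_top_le (n : ℕ) (c : Fin 5) : Le n (step n St.top c) St.top := by
  fin_cases c
  · exact trivial
  · exact le_refl n
  · exact trivial
  · exact le_refl n
  · exact le_refl n

theorem run_le_top (n : ℕ) {s : St} (h : Le n s St.top) (w : List (Fin 5)) :
    Le n (run n s w) St.top := by
  induction w generalizing s with
  | nil => exact h
  | cons c w ih => exact ih ((step_mono n h c).trans (step_top_le n c))

theorem Le.eq_dead {n : ℕ} {s : St} (h : Le n s St.dead) : s = St.dead := by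
  cases s with
  | dead => rfl
  | top => exact h.elim
  | lev j b => exact h.elim

/-- the word `x t, x (t+1), …, x (t+m-1)` -/
def seg {α : Type} (x : ℕ → α) (t m : ℕ) : List α := (List.range m).map (fun i => x (t + i))

theorem seg_zero {α : Type} (x : ℕ → α) (t : ℕ) : seg x t 0 = [] := rfl

theorem seg_succ {α : Type} (x : ℕ → α) (t m : ℕ) :
    seg x t (m + 1) = seg x t m ++ [x (t + m)] := by
  simp [seg, List.range_succ]

theorem seg_add {α : Type} (x : ℕ → α) (t m m' : ℕ) :
    seg x t (m + m') = seg x t m ++ seg x (t + m) m' := by
  induction m' with
  | zero => simp [seg_zero]
  | succ m' ih =>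
    rw [← add_assoc, seg_succ, ih, seg_succ, List.append_assoc, add_assoc t m m']

/-- **The winning condition**: for some `n`, some suffix of the word is survived by the `n`-th
automaton started in its top state. -/
def WW : Set (ℕ → Fin 5) :=
  {x | ∃ n t, ∀ m, run n St.top (seg x t m) ≠ St.dead}

theorem seg_appendWord (x : List (Fin 5)) (y : ℕ → Fin 5) (t m : ℕ) :
    seg (appendWord x y) (x.length + t) m = seg y t m := by
  unfold seg appendWord
  refine List.map_congr_left (fun i _ => ?_)
  have h1 : ¬ (x.length + t + i < x.length) := by omega
  simp only [h1, dif_neg, not_false_eq_true]
  congr 1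
  omega

theorem WW_prefixIndependent : PrefixIndependent WW := by
  intro x y
  constructor
  · rintro ⟨n, t, h⟩
    -- continue the run at the first position `≥ x.length`
    refine ⟨n, t, fun m => ?_⟩
    have h1 := h (x.length + m)
    rw [seg_add, run_append] at h1
    have h2 : Le n (run n St.top (seg (appendWord x y) t x.length)) St.top :=
      run_le_top n (Le.refl n St.top) _
    have h3 := (run_mono n h2 (seg (appendWord x y) (t + x.length) m)).alive h1
    rwa [add_comm t, seg_appendWord] at h3
  · rintro ⟨n, t, h⟩
    refine ⟨n, x.length + t, fun m => ?_⟩
    rw [seg_appendWord]
    exact h m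

/-- the chain index of a state -/
def chain : St → Bool
  | St.dead => false
  | St.top => false
  | St.lev _ b => b

/-- the rank of a state inside its chain -/
def rk : St → WithTop ℕ
  | St.dead => 0
  | St.top => ⊤
  | St.lev j _ => (j : WithTop ℕ)

theorem Le_of_rk {n : ℕ} {s s' : St} (hs : s ≠ St.dead) (hs' : s' ≠ St.dead)
    (hv : Le n s St.top) (hc : chain s = chain s') (hr : rk s ≤ rk s') : Le n s s' := by
  cases s with
  | dead => exact absurd rfl hs
  | top =>
    cases s' with
    | dead => exact absurd rfl hs'
    | top => exact trivial
    | lev j b =>
      have h1 : (⊤ : WithTop ℕ) ≤ (j : WithTop ℕ) := hr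
      exact absurd h1 (not_le.2 (WithTop.coe_lt_top j))
  | lev j b =>
    cases s' with
    | dead => exact absurd rfl hs'
    | top => exact hv
    | lev j' b' =>
      have h1 : (j : WithTop ℕ) ≤ (j' : WithTop ℕ) := hr
      have h2 : j ≤ j' := WithTop.coe_le_coe.1 h1
      rcases h2.lt_or_eq with h3 | h3
      · exact Or.inl h3
      · exact Or.inr ⟨h3, hc⟩

end Pool.Agent.H85.Mem
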