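import Pool.Agent.H85.MemPath

/-!
# No finite number of states of chromatic memory suffices
-/

namespace Pool.Agent.H85.Mem

open Arena

/-! ### aperiodicity of the set `Flip` -/

theorem exists_flip (K : ℕ) (hK : 0 < K) : ∃ I₀ : ℕ, ∀ (j : ℕ) (b g : Bool),
    ∃ i, 1 ≤ i ∧ i ≤ I₀ ∧ flipBit (j + K * i) b ≠ g := by
  set r : ℤ := round (Real.sqrt 2 * K) with hr
  set ρ : ℝ := 2 * (Real.sqrt 2 * K - r) with hρ
  have hρ1 : |ρ| ≤ 1 := by
    rw [hρ, abs_mul]
    have := abs_sub_round (Real.sqrt 2 * (K : ℝ))
    rw [abs_of_pos (by norm_num : (0 : ℝ) < 2)]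
    linarith
  have hρ0 : ρ ≠ 0 := by
    intro h
    have h1 : Real.sqrt 2 * K = r := by linarith
    have h2 : Irrational (Real.sqrt 2 * (K : ℝ)) := irrational_sqrt_two.mul_natCast hK.ne'
    exact h2.ne_int r h1
  obtain ⟨N, hN⟩ := exists_nat_ge (1 / |ρ|)
  have hN' : 1 ≤ N * |ρ| := by
    have := abs_pos.2 hρ0
    rwa [div_le_iff₀ this] at hN
  refine ⟨N + 1, fun j b g => ?_⟩
  by_contra hcon
  push Not at hcon
  set z : ℕ → ℝ := fun i => 2 * Real.sqrt 2 * ((j + K * i : ℕ) : ℝ) - 2 * r * i with hz
  have hz' : ∀ i, z i = 2 * Real.sqrt 2 * j + ρ * i := by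
    intro i
    simp only [hz, hρ]
    push_cast
    ring
  have hfl : ∀ i, ⌊z i⌋ = ⌊2 * Real.sqrt 2 * ((j + K * i : ℕ) : ℝ)⌋ - 2 * r * i := by
    intro i
    have : z i = 2 * Real.sqrt 2 * ((j + K * i : ℕ) : ℝ) - ((2 * r * i : ℤ) : ℝ) := by
      simp [hz]
    rw [this, Int.floor_sub_intCast]
  have hpar : ∀ i, 1 ≤ i → i ≤ N + 1 → (Even ⌊z i⌋ ↔ b ≠ g) := by
    intro i h1 h2
    have h3 := hcon i h1 h2
    have h4 : Even ⌊z i⌋ ↔ Flip (j + K * i) := by
      rw [hfl, Int.even_sub]
      have : Even (2 * r * (i : ℤ)) := by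
        rw [mul_assoc]
        exact even_two_mul _
      unfold Flip
      tauto
    rw [h4]
    unfold flipBit at h3
    split_ifs at h3 with h5
    · rw [← h3]
      simp [h5]
    · simp [h5, h3]
  have hconst : ∀ i, i ≤ N → ⌊z (i + 1)⌋ = ⌊z 1⌋ := by
    intro i
    induction i with
    | zero => simp
    | succ i ih =>
      intro hi
      have h1 := ih (by omega)
      have h2 : z (i + 1 + 1) = z (i + 1) + ρ := by
        rw [hz', hz']
        push_cast
        ring
      have h3 : ⌊z (i + 1 + 1)⌋ ≤ ⌊z (i + 1)⌋ + 1 := by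
        rw [← Int.floor_add_one]
        apply Int.floor_le_floor
        linarith [le_abs_self ρ]
      have h4 : ⌊z (i + 1)⌋ ≤ ⌊z (i + 1 + 1)⌋ + 1 := by
        rw [← Int.floor_add_one]
        apply Int.floor_le_floor
        linarith [neg_abs_le ρ]
      have h5 := (hpar (i + 1) (by omega) (by omega)).trans
        (hpar (i + 1 + 1) (by omega) (by omega)).symm
      rw [Int.even_iff, Int.even_iff] at h5
      omega
  have h1 := hconst N le_rfl
  have h2 : |z (N + 1) - z 1| < 1 := Int.abs_sub_lt_one_of_floor_eq_floor h1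
  have h3 : z (N + 1) - z 1 = ρ * N := by
    rw [hz', hz']
    push_cast
    ring
  rw [h3, abs_mul, abs_of_nonneg (Nat.cast_nonneg N : (0 : ℝ) ≤ N)] at h2
  linarith

/-! ### iterates of self-maps of a finite set -/

theorem iterate_factorial {M : Type} [Fintype M] {k : ℕ} (hk : Fintype.card M = k) (f : M → M)
    (i : ℕ) (hi : 1 ≤ i) (s : M) : f^[k.factorial * i] s = f^[k.factorial] s := by
  obtain ⟨a, b, hab, heq⟩ : ∃ a b : Fin (k + 1), a ≠ b ∧ f^[a] s = f^[b] s :=
    Fintype.exists_ne_map_eq_of_card_lt (fun a : Fin (k + 1) => f^[a] s) (by simp [hk])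
  wlog hlt : a < b generalizing a b
  · exact this b a hab.symm heq.symm (lt_of_le_of_ne (not_lt.1 hlt) hab.symm)
  have hlt' : (a : ℕ) < b := hlt
  have hb := b.2
  obtain ⟨p, hp⟩ : ∃ p : ℕ, (b : ℕ) = a + p := ⟨b - a, by omega⟩
  have hak : (a : ℕ) ≤ k.factorial := by
    have := Nat.self_le_factorial k
    omega
  have hper : ∀ m, (a : ℕ) ≤ m → f^[m + p] s = f^[m] s := by
    intro m hm
    obtain ⟨d, rfl⟩ := Nat.exists_eq_add_of_le hm
    rw [show (a : ℕ) + d + p = d + (a + p) by ring, Function.iterate_add_apply, ← hp, ← heq,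
      ← Function.iterate_add_apply, add_comm d]
  have hper' : ∀ q m, (a : ℕ) ≤ m → f^[m + p * q] s = f^[m] s := by
    intro q
    induction q with
    | zero => simp
    | succ q ih =>
      intro m hm
      rw [mul_add, mul_one, ← add_assoc, hper _ (by omega), ih m hm]
  obtain ⟨c, hc⟩ : p ∣ k.factorial := Nat.dvd_factorial (by omega) (by omega)
  obtain ⟨i', rfl⟩ := Nat.exists_eq_add_of_le hi
  have : k.factorial * (1 + i') = k.factorial + p * (c * i') := by
    rw [mul_add, mul_one, ← mul_assoc, ← hc]
  rw [this]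
  exact hper' _ _ hak

/-! ### runs along the words of the arena -/

theorem run_up_top (n m : ℕ) : run n St.top (List.replicate m 0) = St.top := by
  induction m with
  | zero => rfl
  | succ m ih => rw [List.replicate_succ, run_cons]; exact ih

theorem run_up (n m j : ℕ) (b : Bool) (h : j + m ≤ n) :
    run n (St.lev j b) (List.replicate m 0) = St.lev (j + m) b := by
  induction m generalizing j with
  | zero => rfl
  | succ m ih =>
    rw [List.replicate_succ, run_cons]
    have : step n (St.lev j b) 0 = St.lev (j + 1) b := by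
      change (if j < n then St.lev (j + 1) b else St.top) = _
      rw [if_pos (by omega)]
    rw [this, ih (j + 1) (by omega)]
    congr 1
    omega

theorem run_up' (n m j : ℕ) (b : Bool) (hj : j ≤ n) (h : n < j + m) :
    run n (St.lev j b) (List.replicate m 0) = St.top := by
  induction m generalizing j with
  | zero => omega
  | succ m ih =>
    rw [List.replicate_succ, run_cons]
    by_cases hjn : j < n
    · have : step n (St.lev j b) 0 = St.lev (j + 1) b := by
        change (if j < n then St.lev (j + 1) b else St.top) = _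
        rw [if_pos hjn]
      rw [this]
      exact ih (j + 1) (by omega) (by omega)
    · have : step n (St.lev j b) 0 = St.top := by
        change (if j < n then St.lev (j + 1) b else St.top) = _
        rw [if_neg hjn]
      rw [this]
      exact run_up_top n m

theorem run_down (n m j : ℕ) (b : Bool) (h : m ≤ j) :
    run n (St.lev j b) (List.replicate m 1) = St.lev (j - m) b := by
  induction m generalizing j with
  | zero => rfl
  | succ m ih =>
    rw [List.replicate_succ, run_cons]
    have : step n (St.lev j b) 1 = St.lev (j - 1) b := by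
      change (if j = 0 then St.dead else St.lev (j - 1) b) = _
      rw [if_neg (by omega)]
    rw [this, ih (j - 1) (by omega)]
    congr 1
    omega

theorem run_down' (n m j : ℕ) (b : Bool) (h : j < m) :
    run n (St.lev j b) (List.replicate m 1) = St.dead := by
  induction m generalizing j with
  | zero => omega
  | succ m ih =>
    rw [List.replicate_succ, run_cons]
    by_cases hj : j = 0
    · have : step n (St.lev j b) 1 = St.dead := by
        change (if j = 0 then St.dead else St.lev (j - 1) b) = _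
        rw [if_pos hj]
      rw [this, run_dead]
    · have : step n (St.lev j b) 1 = St.lev (j - 1) b := by
        change (if j = 0 then St.dead else St.lev (j - 1) b) = _
        rw [if_neg hj]
      rw [this]
      exact ih (j - 1) (by omega)

/-- the height of a state -/
def ht (n : ℕ) : St → ℕ
  | St.dead => 0
  | St.lev j _ => j + 1
  | St.top => n + 2

theorem ht_eq_zero {n : ℕ} {s : St} (h : ht n s = 0) : s = St.dead := by
  cases s with
  | dead => rfl
  | lev j b => simp [ht] at h
  | top => simp [ht] at h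

theorem ht_down_top (n m : ℕ) (hm : 1 ≤ m) :
    ht n (run n St.top (List.replicate m 1)) ≤ n + 2 - m ∧
      (run n St.top (List.replicate m 1) = St.dead ∨
        ∃ j, run n St.top (List.replicate m 1) = St.lev j false) := by
  obtain ⟨m', rfl⟩ : ∃ m', m = m' + 1 := ⟨m - 1, by omega⟩
  rw [List.replicate_succ, run_cons]
  have : step n St.top 1 = St.lev n false := rfl
  rw [this]
  by_cases h : m' ≤ n
  · rw [run_down n m' n false h]
    refine ⟨?_, Or.inr ⟨_, rfl⟩⟩
    simp only [ht]
    omega
  · rw [run_down' n m' n false (by omega)]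
    exact ⟨Nat.zero_le _, Or.inl rfl⟩

/-- the guess belonging to a colour -/
def guess (c : Fin 5) : Bool := decide (c = 4)

theorem ht_guess (n j : ℕ) (b : Bool) {c : Fin 5} (hc : c = 3 ∨ c = 4) :
    ht n (step n (St.lev j b) c) ≤ j + 1 ∧
      (b ≠ guess c → ht n (step n (St.lev j b) c) ≤ j) := by
  rcases hc with rfl | rfl
  · change ht n (if b = false then St.lev j false else if j = 0 then St.dead
      else St.lev (j - 1) false) ≤ j + 1 ∧ _
    have hg : guess 3 = false := rfl
    rw [hg]
    constructor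
    · split_ifs with h1 h2
      · exact le_rfl
      · exact Nat.zero_le _
      · simp only [ht]; omega
    · intro hb
      change ht n (if b = false then St.lev j false else if j = 0 then St.dead
        else St.lev (j - 1) false) ≤ j
      rw [if_neg hb]
      split_ifs with h2
      · exact Nat.zero_le _
      · simp only [ht]; omega
  · change ht n (if b = true then St.lev j true else if j = 0 then St.dead
      else St.lev (j - 1) true) ≤ j + 1 ∧ _
    have hg : guess 4 = true := rfl
    rw [hg]
    constructor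
    · split_ifs with h1 h2
      · exact le_rfl
      · exact Nat.zero_le _
      · simp only [ht]; omega
    · intro hb
      change ht n (if b = true then St.lev j true else if j = 0 then St.dead
        else St.lev (j - 1) true) ≤ j
      rw [if_neg hb]
      split_ifs with h2
      · exact Nat.zero_le _
      · simp only [ht]; omega

/-- the word of the `i`-th branch -/
def word (K i : ℕ) : List (Fin 5) :=
  List.replicate (K * i) 0 ++ ([2] ++ List.replicate (K * i) 1)

/-- **one round**: against a guess that does not depend on the branch, Antagonist can lower the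
height -/
theorem exists_round {K I₀ : ℕ} (hK : 0 < K)
    (hflip : ∀ (j : ℕ) (b g : Bool), ∃ i, 1 ≤ i ∧ i ≤ I₀ ∧ flipBit (j + K * i) b ≠ g)
    (n : ℕ) {s : St} (hs : s ≠ St.dead) (hle : Le n s St.top) {c : Fin 5} (hc : c = 3 ∨ c = 4) :
    ∃ i, 1 ≤ i ∧ i ≤ I₀ + 1 ∧ ht n (run n s (word K i ++ [c])) < ht n s := by
  have htop : ∀ i, 1 ≤ i → ht n (run n St.top ([2] ++ (List.replicate (K * i) 1 ++ [c])))
      ≤ n + 2 - K * i := by
    intro i hi
    rw [run_append]
    have h1 : run n St.top [2] = St.top := rfl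
    rw [h1, run_append]
    have hKi : 1 ≤ K * i := Nat.mul_pos hK hi
    obtain ⟨h2, h3⟩ := ht_down_top n (K * i) hKi
    rcases h3 with h3 | ⟨j, h3⟩
    · rw [h3, run_dead]
      exact Nat.zero_le _
    · rw [h3] at h2 ⊢
      exact (ht_guess n j false hc).1.trans h2
  cases s with
  | dead => exact absurd rfl hs
  | top =>
    refine ⟨1, le_rfl, by omega, ?_⟩
    unfold word
    rw [List.append_assoc, run_append, run_up_top, List.append_assoc]
    have h1 := htop 1 le_rfl
    have h2 : ht n St.top = n + 2 := rfl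
    have h3 : 0 < K * 1 := by omega
    omega
  | lev j b =>
    have hj : j ≤ n := hle
    by_cases h : j + K * I₀ ≤ n
    · obtain ⟨i, hi1, hi2, hi3⟩ := hflip j b (guess c)
      refine ⟨i, hi1, by omega, ?_⟩
      unfold word
      have h4 : K * i ≤ K * I₀ := Nat.mul_le_mul_left K hi2
      rw [List.append_assoc, run_append, run_up n (K * i) j b (by omega), List.append_assoc,
        run_append]
      have h5 : run n (St.lev (j + K * i) b) [2] =
        St.lev (j + K * i) (flipBit (j + K * i) b) := rfl
      rw [h5, run_append, run_down n (K * i) _ _ (by omega), Nat.add_sub_cancel]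
      have h6 := (ht_guess n j (flipBit (j + K * i) b) hc).2 hi3
      have h7 : ht n (St.lev j b) = j + 1 := rfl
      have h8 : run n (St.lev j (flipBit (j + K * i) b)) [c] =
        step n (St.lev j (flipBit (j + K * i) b)) c := rfl
      rw [h8]
      omega
    · refine ⟨I₀ + 1, by omega, le_rfl, ?_⟩
      unfold word
      have h4 : K * (I₀ + 1) = K * I₀ + K := by ring
      rw [List.append_assoc, run_append, run_up' n (K * (I₀ + 1)) j b hj (by omega),
        List.append_assoc]
      have h1 := htop (I₀ + 1) (by omega)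
      have h2 : ht n (St.lev j b) = j + 1 := rfl
      omega

/-! ### the arena -/

/-- The ladder: nodes `(false, m)` and `(true, m)` for `m ≤ K * I`. Edges: from `(false, m)` up to
`(false, m+1)` with colour `0`; from `(false, m)` to `(true, m)` with colour `2`, if `K` divides
`m > 0`; from `(true, m+1)` down to `(true, m)` with colour `1`; from `(true, 0)` to `(false, 0)`
with the colours `3` and `4`. Only `(true, 0)` belongs to Protagonist. -/
abbrev ladder (K I : ℕ) (hK : 0 < K) (hI : 0 < I) : Arena (Fin 5) where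
  V := Bool × Fin (K * I + 1)
  finV := inferInstance
  neV := inferInstance
  isP v := v = (true, 0)
  E := {e | (e.2.1 = 0 ∧ e.1.1 = false ∧ e.2.2.1 = false ∧ (e.2.2.2 : ℕ) = e.1.2 + 1) ∨
    (e.2.1 = 2 ∧ e.1.1 = false ∧ e.2.2.1 = true ∧ (e.2.2.2 : ℕ) = e.1.2 ∧
      K ∣ (e.1.2 : ℕ) ∧ 0 < (e.1.2 : ℕ)) ∨
    (e.2.1 = 1 ∧ e.1.1 = true ∧ e.2.2.1 = true ∧ (e.1.2 : ℕ) = e.2.2.2 + 1) ∨
    ((e.2.1 = 3 ∨ e.2.1 = 4) ∧ e.1.1 = true ∧ e.2.2.1 = false ∧ (e.1.2 : ℕ) = 0 ∧
      (e.2.2.2 : ℕ) = 0)}
  finE := Set.toFinite _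
  total := by
    rintro ⟨b, m⟩
    cases b with
    | false =>
      by_cases hm : (m : ℕ) = K * I
      · exact ⟨2, (true, m), Or.inr (Or.inl ⟨rfl, rfl, rfl, rfl, ⟨I, hm⟩,
          by change 0 < (m : ℕ); rw [hm]; exact Nat.mul_pos hK hI⟩)⟩
      · have h1 := m.2
        exact ⟨0, (false, ⟨m + 1, by omega⟩), Or.inl ⟨rfl, rfl, rfl, rfl⟩⟩
    | true =>
      by_cases hm : (m : ℕ) = 0
      · exact ⟨3, (false, 0), Or.inr (Or.inr (Or.inr ⟨Or.inl rfl, rfl, rfl, hm, rfl⟩))⟩
      · have h1 := m.2
        exact ⟨1, (true, ⟨m - 1, by omega⟩), Or.inr (Or.inr (Or.inl ⟨rfl, rfl, rfl,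
          by change (m : ℕ) = (m - 1) + 1; omega⟩))⟩

section ladder

variable {K I : ℕ} {hK : 0 < K} {hI : 0 < I}

/-- Protagonist wins the ladder from the node `(false, 0)`. -/
theorem ladder_wins : ∃ S : (ladder K I hK hI).Strategy, S.WinsFrom WW (false, 0) := by
  classical
  let st : List (ladder K I hK hI).Tri → St := fun p =>
    run (K * I) (St.lev 0 false) (p.map fun e => e.2.1)
  let S : (ladder K I hK hI).Strategy :=
    { move := fun _ p => ((true, 0), (if chain (st p) then 4 else 3), (false, 0))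
      legal := by
        intro v p _ hP
        refine ⟨Or.inr (Or.inr (Or.inr ⟨?_, rfl, rfl, rfl, rfl⟩)), hP.symm⟩
        split_ifs
        · exact Or.inr rfl
        · exact Or.inl rfl }
  refine ⟨S, ?_⟩
  intro x hx hcx
  have hinv : ∀ m, ∃ b, run (K * I) (St.lev 0 false) (seg (fun n => (x n).2.1) 0 m) =
      St.lev ((x m).1.2 : ℕ) b := by
    intro m
    induction m with
    | zero => exact ⟨false, by rw [hx.2.1]; rfl⟩
    | succ m ih =>
      obtain ⟨b, hb⟩ := ih
      rw [seg_succ, run_append, hb, zero_add]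
      change ∃ b', step (K * I) (St.lev ((x m).1.2 : ℕ) b) (x m).2.1 = _
      have hbd : ((x m).2.2.2 : ℕ) < K * I + 1 := (x m).2.2.2.2
      rw [hx.2.2 m]
      rcases hx.1 m with ⟨hc, -, -, h1⟩ | ⟨hc, -, -, h1, -⟩ | ⟨hc, -, -, h1⟩ |
        ⟨hc, h0, -, h1, h2⟩
      · rw [hc, h1]
        refine ⟨b, ?_⟩
        change (if ((x m).1.2 : ℕ) < K * I then St.lev ((x m).1.2 + 1) b else St.top) = _
        rw [if_pos (by omega)]
      · rw [hc, h1]
        exact ⟨_, rfl⟩
      · rw [hc, h1]
        refine ⟨b, ?_⟩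
        change (if ((x m).2.2.2 + 1 : ℕ) = 0 then St.dead
          else St.lev ((x m).2.2.2 + 1 - 1) b) = _
        rw [if_neg (by omega), Nat.add_sub_cancel]
      · -- the guess is right
        have hP : (ladder K I hK hI).isP (x m).1 := by
          change (x m).1 = (true, 0)
          refine Prod.ext h0 (Fin.ext h1)
        have h3 := hcx m hP
        have h4 : st (pre x m) = St.lev ((x m).1.2 : ℕ) b := by
          have h5 : (pre x m).map (fun e => e.2.1) = seg (fun n => (x n).2.1) 0 m := by
            simp only [pre, seg, List.map_map, zero_add]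
            rfl
          simp only [st]
          rw [h5, hb]
        have h5 : (x m).2.1 = if b then 4 else 3 := by
          rw [h3]
          simp only [S, h4, chain]
        rw [h1, h2, h5]
        cases b with
        | false => exact ⟨false, rfl⟩
        | true => exact ⟨true, rfl⟩
  refine ⟨K * I, 0, fun m => ?_⟩
  obtain ⟨b, hb⟩ := hinv m
  have h1 : Le (K * I) (St.lev 0 false) St.top := Nat.zero_le _
  refine (run_mono (K * I) h1 _).alive ?_
  rw [hb]
  simp

/-- paths upwards -/
theorem ladder_up (S : (ladder K I hK hI).Strategy) {h : List (ladder K I hK hI).Tri}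
    (hh : Hist S (false, 0) h) (hend : (ladder K I hK hI).endpt (false, 0) h = (false, 0))
    (m : ℕ) (hm : m ≤ K * I) :
    ∃ g, Hist S (false, 0) (h ++ g) ∧ (ladder K I hK hI).endpt (false, 0) (h ++ g) =
      (false, (⟨m, Nat.lt_succ_of_le hm⟩ : Fin (K * I + 1))) ∧
      (g.map fun e => e.2.1) = List.replicate m 0 := by
  induction m with
  | zero =>
    refine ⟨[], by simpa using hh, ?_, rfl⟩
    rw [List.append_nil, hend]
    rfl
  | succ m ih =>
    obtain ⟨g, h1, h2, h3⟩ := ih (by omega)
    refine ⟨g ++ [((false, (⟨m, by omega⟩ : Fin (K * I + 1))), 0,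
      (false, (⟨m + 1, by omega⟩ : Fin (K * I + 1))))], ?_, ?_, ?_⟩
    · rw [← List.append_assoc]
      refine h1.snoc (Or.inl ⟨rfl, rfl, rfl, rfl⟩) h2.symm ?_
      intro hP
      exact absurd (congrArg Prod.fst hP) (by simp)
    · rw [← List.append_assoc, endpt_snoc]
    · rw [List.map_append, h3, List.replicate_succ']
      rfl

/-- paths downwards -/
theorem ladder_down (S : (ladder K I hK hI).Strategy) (m : ℕ) (hm : m ≤ K * I) :
    ∀ {h : List (ladder K I hK hI).Tri}, Hist S (false, 0) h →
    (ladder K I hK hI).endpt (false, 0) h =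
      (true, (⟨m, Nat.lt_succ_of_le hm⟩ : Fin (K * I + 1))) →
    ∃ g, Hist S (false, 0) (h ++ g) ∧
      (ladder K I hK hI).endpt (false, 0) (h ++ g) = (true, 0) ∧
      (g.map fun e => e.2.1) = List.replicate m 1 := by
  induction m with
  | zero =>
    intro h hh hend
    refine ⟨[], by simpa using hh, ?_, rfl⟩
    rw [List.append_nil, hend]
    rfl
  | succ m ih =>
    intro h hh hend
    have h1 : Hist S (false, 0) (h ++ [((true, (⟨m + 1, by omega⟩ : Fin (K * I + 1))), 1,
      (true, (⟨m, by omega⟩ : Fin (K * I + 1))))]) := by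
      refine hh.snoc (Or.inr (Or.inr (Or.inl ⟨rfl, rfl, rfl, rfl⟩))) hend.symm ?_
      intro hP
      have h2 : ((true, (⟨m + 1, by omega⟩ : Fin (K * I + 1))) : Bool × Fin (K * I + 1)) =
        (true, 0) := hP
      have h3 := congrArg (fun p => (p.2 : ℕ)) h2
      simp at h3
    obtain ⟨g, h2, h3, h4⟩ := ih (by omega) h1 (endpt_snoc _ _ _)
    refine ⟨((true, (⟨m + 1, by omega⟩ : Fin (K * I + 1))), 1,
      (true, (⟨m, by omega⟩ : Fin (K * I + 1)))) :: g, ?_, ?_, ?_⟩
    · rwa [List.append_assoc] at h2
    · rwa [List.append_assoc] at h3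
    · rw [List.map_cons, h4, List.replicate_succ]

/-- the branches -/
theorem ladder_branch (S : (ladder K I hK hI).Strategy) {h : List (ladder K I hK hI).Tri}
    (hh : Hist S (false, 0) h) (hend : (ladder K I hK hI).endpt (false, 0) h = (false, 0))
    (i : ℕ) (hi1 : 1 ≤ i) (hi : i ≤ I) :
    ∃ g, Hist S (false, 0) (h ++ g) ∧ (ladder K I hK hI).endpt (false, 0) (h ++ g) = (true, 0) ∧
      (g.map fun e => e.2.1) = word K i := by
  have hm : K * i ≤ K * I := Nat.mul_le_mul_left K hi
  obtain ⟨g₁, h1, h2, h3⟩ := ladder_up S hh hend (K * i) hm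
  set e : (ladder K I hK hI).Tri := ((false, (⟨K * i, Nat.lt_succ_of_le hm⟩ : Fin (K * I + 1))), 2,
      (true, (⟨K * i, Nat.lt_succ_of_le hm⟩ : Fin (K * I + 1)))) with he
  have h4 : Hist S (false, 0) ((h ++ g₁) ++ [e]) := by
    refine h1.snoc (Or.inr (Or.inl ⟨rfl, rfl, rfl, rfl, ⟨i, rfl⟩, Nat.mul_pos hK hi1⟩))
      h2.symm ?_
    intro hP
    exact absurd (congrArg Prod.fst hP) (by simp [he])
  obtain ⟨g₂, h5, h6, h7⟩ := ladder_down S (K * i) hm h4 (endpt_snoc _ _ _)
  refine ⟨g₁ ++ ([e] ++ g₂), ?_, ?_, ?_⟩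
  · simpa only [List.append_assoc] using h5
  · simpa only [List.append_assoc] using h6
  · rw [List.map_append, List.map_append, h3, h7]
    rfl

end ladder

/-! ### chromatic memory -/

theorem foldl_replicate {M : Type} (G : M → Fin 5 → M) (c : Fin 5) (m : ℕ) (s : M) :
    List.foldl G s (List.replicate m c) = (fun s => G s c)^[m] s := by
  induction m generalizing s with
  | zero => rfl
  | succ m ih => rw [List.replicate_succ, List.foldl_cons, ih, Function.iterate_succ_apply]

/-- on paths of the arena, a chromatic memory is a function of the word of colours -/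
theorem Chromatic.exists_fold {A : Arena (Fin 5)} (mem : A.Memory) (hm : mem.Chromatic) :
    ∃ G : mem.M → Fin 5 → mem.M, ∀ (g : List A.Tri) (s : mem.M), (∀ e ∈ g, e ∈ A.E) →
      g.foldl mem.upd s = (g.map fun e => e.2.1).foldl G s := by
  classical
  refine ⟨fun s c => if hc : ∃ e ∈ A.E, e.2.1 = c then mem.upd s hc.choose else s, ?_⟩
  intro g
  induction g with
  | nil => intro s _; rfl
  | cons e g ih =>
    intro s hg
    have he : e ∈ A.E := hg e (by simp)
    have hc : ∃ e' ∈ A.E, e'.2.1 = e.2.1 := ⟨e, he, rfl⟩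
    rw [List.foldl_cons, List.map_cons, List.foldl_cons, ih _ (fun e' h' => hg e' (by simp [h']))]
    congr 1
    rw [dif_pos hc]
    exact hm s e he _ hc.choose_spec.1 hc.choose_spec.2.symm

theorem isPath_mem {C : Type} {A : Arena C} {v : A.V} {p : List A.Tri} (h : A.IsPath v p) :
    ∀ e ∈ p, e ∈ A.E := by
  induction p generalizing v with
  | nil => simp
  | cons e p ih =>
    intro e' he'
    rw [List.mem_cons] at he'
    rcases he' with rfl | he'
    · exact h.1
    · exact ih h.2.2 e' he'

/-- **no finite number of states of chromatic memory suffices** -/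
theorem not_chrSuffices (k : ℕ) : ¬ ChrSuffices WW k := by
  classical
  rintro ⟨hk, hall⟩
  set K := k.factorial with hKdef
  have hK : 0 < K := Nat.factorial_pos k
  obtain ⟨I₀, hflip⟩ := exists_flip K hK
  set I := I₀ + 1 with hIdef
  have hI : 0 < I := Nat.succ_pos _
  obtain ⟨S, hopt, mem, hcard, hchr, hbuilt⟩ := hall (ladder K I hK hI)
  have hwin := hopt (false, 0) ladder_wins
  let _ := mem.finM
  obtain ⟨G, hG⟩ := Chromatic.exists_fold mem hchr
  -- the words of the branches act in the same way on the memory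
  have hword : ∀ i, 1 ≤ i → ∀ s, List.foldl G s (word K i) = List.foldl G s (word K 1) := by
    intro i hi s
    unfold word
    simp only [List.foldl_append, foldl_replicate]
    rw [iterate_factorial hcard _ i hi, iterate_factorial hcard _ i hi,
      iterate_factorial hcard _ 1 le_rfl, iterate_factorial hcard _ 1 le_rfl]
  -- one round
  let P : List (ladder K I hK hI).Tri → Prop := fun h =>
    Hist S (false, 0) h ∧ (ladder K I hK hI).endpt (false, 0) h = (false, 0)
  have hround : ∀ n h, P h → ∀ s, s ≠ St.dead → Le n s St.top →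
      ∃ g, P (h ++ g) ∧ ht n (run n s (g.map fun e => e.2.1)) < ht n s := by
    intro n h hh s hs hle
    have hbr := fun i hi1 hi => ladder_branch S hh.1 hh.2 i hi1 hi
    choose br hbr1 hbr2 hbr3 using hbr
    have hsame : ∀ i (hi1 : 1 ≤ i) (hi : i ≤ I),
        S.move (false, 0) (h ++ br i hi1 hi) = S.move (false, 0) (h ++ br 1 le_rfl hI) := by
      intro i hi1 hi
      refine hbuilt _ _ _ _ (hbr1 i hi1 hi).1 (hbr1 1 le_rfl hI).1 ?_ ?_ ?_
      · rw [hbr2]
      · rw [hbr2, hbr2]
      · unfold Memory.run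
        rw [List.foldl_append, List.foldl_append,
          hG _ _ (fun e he => isPath_mem (hbr1 i hi1 hi).1 e (by simp [he])),
          hG (br 1 le_rfl hI) _ (fun e he => isPath_mem (hbr1 1 le_rfl hI).1 e (by simp [he])),
          hbr3, hbr3, hword i hi1]
    set e₀ := S.move (false, 0) (h ++ br 1 le_rfl hI) with he₀
    have hlegal := S.legal (false, 0) (h ++ br 1 le_rfl hI) (hbr1 1 le_rfl hI).1
      (by rw [hbr2])
    rw [← he₀, hbr2] at hlegal
    have hcol : (e₀.2.1 = 3 ∨ e₀.2.1 = 4) ∧ e₀.2.2 = (false, 0) := by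
      obtain ⟨h1, h2⟩ := hlegal
      have h3 : e₀.1.1 = true := by rw [h2]
      have h4 : (e₀.1.2 : ℕ) = 0 := by rw [h2]; rfl
      rcases h1 with ⟨-, h5, -⟩ | ⟨-, h5, -⟩ | ⟨-, -, -, h5⟩ | ⟨hc, -, h6, -, h7⟩
      · rw [h3] at h5
        exact absurd h5 (by simp)
      · rw [h3] at h5
        exact absurd h5 (by simp)
      · rw [h4] at h5
        omega
      · exact ⟨hc, Prod.ext h6 (Fin.ext h7)⟩
    obtain ⟨i, hi1, hi2, hi3⟩ := exists_round hK hflip n hs hle hcol.1
    refine ⟨br i hi1 hi2 ++ [e₀], ⟨?_, ?_⟩, ?_⟩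
    · rw [← List.append_assoc]
      refine (hbr1 i hi1 hi2).snoc hlegal.1 ?_ (fun _ => (hsame i hi1 hi2).symm)
      rw [hbr2]
      exact hlegal.2
    · rw [← List.append_assoc, endpt_snoc]
      exact hcol.2
    · rw [List.map_append, hbr3]
      exact hi3
  have hkill : ∀ n r s h, P h → Le n s St.top → ht n s ≤ r →
      ∃ g, P (h ++ g) ∧ run n s (g.map fun e => e.2.1) = St.dead := by
    intro n r
    induction r with
    | zero =>
      intro s h hh _ hr
      refine ⟨[], by simpa using hh, ?_⟩
      have h0 : ht n s = 0 := by omega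
      exact ht_eq_zero h0
    | succ r ih =>
      intro s h hh hle hr
      by_cases hs : s = St.dead
      · subst hs
        exact ⟨[], by simpa using hh, rfl⟩
      · obtain ⟨g, hg1, hg2⟩ := hround n h hh s hs hle
        obtain ⟨g', hg1', hg2'⟩ := ih (run n s (g.map fun e => e.2.1)) (h ++ g) hg1
          (run_le_top n hle _) (by omega)
        refine ⟨g ++ g', by rwa [List.append_assoc] at hg1', ?_⟩
        rw [List.map_append, run_append]
        exact hg2'
  refine not_winsFrom S (false, 0) P ⟨hist_nil S _, rfl⟩ (fun h hh => hh.1) ?_ hwin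
  intro n h hh
  exact hkill n _ St.top h hh (Le.refl n _) le_rfl

theorem chrMem_WW : ChrMem WW = ⊤ := by
  unfold ChrMem
  simp only [Set.mem_ofPred_eq, not_chrSuffices, iInf_false, iInf_top]

end Pool.Agent.H85.Mem
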