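import Mathlib

/-!
# Games on finite coloured graphs, strategies and memory

Definitions for the comparison of general and chromatic memory.
-/

namespace Pool.Agent.H85.Mem

/-- An arena over the set of colours `C`: a finite nonempty set of nodes `V`, each owned either by
Protagonist (`isP v`) or by Antagonist (`¬ isP v`), with a finite set `E ⊆ V × C × V` of edges
such that every node has an outgoing edge. -/
structure Arena (C : Type) where
  /-- the nodes -/
  V : Type
  finV : Finite V
  neV : Nonempty V
  /-- the nodes of Protagonist -/
  isP : V → Prop
  /-- the edges `(source, colour, target)` -/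
  E : Set (V × C × V)
  finE : E.Finite
  total : ∀ v, ∃ c v', (v, c, v') ∈ E

namespace Arena

variable {C : Type} (A : Arena C)

/-- Triples `(source, colour, target)`. -/
abbrev Tri : Type := A.V × C × A.V

/-- `A.IsPath v p`: `p` is a finite path of consecutive edges starting at `v` (possibly empty). -/
def IsPath : A.V → List A.Tri → Prop
  | _, [] => True
  | v, e :: p => e ∈ A.E ∧ e.1 = v ∧ IsPath e.2.2 p

/-- The endpoint of a path starting at `v`. -/
def endpt : A.V → List A.Tri → A.V
  | v, [] => v
  | _, e :: p => endpt e.2.2 p

/-- `A.IsPlay v x`: `x` is an infinite path of consecutive edges starting at `v`. -/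
def IsPlay (v : A.V) (x : ℕ → A.Tri) : Prop :=
  (∀ n, x n ∈ A.E) ∧ (x 0).1 = v ∧ ∀ n, (x (n + 1)).1 = (x n).2.2

/-- The first `n` edges of an infinite play. -/
def pre {A : Arena C} (x : ℕ → A.Tri) (n : ℕ) : List A.Tri := (List.range n).map x

/-- A strategy of Protagonist: to every finite path (given by its starting node and its list of
edges, possibly empty) that ends in a node of Protagonist it assigns an outgoing edge of the
endpoint. The values on other arguments play no role. -/
structure Strategy where
  /-- the edge chosen after the path `p` starting at `v` -/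
  move : A.V → List A.Tri → A.Tri
  legal : ∀ v p, A.IsPath v p → A.isP (A.endpt v p) →
    move v p ∈ A.E ∧ (move v p).1 = A.endpt v p

variable {A}

/-- The infinite play `x` starting at `v` is consistent with the strategy `S`. -/
def Strategy.Consistent (S : A.Strategy) (v : A.V) (x : ℕ → A.Tri) : Prop :=
  ∀ n, A.isP (x n).1 → x n = S.move v (pre x n)

/-- `S` wins from `v` for the winning condition `W`: every infinite play from `v` consistent with
`S` has its sequence of colours in `W`. -/
def Strategy.WinsFrom (S : A.Strategy) (W : Set (ℕ → C)) (v : A.V) : Prop :=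
  ∀ x, A.IsPlay v x → S.Consistent v x → (fun n => (x n).2.1) ∈ W

/-- `S` is optimal for `W`: it wins from every node from which some strategy wins. -/
def Strategy.Optimal (S : A.Strategy) (W : Set (ℕ → C)) : Prop :=
  ∀ v, (∃ S' : A.Strategy, S'.WinsFrom W v) → S.WinsFrom W v

variable (A)

/-- A memory structure `⟨M, init, upd⟩` for the arena `A`. -/
structure Memory where
  /-- the memory states -/
  M : Type
  finM : Fintype M
  /-- the initial state -/
  init : M
  /-- the update function -/
  upd : M → A.Tri → M

variable {A}

/-- The memory state reached after a finite path. -/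
def Memory.run (m : A.Memory) (p : List A.Tri) : m.M := p.foldl m.upd m.init

/-- The memory structure is chromatic: on the edges of the arena the update depends only on the
memory state and on the colour of the edge. -/
def Memory.Chromatic (m : A.Memory) : Prop :=
  ∀ s, ∀ e ∈ A.E, ∀ e' ∈ A.E, e.2.1 = e'.2.1 → m.upd s e = m.upd s e'

/-- `S` is built on the memory structure `m`: the edge chosen after a finite path (ending in a
node of Protagonist) depends only on the endpoint and on the memory state reached. -/
def Strategy.BuiltOn (S : A.Strategy) (m : A.Memory) : Prop :=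
  ∀ v p v' p', A.IsPath v p → A.IsPath v' p' → A.isP (A.endpt v p) →
    A.endpt v p = A.endpt v' p' → m.run p = m.run p' → S.move v p = S.move v' p'

end Arena

variable {C : Type}

/-- Every arena over `C` admits an optimal strategy with `k` states of general memory. -/
def GenSuffices (W : Set (ℕ → C)) (k : ℕ) : Prop :=
  0 < k ∧ ∀ A : Arena C, ∃ S : A.Strategy, S.Optimal W ∧
    ∃ m : A.Memory, @Fintype.card m.M m.finM = k ∧ S.BuiltOn m

/-- Every arena over `C` admits an optimal strategy with `k` states of chromatic memory. -/
def ChrSuffices (W : Set (ℕ → C)) (k : ℕ) : Prop :=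
  0 < k ∧ ∀ A : Arena C, ∃ S : A.Strategy, S.Optimal W ∧
    ∃ m : A.Memory, @Fintype.card m.M m.finM = k ∧ m.Chromatic ∧ S.BuiltOn m

/-- `GenMem W`: the least positive `k` such that every arena over `C` admits an optimal strategy
with `k` states of general memory, and `⊤` if there is no such `k`. -/
noncomputable def GenMem (W : Set (ℕ → C)) : ℕ∞ := ⨅ k ∈ {k : ℕ | GenSuffices W k}, (k : ℕ∞)

/-- `ChrMem W`: the least positive `k` such that every arena over `C` admits an optimal strategy
with `k` states of chromatic memory, and `⊤` if there is no such `k`. -/
noncomputable def ChrMem (W : Set (ℕ → C)) : ℕ∞ := ⨅ k ∈ {k : ℕ | ChrSuffices W k}, (k : ℕ∞)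

/-- The infinite word `x y`, for a finite word `x` and an infinite word `y`. -/
def appendWord (x : List C) (y : ℕ → C) : ℕ → C :=
  fun n => if h : n < x.length then x[n] else y (n - x.length)

/-- `W` is prefix-independent: `x y ∈ W ↔ y ∈ W` for all finite `x` and infinite `y`. -/
def PrefixIndependent (W : Set (ℕ → C)) : Prop :=
  ∀ (x : List C) (y : ℕ → C), appendWord x y ∈ W ↔ y ∈ W

end Pool.Agent.H85.Mem
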