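import Pool.Agent.H85.MemPath

/-!
# Two states of general memory suffice
-/

namespace Pool.Agent.H85.Mem

open Arena

section resid

variable {C : Type} {A : Arena C}

open Classical in
/-- the strategy `S` continued after the history `h` from `v₀` -/
noncomputable def resid (S : A.Strategy) (v₀ : A.V) (h : List A.Tri) (hh : A.IsPath v₀ h) :
    A.Strategy where
  move u p := if u = A.endpt v₀ h then S.move v₀ (h ++ p) else S.move u p
  legal u p hp hP := by
    by_cases hu : u = A.endpt v₀ h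
    · rw [if_pos hu]
      subst hu
      have h1 : A.IsPath v₀ (h ++ p) := (isPath_append _ _ _).2 ⟨hh, hp⟩
      have h2 := S.legal v₀ (h ++ p) h1 (by rwa [endpt_append])
      rwa [endpt_append] at h2
    · rw [if_neg hu]
      exact S.legal u p hp hP

/-- the set of nodes from which Protagonist wins -/
def winSet (A : Arena C) (W : Set (ℕ → C)) : Set A.V := {v | ∃ S : A.Strategy, S.WinsFrom W v}

theorem IsPath.left {v : A.V} {p q : List A.Tri} (h : A.IsPath v (p ++ q)) : A.IsPath v p :=
  ((isPath_append v p q).1 h).1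

theorem pre_add (x : ℕ → A.Tri) (a b : ℕ) :
    pre x (a + b) = pre x a ++ (List.range b).map (fun i => x (a + i)) := by
  induction b with
  | zero => simp
  | succ b ih => rw [← add_assoc, pre_succ, ih, List.range_succ]; simp

theorem mem_winSet_of_hist {W : Set (ℕ → C)} (hW : PrefixIndependent W) {S : A.Strategy}
    {v₀ : A.V} (hS : S.WinsFrom W v₀) {h : List A.Tri} (hh : Hist S v₀ h) :
    A.endpt v₀ h ∈ winSet A W := by
  refine ⟨resid S v₀ h hh.1, ?_⟩
  intro x hx hcx
  set y : ℕ → A.Tri := fun n => if hn : n < h.length then h[n] else x (n - h.length) with hy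
  have hpre1 : ∀ n, n ≤ h.length → pre y n = h.take n := by
    intro n hn
    apply List.ext_getElem
    · simp [pre, hn]
    · intro m h1 h2
      simp only [pre, List.getElem_map, List.getElem_range, List.getElem_take, hy]
      have : m < h.length := by
        simp only [List.length_take] at h2
        omega
      simp [this]
  have hpre2 : ∀ m, pre y (h.length + m) = h ++ pre x m := by
    intro m
    induction m with
    | zero => simp [hpre1 h.length le_rfl, pre_zero]
    | succ m ih =>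
      rw [← add_assoc, pre_succ, ih, pre_succ, List.append_assoc]
      congr 2
      simp [hy]
  have hplay : A.IsPlay v₀ y := by
    refine isPlay_of_isPath fun n => ?_
    have h1 : A.IsPath v₀ (pre y (h.length + n)) := by
      rw [hpre2]
      exact (isPath_append _ _ _).2 ⟨hh.1, (IsPlay.isPath hx n).1⟩
    rw [add_comm, pre_add] at h1
    exact IsPath.left h1
  have hcons : S.Consistent v₀ y := by
    intro n hn
    rcases Nat.lt_or_ge n h.length with h1 | h1
    · have h2 : y n = h[n] := by simp [hy, h1]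
      rw [hpre1 n h1.le, h2]
      rw [h2] at hn
      refine hh.2 (h.take n) h[n] (h.drop (n + 1)) ?_ hn
      rw [List.getElem_cons_drop, List.take_append_drop]
    · obtain ⟨m, rfl⟩ : ∃ m, n = h.length + m := ⟨n - h.length, by omega⟩
      have h2 : y (h.length + m) = x m := by simp [hy]
      rw [h2] at hn ⊢
      rw [hpre2, hcx m hn]
      simp [resid]
  have h1 := hS y hplay hcons
  have h2 : (fun n => (y n).2.1) = appendWord (h.map fun e => e.2.1) (fun n => (x n).2.1) := by
    funext n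
    simp only [appendWord, hy, List.length_map]
    split_ifs with h3
    · simp
    · rfl
  rw [h2] at h1
  exact (hW _ _).1 h1

theorem winSet_P {W : Set (ℕ → C)} (hW : PrefixIndependent W) {v : A.V}
    (hv : v ∈ winSet A W) (hP : A.isP v) : ∃ e ∈ A.E, e.1 = v ∧ e.2.2 ∈ winSet A W := by
  obtain ⟨S, hS⟩ := hv
  have h1 := S.legal v [] trivial hP
  refine ⟨S.move v [], h1.1, h1.2, ?_⟩
  have h2 : Hist S v ([] ++ [S.move v []]) :=
    (hist_nil S v).snoc h1.1 h1.2 (fun _ => rfl)
  have h3 := mem_winSet_of_hist hW hS h2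
  rwa [endpt_snoc] at h3

theorem winSet_A {W : Set (ℕ → C)} (hW : PrefixIndependent W) {v : A.V}
    (hv : v ∈ winSet A W) (hP : ¬ A.isP v) (e : A.Tri) (he : e ∈ A.E) (he1 : e.1 = v) :
    e.2.2 ∈ winSet A W := by
  obtain ⟨S, hS⟩ := hv
  have h2 : Hist S v ([] ++ [e]) :=
    (hist_nil S v).snoc he he1 (fun h => absurd (he1 ▸ h) hP)
  have h3 := mem_winSet_of_hist hW hS h2
  rwa [endpt_snoc] at h3

end resid

variable {A : Arena (Fin 5)}

/-- a set of pairs (node in `R`, live state) in which Protagonist can stay for ever, as long as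
Antagonist stays in `R` -/
def IsSafe (A : Arena (Fin 5)) (n : ℕ) (R : Set A.V) (Z : Set (A.V × St)) : Prop :=
  ∀ v q, (v, q) ∈ Z → v ∈ R ∧ q ≠ St.dead ∧
    (A.isP v → ∃ e ∈ A.E, e.1 = v ∧ (e.2.2, step n q e.2.1) ∈ Z) ∧
    (¬ A.isP v → ∀ e ∈ A.E, e.1 = v → e.2.2 ∈ R → (e.2.2, step n q e.2.1) ∈ Z)

/-- Protagonist can keep the `n`-th automaton alive from `(v, q)`, inside `R` -/
def SafeWin (A : Arena (Fin 5)) (n : ℕ) (R : Set A.V) (v : A.V) (q : St) : Prop :=
  ∃ Z, IsSafe A n R Z ∧ (v, q) ∈ Z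

theorem SafeWin.mem {n : ℕ} {R : Set A.V} {v : A.V} {q : St} (h : SafeWin A n R v q) :
    v ∈ R ∧ q ≠ St.dead := by
  obtain ⟨Z, hZ, hv⟩ := h
  exact ⟨(hZ v q hv).1, (hZ v q hv).2.1⟩

theorem SafeWin.stepP {n : ℕ} {R : Set A.V} {v : A.V} {q : St} (h : SafeWin A n R v q)
    (hP : A.isP v) : ∃ e ∈ A.E, e.1 = v ∧ SafeWin A n R e.2.2 (step n q e.2.1) := by
  obtain ⟨Z, hZ, hv⟩ := h
  obtain ⟨e, he, he1, he2⟩ := (hZ v q hv).2.2.1 hP
  exact ⟨e, he, he1, Z, hZ, he2⟩

theorem SafeWin.stepA {n : ℕ} {R : Set A.V} {v : A.V} {q : St} (h : SafeWin A n R v q)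
    (hP : ¬ A.isP v) (e : A.Tri) (he : e ∈ A.E) (he1 : e.1 = v) (heR : e.2.2 ∈ R) :
    SafeWin A n R e.2.2 (step n q e.2.1) := by
  obtain ⟨Z, hZ, hv⟩ := h
  exact ⟨Z, hZ, (hZ v q hv).2.2.2 hP e he he1 heR⟩

theorem SafeWin.mono {n : ℕ} {R : Set A.V} {v : A.V} {q q' : St} (h : SafeWin A n R v q)
    (hq : Le n q q') : SafeWin A n R v q' := by
  refine ⟨{p | ∃ q, Le n q p.2 ∧ SafeWin A n R p.1 q}, ?_, q, hq, h⟩
  rintro v q' ⟨q, hq, h⟩
  refine ⟨h.mem.1, hq.alive h.mem.2, ?_, ?_⟩
  · intro hP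
    obtain ⟨e, he, he1, he2⟩ := h.stepP hP
    exact ⟨e, he, he1, _, step_mono n hq e.2.1, he2⟩
  · intro hP e he he1 heR
    exact ⟨_, step_mono n hq e.2.1, h.stepA hP e he he1 heR⟩

/-- the regions used in the decomposition of the winning set -/
structure Reg (A : Arena (Fin 5)) (R : Set A.V) : Prop where
  sub : R ⊆ winSet A WW
  P : ∀ v ∈ R, A.isP v → ∀ e ∈ A.E, e.1 = v → e.2.2 ∈ winSet A WW → e.2.2 ∈ R
  Ant : ∀ v ∈ R, ¬ A.isP v → ∃ e ∈ A.E, e.1 = v ∧ e.2.2 ∈ R

/-- **Key lemma**: in a nonempty region, Protagonist can keep some automaton alive from somewhere. -/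
theorem exists_safeWin {R : Set A.V} (hR : Reg A R) (hne : R.Nonempty) :
    ∃ n v, SafeWin A n R v St.top := by
  by_contra hcon
  push Not at hcon
  obtain ⟨v₀, hv₀⟩ := hne
  obtain ⟨S, hS⟩ := hR.sub hv₀
  let P : List A.Tri → Prop := fun h => Hist S v₀ h ∧ ∀ e ∈ h, e.2.2 ∈ R
  have hend : ∀ h, P h → A.endpt v₀ h ∈ R := by
    intro h hh
    rcases List.eq_nil_or_concat' h with rfl | ⟨h', e, rfl⟩
    · exact hv₀
    · rw [endpt_snoc]
      exact hh.2 e (by simp)
  refine not_winsFrom S v₀ P ⟨hist_nil S v₀, by simp⟩ (fun h hh => hh.1) ?_ hS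
  intro n h hh
  by_contra hno
  push Not at hno
  refine hcon n (A.endpt v₀ h) ⟨{p | ∃ g, P (h ++ g) ∧ p.1 = A.endpt v₀ (h ++ g) ∧
    p.2 = run n St.top (g.map fun e => e.2.1)}, ?_, [], by simpa using hh, by simp, by simp⟩
  rintro v q ⟨g, hg, rfl, rfl⟩
  refine ⟨hend _ hg, hno g hg, ?_, ?_⟩
  · intro hP
    have h1 := S.legal v₀ (h ++ g) hg.1.1 hP
    refine ⟨S.move v₀ (h ++ g), h1.1, h1.2, g ++ [S.move v₀ (h ++ g)], ?_, ?_, ?_⟩
    · rw [← List.append_assoc]
      have h2 : Hist S v₀ ((h ++ g) ++ [S.move v₀ (h ++ g)]) :=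
        hg.1.snoc h1.1 h1.2 (fun _ => rfl)
      refine ⟨h2, ?_⟩
      intro e he
      rw [List.mem_append, List.mem_singleton] at he
      rcases he with he | rfl
      · exact hg.2 e he
      · have h3 := mem_winSet_of_hist WW_prefixIndependent hS h2
        rw [endpt_snoc] at h3
        exact hR.P _ (hend _ hg) hP _ h1.1 h1.2 h3
    · rw [← List.append_assoc, endpt_snoc]
    · rw [List.map_append, run_append]
      rfl
  · intro hP e he he1 heR
    refine ⟨g ++ [e], ?_, ?_, ?_⟩
    · rw [← List.append_assoc]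
      refine ⟨hg.1.snoc he he1 (fun h => absurd (he1 ▸ h) hP), ?_⟩
      intro e' he'
      rw [List.mem_append, List.mem_singleton] at he'
      rcases he' with he' | rfl
      · exact hg.2 e' he'
      · exact heR
    · rw [← List.append_assoc, endpt_snoc]
    · rw [List.map_append, run_append]
      rfl

/-- a certificate: a strategy with two states of memory on the region `R` -/
structure Cert (A : Arena (Fin 5)) (R : Set A.V) where
  /-- valid pairs -/
  Val : Set (A.V × Bool)
  /-- the moves -/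
  sg : A.V → Bool → A.Tri
  /-- the memory updates -/
  mu : Bool → A.Tri → Bool
  init : ∀ v ∈ R, (v, false) ∈ Val
  sub : ∀ v i, (v, i) ∈ Val → v ∈ R
  stepP : ∀ v i, (v, i) ∈ Val → A.isP v →
    sg v i ∈ A.E ∧ (sg v i).1 = v ∧ ((sg v i).2.2, mu i (sg v i)) ∈ Val
  stepA : ∀ v i, (v, i) ∈ Val → ¬ A.isP v → ∀ e ∈ A.E, e.1 = v → e.2.2 ∈ R →
    (e.2.2, mu i e) ∈ Val
  wins : ∀ (x : ℕ → A.Tri) (i : ℕ → Bool), (∀ n, x n ∈ A.E ∧ ((x n).1, i n) ∈ Val ∧
    (x (n + 1)).1 = (x n).2.2 ∧ i (n + 1) = mu (i n) (x n) ∧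
    (A.isP (x n).1 → x n = sg (x n).1 (i n))) → (fun n => (x n).2.1) ∈ WW

section attractor

variable (A) (R X : Set A.V)

/-- the layers of the attractor of `X` inside `R` -/
def att : ℕ → Set A.V
  | 0 => X
  | m + 1 => att m ∪ {v | v ∈ R ∧ A.isP v ∧ ∃ e ∈ A.E, e.1 = v ∧ e.2.2 ∈ att m} ∪
      {v | v ∈ R ∧ ¬ A.isP v ∧ ∀ e ∈ A.E, e.1 = v → e.2.2 ∈ R → e.2.2 ∈ att m}

variable {A R X}

theorem att_mono : Monotone (att A R X) :=
  monotone_nat_of_le_succ fun _ _ hv => Or.inl (Or.inl hv)

theorem att_sub (hX : X ⊆ R) (m : ℕ) : att A R X m ⊆ R := by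
  induction m with
  | zero => exact hX
  | succ m ih =>
    rintro v ((hv | hv) | hv)
    · exact ih hv
    · exact hv.1
    · exact hv.1

/-- outside `X`, the attractor is left downwards -/
theorem att_down {m : ℕ} {v : A.V} (hv : v ∈ att A R X m) (hX : v ∉ X) :
    (A.isP v → ∃ e ∈ A.E, e.1 = v ∧ ∃ m', e.2.2 ∈ att A R X m' ∧ v ∉ att A R X m') ∧
    (¬ A.isP v → ∀ e ∈ A.E, e.1 = v → e.2.2 ∈ R →
      ∃ m', e.2.2 ∈ att A R X m' ∧ v ∉ att A R X m') := by
  induction m with
  | zero => exact absurd hv hX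
  | succ m ih =>
    by_cases hm : v ∈ att A R X m
    · exact ih hm
    · rcases hv with (hv | ⟨hvR, hP, e, he, he1, he2⟩) | ⟨hvR, hP, h⟩
      · exact absurd hv hm
      · exact ⟨fun _ => ⟨e, he, he1, m, he2, hm⟩, fun h => absurd hP h⟩
      · exact ⟨fun h => absurd h hP, fun _ e he he1 heR => ⟨m, h e he he1 heR, hm⟩⟩

theorem mem_att_A {v : A.V} (hvR : v ∈ R) (hP : ¬ A.isP v)
    (h : ∀ e ∈ A.E, e.1 = v → e.2.2 ∈ R → ∃ m, e.2.2 ∈ att A R X m) :
    ∃ m, v ∈ att A R X m := by
  classical
  have h' : ∀ e : A.Tri, ∃ m, e ∈ A.E → e.1 = v → e.2.2 ∈ R → e.2.2 ∈ att A R X m := by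
    intro e
    by_cases hc : e ∈ A.E ∧ e.1 = v ∧ e.2.2 ∈ R
    · obtain ⟨m, hm⟩ := h e hc.1 hc.2.1 hc.2.2
      exact ⟨m, fun _ _ _ => hm⟩
    · exact ⟨0, fun h1 h2 h3 => absurd ⟨h1, h2, h3⟩ hc⟩
  choose f hf using h'
  refine ⟨(A.finE.toFinset.sup f) + 1, Or.inr ⟨hvR, hP, ?_⟩⟩
  intro e he he1 heR
  have h1 : f e ≤ A.finE.toFinset.sup f := Finset.le_sup (by simpa using he)
  exact att_mono h1 (hf e he he1 heR)

end attractor

/-- existence of a least safe state in a chain -/
theorem exists_least {n : ℕ} {R : Set A.V} {v : A.V} {i : Bool}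
    (h : ∃ q, SafeWin A n R v q ∧ Le n q St.top ∧ chain q = i) :
    ∃ q, (SafeWin A n R v q ∧ Le n q St.top ∧ chain q = i) ∧
      ∀ q', SafeWin A n R v q' → Le n q' St.top → chain q' = i → Le n q q' := by
  obtain ⟨q, hq, hmin⟩ := WellFounded.has_min (InvImage.wf rk (wellFounded_lt (α := WithTop ℕ)))
    {q | SafeWin A n R v q ∧ Le n q St.top ∧ chain q = i} h
  refine ⟨q, hq, fun q' h1 h2 h3 => ?_⟩
  refine Le_of_rk hq.1.mem.2 h1.mem.2 hq.2.1 (hq.2.2.trans h3.symm) ?_
  exact not_lt.1 (hmin q' ⟨h1, h2, h3⟩)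

theorem exists_cert (N : ℕ) : ∀ R : Set A.V, R.ncard ≤ N → Reg A R → Nonempty (Cert A R) := by
  classical
  have hfinV : Finite A.V := A.finV
  induction N with
  | zero =>
    intro R hN hR
    have hempty : R = ∅ := (Set.ncard_eq_zero (Set.toFinite R)).1 (by omega)
    subst hempty
    obtain ⟨v0⟩ := A.neV
    obtain ⟨c0, v1, -⟩ := A.total v0
    exact ⟨{ Val := ∅
             sg := fun _ _ => (v0, c0, v1)
             mu := fun _ _ => false
             init := fun v hv => absurd hv (by simp)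
             sub := fun v i h => absurd h (by simp)
             stepP := fun v i h => absurd h (by simp)
             stepA := fun v i h => absurd h (by simp)
             wins := fun x i h => absurd (h 0).2.1 (by simp) }⟩
  | succ N ih =>
    intro R hN hR
    by_cases hne : R.Nonempty
    swap
    · exact ih R (by rw [Set.not_nonempty_iff_eq_empty.1 hne]; simp) hR
    obtain ⟨n, v₁, hv₁⟩ := exists_safeWin hR hne
    set X : Set A.V := {v | SafeWin A n R v St.top} with hXdef
    have hXR : X ⊆ R := fun v hv => hv.mem.1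
    set Y : Set A.V := {v | ∃ m, v ∈ att A R X m} with hYdef
    have hXY : X ⊆ Y := fun v hv => ⟨0, hv⟩
    have hYR : Y ⊆ R := by
      rintro v ⟨m, hm⟩
      exact att_sub hXR m hm
    set R' : Set A.V := R \ Y with hR'def
    have hR' : Reg A R' := by
      refine ⟨fun v hv => hR.sub hv.1, ?_, ?_⟩
      · rintro v ⟨hvR, hvY⟩ hP e he he1 hew
        have h1 := hR.P v hvR hP e he he1 hew
        refine ⟨h1, ?_⟩
        rintro ⟨m, hm⟩
        exact hvY ⟨m + 1, Or.inl (Or.inr ⟨hvR, hP, e, he, he1, hm⟩)⟩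
      · rintro v ⟨hvR, hvY⟩ hP
        by_contra hcon
        push Not at hcon
        refine hvY (mem_att_A hvR hP ?_)
        intro e he he1 heR
        by_contra hno
        exact hcon e he he1 ⟨heR, hno⟩
    have hcard : R'.ncard ≤ N := by
      have h1 : R'.ncard < R.ncard := by
        refine Set.ncard_lt_ncard ?_ (Set.toFinite R)
        refine ⟨Set.sdiff_subset, fun hcon => ?_⟩
        exact (hcon (hXR hv₁)).2 (hXY hv₁)
      omega
    obtain ⟨Ct⟩ := ih R' hcard hR'
    -- least safe states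
    set good : A.V → Bool → Prop := fun v i =>
      ∃ q, SafeWin A n R v q ∧ Le n q St.top ∧ chain q = i with hgood
    have hgoodX : ∀ v ∈ X, good v false := fun v hv => ⟨St.top, hv, Le.refl n _, rfl⟩
    set ell : A.V → Bool → St := fun v i => if h : good v i then (exists_least h).choose else St.top
      with hell
    have hell_spec : ∀ v i, good v i → (SafeWin A n R v (ell v i) ∧ Le n (ell v i) St.top ∧
        chain (ell v i) = i) ∧
        ∀ q', SafeWin A n R v q' → Le n q' St.top → chain q' = i → Le n (ell v i) q' := by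
      intro v i h
      simp only [hell, h, dif_pos]
      exact (exists_least h).choose_spec
    have hstep_good : ∀ v i c w, good v i → SafeWin A n R w (step n (ell v i) c) →
        w ∈ X ∧ good w (chain (step n (ell v i) c)) ∧
        Le n (ell w (chain (step n (ell v i) c))) (step n (ell v i) c) := by
      intro v i c w hg hs
      have h1 : Le n (step n (ell v i) c) St.top :=
        (step_mono n (hell_spec v i hg).1.2.1 c).trans (step_top_le n c)
      have h2 : good w (chain (step n (ell v i) c)) := ⟨_, hs, h1, rfl⟩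
      exact ⟨hs.mono h1, h2, (hell_spec w _ h2).2 _ hs h1 rfl⟩
    -- the moves
    have hmoveX : ∀ v i, ∃ e : A.Tri, good v i → A.isP v →
        e ∈ A.E ∧ e.1 = v ∧ SafeWin A n R e.2.2 (step n (ell v i) e.2.1) := by
      intro v i
      by_cases h : good v i ∧ A.isP v
      · obtain ⟨e, he⟩ := (hell_spec v i h.1).1.1.stepP h.2
        exact ⟨e, fun _ _ => he⟩
      · obtain ⟨c0, v1, -⟩ := A.total v
        exact ⟨(v, c0, v1), fun h1 h2 => absurd ⟨h1, h2⟩ h⟩
    choose mX hmX using hmoveX
    have hmoveY : ∀ v, ∃ e : A.Tri, v ∈ Y → v ∉ X → A.isP v →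
        e ∈ A.E ∧ e.1 = v ∧ ∃ m', e.2.2 ∈ att A R X m' ∧ v ∉ att A R X m' := by
      intro v
      by_cases h : v ∈ Y ∧ v ∉ X ∧ A.isP v
      · obtain ⟨⟨m, hm⟩, hvX, hP⟩ := h
        obtain ⟨e, he⟩ := (att_down hm hvX).1 hP
        exact ⟨e, fun _ _ _ => he⟩
      · obtain ⟨c0, v1, -⟩ := A.total v
        exact ⟨(v, c0, v1), fun h1 h2 h3 => absurd ⟨h1, h2, h3⟩ h⟩
    choose mY hmY using hmoveY
    set sg : A.V → Bool → A.Tri := fun v i =>
      if v ∈ Y then (if v ∈ X then mX v i else mY v) else Ct.sg v i with hsg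
    set mu : Bool → A.Tri → Bool := fun i e =>
      if e.2.2 ∈ Y then
        (if e.1 ∈ X ∧ e.2.2 ∈ X then chain (step n (ell e.1 i) e.2.1) else false)
      else Ct.mu i e with hmu
    set Val : Set (A.V × Bool) := {p | (p.1 ∉ Y ∧ p ∈ Ct.Val) ∨
      (p.1 ∈ Y ∧ p.1 ∉ X ∧ p.2 = false) ∨ (p.1 ∈ X ∧ good p.1 p.2)} with hVal
    have hValfalse : ∀ w ∈ Y, (w, false) ∈ Val := by
      intro w hw
      by_cases hwX : w ∈ X
      · exact Or.inr (Or.inr ⟨hwX, hgoodX w hwX⟩)
      · exact Or.inr (Or.inl ⟨hw, hwX, rfl⟩)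
    -- one step inside X
    have hXstep : ∀ v i (e : A.Tri), v ∈ X → good v i → e.1 = v →
        SafeWin A n R e.2.2 (step n (ell v i) e.2.1) →
        e.2.2 ∈ X ∧ mu i e = chain (step n (ell v i) e.2.1) ∧ (e.2.2, mu i e) ∈ Val := by
      intro v i e hvX hg he1 hs
      obtain ⟨h1, h2, -⟩ := hstep_good v i e.2.1 e.2.2 hg hs
      have h3 : mu i e = chain (step n (ell v i) e.2.1) := by
        simp only [hmu, hXY h1, if_true, he1, hvX, h1, and_self]
      refine ⟨h1, h3, Or.inr (Or.inr ⟨h1, ?_⟩)⟩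
      rw [h3]
      exact h2
    have hstepP : ∀ v i, (v, i) ∈ Val → A.isP v →
        sg v i ∈ A.E ∧ (sg v i).1 = v ∧ ((sg v i).2.2, mu i (sg v i)) ∈ Val := by
      intro v i hv hP
      rcases hv with ⟨hvY, hvV⟩ | ⟨hvY, hvX, hi⟩ | ⟨hvX, hg⟩
      · simp only at hvY
        have h1 : sg v i = Ct.sg v i := by simp only [hsg, hvY, if_false]
        obtain ⟨h2, h3, h4⟩ := Ct.stepP v i hvV hP
        rw [h1]
        refine ⟨h2, h3, ?_⟩
        have h5 : (Ct.sg v i).2.2 ∉ Y := (Ct.sub _ _ h4).2
        left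
        refine ⟨h5, ?_⟩
        simp only [hmu, h5, if_false]
        exact h4
      · simp only at hvY hvX hi
        have h1 : sg v i = mY v := by simp only [hsg, hvY, hvX, if_true, if_false]
        obtain ⟨h2, h3, m', h4, -⟩ := hmY v hvY hvX hP
        rw [h1]
        refine ⟨h2, h3, ?_⟩
        have h5 : (mY v).2.2 ∈ Y := ⟨m', h4⟩
        have h6 : mu i (mY v) = false := by
          have : ¬ ((mY v).1 ∈ X ∧ (mY v).2.2 ∈ X) := fun h => hvX (h3 ▸ h.1)
          simp only [hmu, h5, if_true, this, if_false]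
        rw [h6]
        exact hValfalse _ h5
      · simp only at hvX hg
        have h1 : sg v i = mX v i := by simp only [hsg, hXY hvX, hvX, if_true]
        obtain ⟨h2, h3, h4⟩ := hmX v i hg hP
        rw [h1]
        exact ⟨h2, h3, (hXstep v i _ hvX hg h3 h4).2.2⟩
    have hstepA : ∀ v i, (v, i) ∈ Val → ¬ A.isP v → ∀ e ∈ A.E, e.1 = v → e.2.2 ∈ R →
        (e.2.2, mu i e) ∈ Val := by
      intro v i hv hP e he he1 heR
      rcases hv with ⟨hvY, hvV⟩ | ⟨hvY, hvX, hi⟩ | ⟨hvX, hg⟩
      · simp only at hvY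
        by_cases heY : e.2.2 ∈ Y
        · have h6 : mu i e = false := by
            have : ¬ (e.1 ∈ X ∧ e.2.2 ∈ X) := fun h => hvY (hXY (he1 ▸ h.1))
            simp only [hmu, heY, if_true, this, if_false]
          rw [h6]
          exact hValfalse _ heY
        · left
          refine ⟨heY, ?_⟩
          simp only [hmu, heY, if_false]
          exact Ct.stepA v i hvV hP e he he1 ⟨heR, heY⟩
      · simp only at hvY hvX hi
        obtain ⟨m, hm⟩ := hvY
        obtain ⟨m', h4, -⟩ := (att_down hm hvX).2 hP e he he1 heR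
        have h5 : e.2.2 ∈ Y := ⟨m', h4⟩
        have h6 : mu i e = false := by
          have : ¬ (e.1 ∈ X ∧ e.2.2 ∈ X) := fun h => hvX (he1 ▸ h.1)
          simp only [hmu, h5, if_true, this, if_false]
        rw [h6]
        exact hValfalse _ h5
      · simp only at hvX hg
        have h4 := (hell_spec v i hg).1.1.stepA hP e he he1 heR
        exact (hXstep v i e hvX hg he1 h4).2.2
    have hsubV : ∀ v i, (v, i) ∈ Val → v ∈ R := by
      intro v i hv
      rcases hv with ⟨hvY, hvV⟩ | ⟨hvY, hvX, hi⟩ | ⟨hvX, hg⟩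
      · exact (Ct.sub v i hvV).1
      · exact hYR hvY
      · exact hXR hvX
    refine ⟨{ Val := Val
              sg := sg
              mu := mu
              init := ?_
              sub := hsubV
              stepP := hstepP
              stepA := hstepA
              wins := ?_ }⟩
    · intro v hv
      by_cases hvY : v ∈ Y
      · exact hValfalse v hvY
      · exact Or.inl ⟨hvY, Ct.init v ⟨hv, hvY⟩⟩
    · intro x i hx
      by_cases hY : ∃ n₀, (x n₀).1 ∈ Y
      swap
      · -- never in `Y`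
        push Not at hY
        refine Ct.wins x i (fun m => ?_)
        obtain ⟨h1, h2, h3, h4, h5⟩ := hx m
        have h6 : ((x m).1, i m) ∈ Ct.Val := by
          rcases h2 with ⟨-, h⟩ | ⟨h, -⟩ | ⟨h, -⟩
          · exact h
          · exact absurd h (hY m)
          · exact absurd (hXY h) (hY m)
        have h7 : (x m).2.2 ∉ Y := by rw [← h3]; exact hY (m + 1)
        refine ⟨h1, h6, h3, ?_, ?_⟩
        · rw [h4]
          simp only [hmu, h7, if_false]
        · intro hP
          have := h5 hP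
          simp only [hsg, hY m, if_false] at this
          exact this
      obtain ⟨n₀, hn₀⟩ := hY
      -- the play reaches `X`
      have hreach : ∀ m k, (x k).1 ∈ att A R X m → ∃ k' ≥ k, (x k').1 ∈ X := by
        intro m
        induction m using Nat.strong_induction_on with
        | _ m ihm =>
          intro k hk
          by_cases hkX : (x k).1 ∈ X
          · exact ⟨k, le_rfl, hkX⟩
          obtain ⟨h1, h2, h3, h4, h5⟩ := hx k
          have hnext : ∃ m', (x (k + 1)).1 ∈ att A R X m' ∧ (x k).1 ∉ att A R X m' := by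
            rw [h3]
            by_cases hP : A.isP (x k).1
            · have h6 := h5 hP
              have hkY : (x k).1 ∈ Y := ⟨m, hk⟩
              simp only [hsg, hkY, hkX, if_true, if_false] at h6
              obtain ⟨-, -, h7⟩ := hmY _ hkY hkX hP
              rwa [← h6] at h7
            · refine (att_down hk hkX).2 hP _ h1 rfl ?_
              rw [← h3]
              exact hsubV _ _ (hx (k + 1)).2.1
          obtain ⟨m', hm', hkm'⟩ := hnext
          have hlt : m' < m := by
            by_contra hcon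
            exact hkm' (att_mono (not_lt.1 hcon) hk)
          obtain ⟨k', hk', hX'⟩ := ihm m' hlt (k + 1) hm'
          exact ⟨k', by omega, hX'⟩
      obtain ⟨m₀, hm₀⟩ := hn₀
      obtain ⟨n₁, -, hn₁⟩ := hreach m₀ n₀ hm₀
      -- and stays there
      have hstay : ∀ k, (x (n₁ + k)).1 ∈ X ∧ good (x (n₁ + k)).1 (i (n₁ + k)) ∧
          Le n (ell (x (n₁ + k)).1 (i (n₁ + k)))
            (run n St.top (seg (fun n => (x n).2.1) n₁ k)) := by
        intro k
        induction k with
        | zero =>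
          have hg : good (x n₁).1 (i n₁) := by
            rcases (hx n₁).2.1 with ⟨h, -⟩ | ⟨-, h, -⟩ | ⟨-, h⟩
            · exact absurd (hXY hn₁) h
            · exact absurd hn₁ h
            · exact h
          exact ⟨hn₁, hg, (hell_spec _ _ hg).1.2.1⟩
        | succ k ihk =>
          obtain ⟨hkX, hkg, hkle⟩ := ihk
          obtain ⟨h1, h2, h3, h4, h5⟩ := hx (n₁ + k)
          have hs : SafeWin A n R (x (n₁ + k)).2.2
              (step n (ell (x (n₁ + k)).1 (i (n₁ + k))) (x (n₁ + k)).2.1) := by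
            by_cases hP : A.isP (x (n₁ + k)).1
            · have h6 := h5 hP
              simp only [hsg, hXY hkX, hkX, if_true] at h6
              have h7 := (hmX _ _ hkg hP).2.2
              rwa [← h6] at h7
            · refine (hell_spec _ _ hkg).1.1.stepA hP _ h1 rfl ?_
              rw [← h3]
              exact hsubV _ _ (hx (n₁ + k + 1)).2.1
          obtain ⟨h6, h7, h8⟩ := hXstep _ _ (x (n₁ + k)) hkX hkg rfl hs
          obtain ⟨-, h9, h10⟩ := hstep_good _ _ (x (n₁ + k)).2.1 _ hkg hs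
          rw [← h3] at h6 h9 h10
          rw [← h7, ← h4] at h9 h10
          refine ⟨h6, h9, ?_⟩
          rw [seg_succ, run_append]
          exact h10.trans (step_mono n hkle _)
      refine ⟨n, n₁, fun m => ?_⟩
      obtain ⟨-, h2, h3⟩ := hstay m
      exact h3.alive (hell_spec _ _ h2).1.1.mem.2

/-- **two states of general memory suffice** -/
theorem genSuffices_two : GenSuffices WW 2 := by
  classical
  refine ⟨by norm_num, fun A => ?_⟩
  have hfinV : Finite A.V := A.finV
  have hW := WW_prefixIndependent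
  set R := winSet A WW with hRdef
  have hR : Reg A R := by
    refine ⟨subset_rfl, fun v _ _ e _ _ h => h, fun v hv hP => ?_⟩
    obtain ⟨c, v', he⟩ := A.total v
    exact ⟨(v, c, v'), he, rfl, winSet_A hW hv hP _ he rfl⟩
  obtain ⟨Ct⟩ := exists_cert (A := A) R.ncard R le_rfl hR
  -- the memory
  let mem : A.Memory := ⟨Bool, inferInstance, false, Ct.mu⟩
  have harb : ∀ v : A.V, ∃ e : A.Tri, e ∈ A.E ∧ e.1 = v := fun v => by
    obtain ⟨c, v', he⟩ := A.total v
    exact ⟨(v, c, v'), he, rfl⟩
  choose arb harb1 harb2 using harb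
  let S : A.Strategy :=
    { move := fun v p =>
        if (A.endpt v p, mem.run p) ∈ Ct.Val then Ct.sg (A.endpt v p) (mem.run p)
        else arb (A.endpt v p)
      legal := by
        intro v p hp hP
        split_ifs with h
        · have := Ct.stepP _ _ h hP
          exact ⟨this.1, this.2.1⟩
        · exact ⟨harb1 _, harb2 _⟩ }
  refine ⟨S, ?_, mem, ?_, ?_⟩
  · intro v hv x hx hcx
    have hvR : v ∈ R := hv
    have hpath := fun m => IsPlay.isPath hx m
    have hrun : ∀ m, mem.run (pre x (m + 1)) = Ct.mu (mem.run (pre x m)) (x m) := by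
      intro m
      simp [Memory.run, pre_succ, mem]
    have hval : ∀ m, ((x m).1, mem.run (pre x m)) ∈ Ct.Val := by
      intro m
      induction m with
      | zero =>
        rw [hx.2.1]
        exact Ct.init v hvR
      | succ m ih =>
        rw [hx.2.2 m, hrun]
        by_cases hP : A.isP (x m).1
        · have h1 := hcx m hP
          have h2 : x m = Ct.sg (x m).1 (mem.run (pre x m)) := by
            have h3 : S.move v (pre x m) = Ct.sg (x m).1 (mem.run (pre x m)) := by
              simp only [S, (hpath m).2, ih, if_true]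
            exact h1.trans h3
          have h3 := (Ct.stepP _ _ ih hP).2.2
          rwa [← h2] at h3
        · exact Ct.stepA _ _ ih hP (x m) (hx.1 m) rfl
            (winSet_A hW (Ct.sub _ _ ih) hP _ (hx.1 m) rfl)
    refine Ct.wins x (fun m => mem.run (pre x m)) (fun m => ⟨hx.1 m, hval m, hx.2.2 m, hrun m, ?_⟩)
    intro hP
    have h3 : S.move v (pre x m) = Ct.sg (x m).1 (mem.run (pre x m)) := by
      simp only [S, (hpath m).2, hval m, if_true]
    exact (hcx m hP).trans h3
  · rfl
  · intro v p v' p' _ _ _ hend hrun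
    change (if (A.endpt v p, mem.run p) ∈ Ct.Val then Ct.sg (A.endpt v p) (mem.run p)
        else arb (A.endpt v p)) = (if (A.endpt v' p', mem.run p') ∈ Ct.Val then
        Ct.sg (A.endpt v' p') (mem.run p') else arb (A.endpt v' p'))
    rw [hend, hrun]

end Pool.Agent.H85.Mem
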