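import Pool.Agent.H85.MemAut

/-!
# Paths, plays, and the construction of losing plays
-/

namespace Pool.Agent.H85.Mem

open Arena

variable {C : Type} {A : Arena C}

theorem isPath_append (v : A.V) (p q : List A.Tri) :
    A.IsPath v (p ++ q) ↔ A.IsPath v p ∧ A.IsPath (A.endpt v p) q := by
  induction p generalizing v with
  | nil => simp [IsPath, endpt]
  | cons e p ih =>
    simp only [List.cons_append, IsPath, endpt]
    rw [ih]
    tauto

theorem endpt_append (v : A.V) (p q : List A.Tri) :
    A.endpt v (p ++ q) = A.endpt (A.endpt v p) q := by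
  induction p generalizing v with
  | nil => rfl
  | cons e p ih => simp only [List.cons_append, endpt]; exact ih _

theorem isPath_snoc (v : A.V) (p : List A.Tri) (e : A.Tri) :
    A.IsPath v (p ++ [e]) ↔ A.IsPath v p ∧ e ∈ A.E ∧ e.1 = A.endpt v p := by
  rw [isPath_append]
  simp [IsPath]

theorem endpt_snoc (v : A.V) (p : List A.Tri) (e : A.Tri) :
    A.endpt v (p ++ [e]) = e.2.2 := by
  rw [endpt_append]
  rfl

theorem pre_zero (x : ℕ → A.Tri) : pre x 0 = [] := rfl

theorem pre_succ (x : ℕ → A.Tri) (n : ℕ) : pre x (n + 1) = pre x n ++ [x n] := by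
  simp [pre, List.range_succ]

theorem isPlay_of_isPath {v : A.V} {x : ℕ → A.Tri} (h : ∀ n, A.IsPath v (pre x n)) :
    A.IsPlay v x := by
  have h1 : ∀ n, x n ∈ A.E ∧ (x n).1 = A.endpt v (pre x n) := by
    intro n
    have h2 := h (n + 1)
    rw [pre_succ, isPath_snoc] at h2
    exact h2.2
  refine ⟨fun n => (h1 n).1, ?_, fun n => ?_⟩
  · rw [(h1 0).2]; rfl
  · rw [(h1 (n + 1)).2, pre_succ, endpt_snoc]

theorem IsPlay.isPath {v : A.V} {x : ℕ → A.Tri} (h : A.IsPlay v x) (n : ℕ) :
    A.IsPath v (pre x n) ∧ A.endpt v (pre x n) = (x n).1 := by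
  induction n with
  | zero => exact ⟨trivial, h.2.1.symm⟩
  | succ n ih =>
    rw [pre_succ, isPath_snoc, endpt_snoc]
    exact ⟨⟨ih.1, h.1 n, ih.2.symm⟩, (h.2.2 n).symm⟩

/-- a finite path consistent with a strategy -/
def Hist (S : A.Strategy) (v : A.V) (h : List A.Tri) : Prop :=
  A.IsPath v h ∧ ∀ h₁ e h₂, h = h₁ ++ e :: h₂ → A.isP e.1 → e = S.move v h₁

theorem hist_nil (S : A.Strategy) (v : A.V) : Hist S v [] :=
  ⟨trivial, fun h₁ e h₂ h => by simp at h⟩

theorem Hist.snoc {S : A.Strategy} {v : A.V} {h : List A.Tri} (hh : Hist S v h) {e : A.Tri}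
    (he : e ∈ A.E) (he1 : e.1 = A.endpt v h) (heP : A.isP e.1 → e = S.move v h) :
    Hist S v (h ++ [e]) := by
  refine ⟨(isPath_snoc v h e).2 ⟨hh.1, he, he1⟩, ?_⟩
  intro h₁ e' h₂ heq hP
  rcases List.eq_nil_or_concat' h₂ with rfl | ⟨h₃, e'', rfl⟩
  · have h2 := List.append_inj' heq rfl
    have h3 : e = e' := by simpa using h2.2
    subst h3
    rw [← h2.1]
    exact heP hP
  · have heq' : h ++ [e] = (h₁ ++ e' :: h₃) ++ [e''] := by rw [heq]; simp
    have h2 := List.append_inj' heq' rfl
    exact hh.2 h₁ e' h₃ h2.1 hP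

theorem Hist.left {S : A.Strategy} {v : A.V} {h g : List A.Tri} (hh : Hist S v (h ++ g)) :
    Hist S v h := by
  refine ⟨((isPath_append v h g).1 hh.1).1, ?_⟩
  intro h₁ e h₂ heq hP
  refine hh.2 h₁ e (h₂ ++ g) ?_ hP
  rw [heq]
  simp

/-- the limit of an increasing sequence of words -/
theorem exists_word_limit {α : Type} (H g : ℕ → List α) (hH : ∀ s, H (s + 1) = H s ++ g s)
    (hg : ∀ s, g s ≠ []) : ∃ x : ℕ → α, ∀ s, (List.range (H s).length).map x = H s := by
  have hlen : ∀ s, s ≤ (H s).length := by
    intro s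
    induction s with
    | zero => exact Nat.zero_le _
    | succ s ih =>
      have := List.length_pos_iff.2 (hg s)
      rw [hH, List.length_append]
      omega
  have hpref : ∀ s t, s ≤ t → ∃ v, H t = H s ++ v := by
    intro s t hst
    induction t, hst using Nat.le_induction with
    | base => exact ⟨[], by simp⟩
    | succ t _ ih =>
      obtain ⟨v, hv⟩ := ih
      exact ⟨v ++ g t, by rw [hH, hv, List.append_assoc]⟩
  have hget : ∀ s t m (h1 : m < (H s).length) (h2 : m < (H t).length),
      (H s)[m] = (H t)[m] := by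
    intro s t m h1 h2
    rcases le_total s t with h | h
    · obtain ⟨v, hv⟩ := hpref s t h
      simp only [hv, List.getElem_append_left h1]
    · obtain ⟨v, hv⟩ := hpref t s h
      simp only [hv, List.getElem_append_left h2]
  refine ⟨fun m => (H (m + 1))[m]'(hlen (m + 1)), fun s => ?_⟩
  apply List.ext_getElem
  · simp
  · intro m h1 h2
    simp only [List.getElem_map, List.getElem_range]
    exact hget _ _ _ _ _

/-- **Construction of losing plays.** If `P` is a set of finite plays consistent with `S`, such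
that every member can be prolonged inside `P` so as to kill the top run of the `n`-th automaton,
for every `n`, then `S` does not win. -/
theorem not_winsFrom {A : Arena (Fin 5)} (S : A.Strategy) (v₀ : A.V) (P : List A.Tri → Prop)
    (h0 : P []) (hP : ∀ h, P h → Hist S v₀ h)
    (hkill : ∀ n h, P h → ∃ g, P (h ++ g) ∧ run n St.top (g.map fun e => e.2.1) = St.dead) :
    ¬ S.WinsFrom WW v₀ := by
  choose! ext hext1 hext2 using hkill
  -- the sequence of histories
  let H : ℕ → List A.Tri := fun s => Nat.rec [] (fun s h => h ++ ext (Nat.unpair s).1 h) s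
  have hHs : ∀ s, H (s + 1) = H s ++ ext (Nat.unpair s).1 (H s) := fun s => rfl
  have hPH : ∀ s, P (H s) := by
    intro s
    induction s with
    | zero => exact h0
    | succ s ih => rw [hHs]; exact hext1 _ _ ih
  have hne : ∀ s, ext (Nat.unpair s).1 (H s) ≠ [] := by
    intro s h
    have h1 := hext2 (Nat.unpair s).1 (H s) (hPH s)
    rw [h] at h1
    simp at h1
  obtain ⟨x, hx⟩ := exists_word_limit H (fun s => ext (Nat.unpair s).1 (H s)) hHs hne
  have hlen : ∀ s, s ≤ (H s).length := by
    intro s
    induction s with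
    | zero => exact Nat.zero_le _
    | succ s ih =>
      have := List.length_pos_iff.2 (hne s)
      rw [hHs, List.length_append]
      omega
  have hprefix : ∀ m, ∃ w, H m = pre x m ++ w := by
    intro m
    refine ⟨(H m).drop m, ?_⟩
    conv_lhs => rw [← List.take_append_drop m (H m)]
    congr 1
    conv_lhs => rw [← hx m]
    rw [← List.map_take, List.take_range, min_eq_left (hlen m)]
    rfl
  have hhist : ∀ m, Hist S v₀ (pre x m) := by
    intro m
    obtain ⟨w, hw⟩ := hprefix m
    have h1 := hP _ (hPH m)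
    rw [hw] at h1
    exact h1.left
  intro hwin
  have hplay : A.IsPlay v₀ x := isPlay_of_isPath fun n => (hhist n).1
  have hcons : S.Consistent v₀ x := by
    intro m hm
    exact (hhist (m + 1)).2 (pre x m) (x m) [] (by rw [pre_succ]) hm
  obtain ⟨n, t, hrun⟩ := hwin x hplay hcons
  set y : ℕ → Fin 5 := fun n => (x n).2.1 with hy
  -- a late stage devoted to `n`
  set s := Nat.pair n t with hs
  have hs1 : (Nat.unpair s).1 = n := by simp [hs]
  have hts : t ≤ (H s).length := (Nat.right_le_pair n t).trans (hlen s)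
  set T := (H s).length with hT
  set g := ext (Nat.unpair s).1 (H s) with hg
  have hsegg : seg y T g.length = g.map fun e => e.2.1 := by
    have h1 := hx (s + 1)
    rw [hHs, List.length_append, List.range_add, List.map_append, hx s] at h1
    have h2 := List.append_cancel_left h1
    rw [← hg] at h2
    conv_rhs => rw [← h2]
    simp only [seg, List.map_map]
    rfl
  have h1 := hrun ((T - t) + g.length)
  rw [seg_add, run_append] at h1
  have hTt : t + (T - t) = T := by omega
  rw [hTt, hsegg] at h1
  have h2 : Le n (run n St.top (seg y t (T - t))) St.top := run_le_top n (Le.refl n St.top) _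
  have h3 := (run_mono n h2 (g.map fun e => e.2.1)).alive h1
  have h4 := hext2 (Nat.unpair s).1 (H s) (hPH s)
  rw [hs1] at h4
  rw [hg, hs1] at h3
  exact h3 h4

end Pool.Agent.H85.Mem
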