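import Pool.Agent.H85.OT

/-!
# Restrictions on the order type of a well-ordered orbit of the doubling map
-/

open Ordinal Set Order

namespace Pool.Agent.H85

/-- the left-continuous doubling map on `(0,1]` -/
noncomputable def dbl (x : ℝ) : ℝ := if x ≤ 1 / 2 then 2 * x else 2 * x - 1

theorem dbl_of_le {x : ℝ} (h : x ≤ 1 / 2) : dbl x = 2 * x := if_pos h

theorem dbl_of_gt {x : ℝ} (h : 1 / 2 < x) : dbl x = 2 * x - 1 := if_neg (not_le.2 h)

/-- `a` is an injective orbit of the doubling map inside `(0,1)` -/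
structure Orb (a : ℕ → ℝ) : Prop where
  pos : ∀ i, 0 < a i
  lt_one : ∀ i, a i < 1
  step : ∀ i, a (i + 1) = dbl (a i)
  inj : Function.Injective a

/-- left limit points at which the set `A` has order type at least `ω ^ ξ` -/
def RR (A : Set ℝ) (ξ : Ordinal.{0}) : Set ℝ :=
  {x | 0 < x ∧ x ≤ 1 ∧ ∀ y < x, GeT (ω ^ ξ) (A ∩ Ico y x)}

theorem exists_limit {A : Set ℝ} {ξ : Ordinal.{0}} (hξ : ξ ≠ 0) {y z : ℝ}
    (h : GeT (ω ^ ξ) (A ∩ Ico y z)) :
    ∃ x, y < x ∧ x ≤ z ∧ ∀ y' < x, GeT (ω ^ ξ) (A ∩ Ico y' x) := by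
  obtain ⟨g, hg, hm⟩ := h
  have hlim : IsSuccLimit (ω ^ ξ : Ordinal.{0}) :=
    Ordinal.isSuccLimit_opow_left Ordinal.isSuccLimit_omega0 hξ
  have hpos : (0 : Ordinal.{0}) < ω ^ ξ := Ordinal.opow_pos _ Ordinal.omega0_pos
  have hone : (1 : Ordinal.{0}) < ω ^ ξ := Ordinal.one_lt_of_isSuccLimit hlim
  set I := g '' Iio (ω ^ ξ) with hI
  have hbdd : BddAbove I := by
    refine ⟨z, ?_⟩
    rintro _ ⟨β, hβ, rfl⟩
    exact (hm β hβ).2.2.le
  have hne : I.Nonempty := ⟨g 0, 0, hpos, rfl⟩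
  have hltsup : ∀ β < ω ^ ξ, g β < sSup I := by
    intro β hβ
    have h1 : succ β < ω ^ ξ := hlim.succ_lt hβ
    exact (hg hβ h1 (Order.lt_succ β)).trans_le (le_csSup hbdd ⟨succ β, h1, rfl⟩)
  refine ⟨sSup I, ?_, ?_, ?_⟩
  · exact (hm 0 hpos).2.1.trans_lt (hltsup 0 hpos)
  · refine csSup_le hne ?_
    rintro _ ⟨β, hβ, rfl⟩
    exact (hm β hβ).2.2.le
  · intro y' hy'
    obtain ⟨_, ⟨β₀, hβ₀, rfl⟩, hlt⟩ := exists_lt_of_lt_csSup hne hy'
    have hadd : ∀ β < ω ^ ξ, β₀ + β < ω ^ ξ := fun β hβ =>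
      Ordinal.isPrincipal_add_omega0_opow ξ hβ₀ hβ
    refine ⟨fun β => g (β₀ + β), ?_, ?_⟩
    · intro β hβ β' hβ' hlt'
      exact hg (hadd _ hβ) (hadd _ hβ') ((add_lt_add_iff_left _).2 hlt')
    · intro β hβ
      refine ⟨(hm _ (hadd _ hβ)).1, ?_, hltsup _ (hadd _ hβ)⟩
      refine hlt.le.trans ?_
      exact hg.monotoneOn hβ₀ (hadd _ hβ) le_self_add

theorem Orb.mem_dbl {a : ℕ → ℝ} (ha : Orb a) {x : ℝ} (hx : x ∈ range a) : dbl x ∈ range a := by
  obtain ⟨i, rfl⟩ := hx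
  exact ⟨i + 1, ha.step i⟩

theorem Orb.iter {a : ℕ → ℝ} (ha : Orb a) (i k : ℕ) : dbl^[k] (a i) = a (i + k) := by
  induction k with
  | zero => rfl
  | succ k ih => rw [Function.iterate_succ_apply', ih, ← ha.step]; rfl

theorem Orb.ne_half {a : ℕ → ℝ} (ha : Orb a) (i : ℕ) : a i ≠ 1 / 2 := by
  intro h
  have h1 := ha.step i
  have h2 := ha.lt_one (i + 1)
  rw [h1, h] at h2
  norm_num [dbl] at h2

theorem dbl_mem {x : ℝ} (h0 : 0 < x) (h1 : x ≤ 1) : 0 < dbl x ∧ dbl x ≤ 1 := by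
  unfold dbl
  split_ifs with h
  · constructor <;> linarith
  · constructor <;> linarith

theorem Orb.dbl_RR {a : ℕ → ℝ} (ha : Orb a) {ξ : Ordinal.{0}} {x : ℝ}
    (hx : x ∈ RR (range a) ξ) : dbl x ∈ RR (range a) ξ := by
  obtain ⟨h0, h1, hR⟩ := hx
  obtain ⟨h0', h1'⟩ := dbl_mem h0 h1
  refine ⟨h0', h1', ?_⟩
  intro y hy
  by_cases h : x ≤ 1 / 2
  · have hd : dbl x = 2 * x := dbl_of_le h
    rw [hd] at hy ⊢
    refine (hR (y / 2) (by linarith)).map (fun z => 2 * z) ?_ ?_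
    · intro u _ v _ huv
      change 2 * u < 2 * v
      linarith
    · rintro z ⟨hz, hz1, hz2⟩
      refine ⟨?_, ?_, ?_⟩
      · have := ha.mem_dbl hz
        have hz' : z ≤ 1 / 2 := by linarith
        rwa [dbl_of_le hz'] at this
      · change y ≤ 2 * z
        linarith
      · change 2 * z < 2 * x
        linarith
  · push Not at h
    have hd : dbl x = 2 * x - 1 := dbl_of_gt h
    rw [hd] at hy ⊢
    refine (hR (max ((y + 1) / 2) (1 / 2)) (max_lt (by linarith) h)).map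
      (fun z => 2 * z - 1) ?_ ?_
    · intro u _ v _ huv
      change 2 * u - 1 < 2 * v - 1
      linarith
    · rintro z ⟨hz, hz1, hz2⟩
      have hz3 : (y + 1) / 2 ≤ z := (le_max_left _ _).trans hz1
      have hz4 : 1 / 2 ≤ z := (le_max_right _ _).trans hz1
      refine ⟨?_, ?_, ?_⟩
      · obtain ⟨i, rfl⟩ := hz
        have h5 : 1 / 2 < a i := lt_of_le_of_ne hz4 (ha.ne_half i).symm
        refine ⟨i + 1, ?_⟩
        rw [ha.step i, dbl_of_gt h5]
      · change y ≤ 2 * z - 1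
        linarith
      · change 2 * z - 1 < 2 * x - 1
        linarith

/-- finitely many points of `RR` give a multiple of `ω ^ ξ` -/
theorem RR_card {A : Set ℝ} {ξ : Ordinal.{0}} (F : Finset ℝ) (hF : ↑F ⊆ RR A ξ) :
    GeT (ω ^ ξ * F.card) (A ∩ {z | ∃ x ∈ F, z < x}) := by
  induction F using Finset.induction_on_max with
  | empty => simpa using GeT_zero _
  | insert m F hm ih =>
    have hmF : m ∉ F := fun h => lt_irrefl _ (hm m h)
    rw [Finset.card_insert_of_notMem hmF, Nat.cast_succ, mul_add_one]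
    have ih' := ih (fun x hx => hF (by simp [Finset.mem_coe.1 hx]))
    have hmR : m ∈ RR A ξ := hF (by simp)
    -- lower bound of the last piece
    obtain ⟨y, hy, hyF⟩ : ∃ y < m, ∀ x ∈ F, x ≤ y := by
      by_cases hne : F.Nonempty
      · exact ⟨F.max' hne, hm _ (F.max'_mem hne), fun x hx => F.le_max' x hx⟩
      · exact ⟨m - 1, by linarith, fun x hx => absurd ⟨x, hx⟩ hne⟩
    refine (GeT.union ih' (hmR.2.2 y hy) ?_).mono ?_ le_rfl
    · rintro u ⟨-, x, hx, hux⟩ v ⟨-, hv1, hv2⟩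
      exact hux.trans_le ((hyF x hx).trans hv1)
    · rintro u (⟨hu, x, hx, hux⟩ | ⟨hu, hu1, hu2⟩)
      · exact ⟨hu, x, by simp [hx], hux⟩
      · exact ⟨hu, m, by simp, hu2⟩

theorem RR_finite {A : Set ℝ} {ξ α : Ordinal.{0}} {c : ℕ} (hα : α < ω ^ ξ * (c + 1 : ℕ))
    (hA : LeT A α) : (RR A ξ).Finite ∧ ∀ F : Finset ℝ, ↑F ⊆ RR A ξ → F.card ≤ c := by
  have key : ∀ F : Finset ℝ, ↑F ⊆ RR A ξ → F.card ≤ c := by
    intro F hF
    by_contra hcon
    push Not at hcon
    have h1 := RR_card F hF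
    have h2 := le_of_LeT_GeT (hA.mono inter_subset_left le_rfl) h1
    have h3 : ω ^ ξ * (c + 1 : ℕ) ≤ ω ^ ξ * F.card :=
      mul_le_mul_right (by exact_mod_cast hcon) _
    exact absurd hα (not_lt.2 (h3.trans h2))
  refine ⟨?_, key⟩
  by_contra hinf
  obtain ⟨F, hF, hcard⟩ := Set.Infinite.exists_subset_card_eq hinf (c + 1)
  have := key F hF
  omega

/-- local form of the doubling map to the left of a point -/
theorem dbl_iter_local {x : ℝ} (h0 : 0 < x) (h1 : x ≤ 1) (p : ℕ) :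
    ∃ ε > 0, ∀ y, x - ε < y → y ≤ x → dbl^[p] y = dbl^[p] x - 2 ^ p * (x - y) := by
  induction p generalizing x with
  | zero => exact ⟨1, one_pos, fun y _ _ => by simp⟩
  | succ p ih =>
    obtain ⟨h0', h1'⟩ := dbl_mem h0 h1
    obtain ⟨ε, hε, H⟩ := ih h0' h1'
    by_cases h : x ≤ 1 / 2
    · refine ⟨ε / 2, by positivity, fun y hy1 hy2 => ?_⟩
      rw [Function.iterate_succ_apply, Function.iterate_succ_apply]
      have hdx : dbl x = 2 * x := dbl_of_le h
      have hdy : dbl y = 2 * y := dbl_of_le (hy2.trans h)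
      rw [hdx] at H ⊢
      rw [hdy, H (2 * y) (by linarith) (by linarith)]
      ring
    · push Not at h
      refine ⟨min (ε / 2) (x - 1 / 2), lt_min (by positivity) (by linarith),
        fun y hy1 hy2 => ?_⟩
      have hy3 : x - ε / 2 < y := by
        have := min_le_left (ε / 2) (x - 1 / 2)
        linarith
      have hy4 : 1 / 2 < y := by
        have := min_le_right (ε / 2) (x - 1 / 2)
        linarith
      rw [Function.iterate_succ_apply, Function.iterate_succ_apply]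
      have hdx : dbl x = 2 * x - 1 := dbl_of_gt h
      have hdy : dbl y = 2 * y - 1 := dbl_of_gt hy4
      rw [hdx] at H ⊢
      rw [hdy, H (2 * y - 1) (by linarith) (by linarith)]
      ring

/-- the orbit near a periodic point of `RR` -/
theorem RR_periodic {a : ℕ → ℝ} (ha : Orb a) {ξ α : Ordinal.{0}} {c : ℕ} (hξ : ξ ≠ 0)
    (hα : α < ω ^ ξ * (c + 1 : ℕ)) (hA : LeT (range a) α) (hG : GeT (ω ^ ξ) (range a)) :
    ∃ x ∈ RR (range a) ξ, ∃ p, 0 < p ∧ dbl^[p] x = x := by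
  obtain ⟨hfin, -⟩ := RR_finite hα hA
  have hne : (RR (range a) ξ).Nonempty := by
    have h1 : GeT (ω ^ ξ) (range a ∩ Ico 0 1) := by
      refine hG.mono ?_ le_rfl
      rintro _ ⟨i, rfl⟩
      exact ⟨⟨i, rfl⟩, (ha.pos i).le, ha.lt_one i⟩
    obtain ⟨x, hx0, hx1, hx⟩ := exists_limit hξ h1
    exact ⟨x, hx0, hx1, hx⟩
  obtain ⟨x₀, hx₀⟩ := hne
  have hmem : ∀ n, dbl^[n] x₀ ∈ RR (range a) ξ := by
    intro n
    induction n with
    | zero => exact hx₀
    | succ n ih => rw [Function.iterate_succ_apply']; exact ha.dbl_RR ih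
  obtain ⟨m, n, hmn, heq⟩ := hfin.exists_lt_map_eq_of_forall_mem hmem
  refine ⟨dbl^[m] x₀, hmem m, n - m, by omega, ?_⟩
  rw [← Function.iterate_add_apply]
  have : n - m + m = n := by omega
  rw [this, heq]

theorem dbl_iter_near {x ε : ℝ} {p : ℕ} (hp : dbl^[p] x = x)
    (H : ∀ y, x - ε < y → y ≤ x → dbl^[p] y = dbl^[p] x - 2 ^ p * (x - y)) {e : ℝ}
    (he : e < ε) (j : ℕ) : ∀ y, y ≤ x → (2 ^ p) ^ j * (x - y) ≤ (2 ^ p) * e →
      (j = 0 ∨ (2 ^ p) ^ (j - 1) * (x - y) ≤ e) →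
      (dbl^[p])^[j] y = x - (2 ^ p) ^ j * (x - y) := by
  induction j with
  | zero => intro y _ _ _; simp
  | succ j ih =>
    intro y hyx _ h2
    have h3 : (2 ^ p) ^ j * (x - y) ≤ e := by
      rcases h2 with h2 | h2
      · omega
      · simpa using h2
    have hK : (1 : ℝ) ≤ 2 ^ p := one_le_pow₀ (by norm_num)
    have hxy : 0 ≤ x - y := by linarith
    have hnn : 0 ≤ (2 ^ p : ℝ) ^ j * (x - y) := by positivity
    have h4 : (2 ^ p) ^ j * (x - y) ≤ (2 ^ p) * e := by nlinarith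
    have h5 : j = 0 ∨ (2 ^ p) ^ (j - 1) * (x - y) ≤ e := by
      rcases Nat.eq_zero_or_pos j with hj | hj
      · exact Or.inl hj
      · right
        refine le_trans ?_ h3
        refine mul_le_mul_of_nonneg_right ?_ hxy
        exact pow_le_pow_right₀ hK (by omega)
    rw [Function.iterate_succ_apply', ih y hyx h4 h5, H _ (by linarith) (by linarith), hp]
    ring

/-- **Structure at the top rank.** -/
theorem top_exponent {a : ℕ → ℝ} (ha : Orb a) {ξ α : Ordinal.{0}} {c : ℕ} (hξ : ξ ≠ 0)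
    (hα : α < ω ^ ξ * (c + 1 : ℕ)) (hA : LeT (range a) α) (hG : GeT (ω ^ ξ) (range a)) :
    ∃ γ, 1 ≤ γ ∧ ξ = γ + 1 := by
  obtain ⟨x, hxR, p, hp0, hp⟩ := RR_periodic ha hξ hα hA hG
  obtain ⟨hfin, -⟩ := RR_finite hα hA
  obtain ⟨h0, h1, hR⟩ := hxR
  obtain ⟨ε, hε, H⟩ := dbl_iter_local h0 h1 p
  -- no other point of RR just below x
  obtain ⟨ε', hε', H'⟩ : ∃ ε' > 0, ∀ z ∈ RR (range a) ξ, z < x → z ≤ x - ε' := by
    have hfin' : ({z ∈ RR (range a) ξ | z < x}).Finite := hfin.subset (fun z hz => hz.1)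
    by_cases hne : ({z ∈ RR (range a) ξ | z < x}).Nonempty
    · obtain ⟨m, hm, hmax⟩ := hfin'.exists_maximal hne
      refine ⟨x - m, by linarith [hm.2], fun z hz hzx => ?_⟩
      rcases le_total z m with h | h
      · linarith
      · have := hmax ⟨hz, hzx⟩ h
        linarith
    · exact ⟨1, one_pos, fun z hz hzx => absurd ⟨z, hz, hzx⟩ hne⟩
  obtain ⟨e, he0, he1, he2⟩ : ∃ e > 0, e < ε ∧ e < ε' := by
    refine ⟨min ε ε' / 2, by positivity, ?_, ?_⟩
    · have := min_le_left ε ε'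
      linarith
    · have := min_le_right ε ε'
      linarith
  set K : ℝ := 2 ^ p with hKdef
  have hK : 2 ≤ K := by
    calc (2 : ℝ) = 2 ^ 1 := by norm_num
      _ ≤ 2 ^ p := pow_le_pow_right₀ (by norm_num) hp0
  set D := range a ∩ Ico (x - e) (x - e / K) with hD
  have hDnot : ¬ GeT (ω ^ ξ) D := by
    intro hcon
    obtain ⟨z, hz1, hz2, hz3⟩ := exists_limit hξ hcon
    have he3 : 0 < e / K := by positivity
    have hz0 : 0 < z := by
      obtain ⟨g, hg, hm⟩ := hz3 (z - 1) (by linarith)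
      obtain ⟨⟨i, hi⟩, -, hlt⟩ := hm 0 (Ordinal.opow_pos _ Ordinal.omega0_pos)
      have := ha.pos i
      linarith
    have := H' z ⟨hz0, by linarith, hz3⟩ (by linarith)
    linarith
  obtain ⟨θ, hθ, hDθ⟩ := (hA.mono (inter_subset_left : D ⊆ range a) le_rfl).lt_of_not_GeT hDnot
  set B := range a ∩ Ico (x - e) x with hB
  have hBG : GeT (ω ^ ξ) B := hR (x - e) (by linarith)
  -- the level function
  have hex : ∀ z, x - e ≤ z → z < x → ∃ j : ℕ, K ^ j * (x - z) ≤ e ∧ e < K ^ (j + 1) * (x - z) := by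
    intro z hz1 hz2
    obtain ⟨n, hn⟩ := exists_nat_pow_near (x := e / (x - z)) (y := K)
      ((one_le_div (by linarith)).2 (by linarith)) (by linarith)
    refine ⟨n, ?_, ?_⟩
    · have := hn.1
      rwa [le_div_iff₀ (by linarith)] at this
    · have := hn.2
      rwa [div_lt_iff₀ (by linarith)] at this
  classical
  set lev : ℝ → ℕ := fun z => if h : ∃ j : ℕ, K ^ j * (x - z) ≤ e ∧ e < K ^ (j + 1) * (x - z)
    then h.choose else 0 with hlev
  have hlev_spec : ∀ z, x - e ≤ z → z < x →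
      K ^ (lev z) * (x - z) ≤ e ∧ e < K ^ (lev z + 1) * (x - z) := by
    intro z hz1 hz2
    have h := hex z hz1 hz2
    simp only [hlev, h, dif_pos]
    exact h.choose_spec
  have hmono : MonotoneOn lev B := by
    rintro u ⟨-, hu1, hu2⟩ v ⟨-, hv1, hv2⟩ huv
    by_contra hcon
    push Not at hcon
    obtain ⟨h3, -⟩ := hlev_spec u hu1 hu2
    obtain ⟨-, h4⟩ := hlev_spec v hv1 hv2
    have h5 : K ^ (lev v + 1) ≤ K ^ lev u := pow_le_pow_right₀ (by linarith) hcon
    have h6 : K ^ (lev v + 1) * (x - v) ≤ K ^ lev u * (x - u) :=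
      mul_le_mul h5 (by linarith) (by linarith) (by positivity)
    linarith
  have hiter : ∀ z ∈ B, (dbl^[p])^[lev z] z = x - K ^ lev z * (x - z) ∧
      (dbl^[p])^[lev z] z ∈ D := by
    rintro z ⟨hz, hz1, hz2⟩
    obtain ⟨h3, h4⟩ := hlev_spec z hz1 hz2
    have h5 : (dbl^[p])^[lev z] z = x - K ^ lev z * (x - z) := by
      refine dbl_iter_near hp H he1 (lev z) z hz2.le ?_ ?_
      · nlinarith
      · rcases Nat.eq_zero_or_pos (lev z) with hj | hj
        · exact Or.inl hj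
        · right
          refine le_trans ?_ h3
          refine mul_le_mul_of_nonneg_right ?_ (by linarith)
          exact pow_le_pow_right₀ (by linarith) (by omega)
    refine ⟨h5, ?_, ?_, ?_⟩
    · obtain ⟨i, rfl⟩ := hz
      rw [← Function.iterate_mul, ha.iter]
      exact ⟨_, rfl⟩
    · rw [h5]; linarith
    · rw [h5]
      have h7 : e / K < K ^ lev z * (x - z) := by
        rw [div_lt_iff₀ (by linarith)]
        calc e < K ^ (lev z + 1) * (x - z) := h4
          _ = K ^ lev z * (x - z) * K := by ring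
      linarith
  have hBle : LeT B (θ * ω) := by
    refine LeT_chain_mul lev hmono θ (fun n => ?_)
    refine hDθ.comap (fun z => (dbl^[p])^[n] z) ?_ ?_
    · rintro u ⟨hu, hun⟩ v ⟨hv, hvn⟩ huv
      have h3 := (hiter u hu).1
      have h4 := (hiter v hv).1
      rw [hun] at h3
      rw [hvn] at h4
      change (dbl^[p])^[n] u < (dbl^[p])^[n] v
      rw [h3, h4]
      have : K ^ n * (x - v) < K ^ n * (x - u) :=
        mul_lt_mul_of_pos_left (by linarith) (by positivity)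
      linarith
    · rintro u ⟨hu, hun⟩
      have := (hiter u hu).2
      rw [hun] at this
      exact this
  have hle : ω ^ ξ ≤ θ * ω := le_of_LeT_GeT hBle hBG
  obtain ⟨c', hc', n, hn⟩ := (Ordinal.lt_omega0_opow hξ).1 hθ
  have h2 : θ * ω ≤ ω ^ (c' + 1) := by
    have h3 : θ * ω ≤ ω ^ c' * n * ω := mul_le_mul_left hn.le _
    have h4 : ω ^ c' * n * ω ≤ ω ^ (c' + 1) := by
      rw [mul_assoc, Ordinal.opow_add_one]
      refine mul_le_mul_right ?_ _
      rcases Nat.eq_zero_or_pos n with h | h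
      · simp [h]
      · rw [Ordinal.natCast_mul_omega0 h]
    exact h3.trans h4
  have h5 : ξ ≤ c' + 1 := (Ordinal.opow_le_opow_iff_right Ordinal.one_lt_omega0).1 (hle.trans h2)
  have h6 : ξ = c' + 1 := le_antisymm h5 (by
    rw [← Order.succ_eq_add_one]; exact Order.succ_le_of_lt hc')
  refine ⟨c', ?_, h6⟩
  by_contra hc0
  have hc0' : c' = 0 := by
    rw [← Order.lt_one_iff]
    exact not_le.1 hc0
  subst hc0'
  -- `D` is finite
  have hDfin : D.Finite := by
    obtain ⟨f, hf, hb⟩ := hDθ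
    have hθn : θ ≤ n := by simpa using hn.le
    refine Set.Finite.of_finite_image (f := f) ?_ hf.injOn
    refine (Set.finite_Iio (n : ℕ)).image (fun k : ℕ => (k : Ordinal.{0})) |>.subset ?_
    rintro _ ⟨z, hz, rfl⟩
    have h7 := (hb z hz).trans_le hθn
    obtain ⟨k, hk⟩ := Ordinal.lt_omega0.1 (h7.trans (Ordinal.natCast_lt_omega0 n))
    refine ⟨k, ?_, hk.symm⟩
    rw [hk] at h7
    exact_mod_cast h7
  have hidx : {i | a i ∈ D}.Finite := hDfin.preimage ha.inj.injOn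
  obtain ⟨M, hM⟩ := hidx.bddAbove
  have hBfin : B.Finite := by
    refine ((Set.finite_Iic M).image a).subset ?_
    intro z hz
    have h8 := (hiter z hz).2
    obtain ⟨⟨i, rfl⟩, -⟩ := hz
    rw [← Function.iterate_mul, ha.iter] at h8
    have := hM h8
    exact ⟨i, by simp only [mem_Iic]; omega, rfl⟩
  -- but it has infinite type
  obtain ⟨g, hg, hm⟩ := hBG
  have : (Iio (ω ^ ξ : Ordinal.{0})).Finite := by
    refine Set.Finite.of_finite_image (f := g) (hBfin.subset ?_) hg.injOn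
    rintro _ ⟨β, hβ, rfl⟩
    exact hm β hβ
  have h9 : (range (fun k : ℕ => (k : Ordinal.{0}))).Finite := by
    refine this.subset ?_
    rintro _ ⟨k, rfl⟩
    refine (Ordinal.natCast_lt_omega0 k).trans_le ?_
    rw [h6]
    simp
  exact Set.infinite_range_of_injective Nat.cast_injective h9

/-- If there is only one top block then nothing lies above it. -/
theorem top_single {a : ℕ → ℝ} (ha : Orb a) {ξ δ : Ordinal.{0}} (hξ : ξ ≠ 0)
    (hδ : δ < ω ^ ξ) (hA : LeT (range a) (ω ^ ξ + δ)) (hG : GeT (ω ^ ξ + δ) (range a)) :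
    δ = 0 := by
  have hα : ω ^ ξ + δ < ω ^ ξ * ((1 : ℕ) + 1 : ℕ) := by
    rw [Nat.cast_add, Nat.cast_one, mul_add, mul_one]
    exact (add_lt_add_iff_left _).2 hδ
  obtain ⟨hfin, hcard⟩ := RR_finite hα hA
  obtain ⟨x, hx, -⟩ := RR_periodic ha hξ hα hA (hG.mono subset_rfl le_self_add)
  have hsub : ∀ z ∈ RR (range a) ξ, z = x := by
    intro z hz
    by_contra hne
    have := hcard {z, x} (by
      intro w hw
      simp only [Finset.coe_insert, Finset.coe_singleton, mem_insert_iff,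
        mem_singleton_iff] at hw
      rcases hw with rfl | rfl
      · exact hz
      · exact hx)
    rw [Finset.card_pair hne] at this
    omega
  have hx1 : x = 1 := by
    have h1 := hsub _ (ha.dbl_RR hx)
    obtain ⟨h0, h1', -⟩ := hx
    by_cases h : x ≤ 1 / 2
    · rw [dbl_of_le h] at h1
      linarith
    · rw [dbl_of_gt (not_le.1 h)] at h1
      linarith
  by_contra hδ0
  have hδpos : 0 < δ := pos_iff_ne_zero.2 hδ0
  obtain ⟨g, hg, hm⟩ := hG
  have hlt : ω ^ ξ < ω ^ ξ + δ := by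
    simpa using (add_lt_add_iff_left (ω ^ ξ)).2 hδpos
  obtain ⟨i, hi⟩ := hm (ω ^ ξ) hlt
  have h1 : GeT (ω ^ ξ) (range a ∩ Ico 0 (g (ω ^ ξ))) := by
    refine ⟨g, hg.mono (Iio_subset_Iio hlt.le), fun β hβ => ⟨hm β (hβ.trans hlt), ?_, ?_⟩⟩
    · obtain ⟨k, hk⟩ := hm β (hβ.trans hlt)
      rw [← hk]
      exact (ha.pos k).le
    · exact hg (hβ.trans hlt) hlt hβ
  obtain ⟨z, hz1, hz2, hz3⟩ := exists_limit hξ h1
  have h2 := ha.lt_one i
  have := hsub z ⟨hz1, by linarith, hz3⟩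
  linarith

end Pool.Agent.H85
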