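import Mathlib

/-!
# Order types of subsets of the real line, by explicit strictly monotone maps

`LeT S θ` says that the set `S` of reals embeds strictly monotonically in the ordinals below `θ`,
`GeT θ S` says that the ordinals below `θ` embed strictly monotonically in `S`.
-/

open Ordinal Set Order

namespace Pool.Agent.H85

/-- the set `S` has order type at most `θ` -/
def LeT (S : Set ℝ) (θ : Ordinal.{0}) : Prop :=
  ∃ f : ℝ → Ordinal.{0}, StrictMonoOn f S ∧ ∀ x ∈ S, f x < θ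

/-- the set `S` has order type at least `θ` -/
def GeT (θ : Ordinal.{0}) (S : Set ℝ) : Prop :=
  ∃ g : Ordinal.{0} → ℝ, StrictMonoOn g (Iio θ) ∧ ∀ β < θ, g β ∈ S

theorem LeT.mono {S S' : Set ℝ} {θ θ' : Ordinal.{0}} (h : LeT S θ) (hS : S' ⊆ S) (hθ : θ ≤ θ') :
    LeT S' θ' := by
  obtain ⟨f, hf, hlt⟩ := h
  exact ⟨f, hf.mono hS, fun x hx => (hlt x (hS hx)).trans_le hθ⟩

theorem GeT.mono {S S' : Set ℝ} {θ θ' : Ordinal.{0}} (h : GeT θ S) (hS : S ⊆ S') (hθ : θ' ≤ θ) :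
    GeT θ' S' := by
  obtain ⟨g, hg, hm⟩ := h
  exact ⟨g, hg.mono (Iio_subset_Iio hθ), fun β hβ => hS (hm β (hβ.trans_le hθ))⟩

/-- comparison of the two notions -/
theorem le_of_LeT_GeT {S : Set ℝ} {θ θ' : Ordinal.{0}} (h : LeT S θ) (h' : GeT θ' S) :
    θ' ≤ θ := by
  obtain ⟨f, hf, hlt⟩ := h
  obtain ⟨g, hg, hm⟩ := h'
  by_contra hcon
  push Not at hcon
  have key : ∀ β < θ', β ≤ f (g β) := by
    intro β
    induction β using WellFoundedLT.induction with
    | _ β ih =>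
      intro hβ
      by_contra hlt'
      push Not at hlt'
      have h1 := ih (f (g β)) hlt' (hlt'.trans hβ)
      have h2 : g (f (g β)) < g β := hg (hlt'.trans hβ) hβ hlt'
      have h3 : f (g (f (g β))) < f (g β) := hf (hm _ (hlt'.trans hβ)) (hm _ hβ) h2
      exact absurd h3 (not_lt.2 h1)
  exact absurd (hlt _ (hm θ hcon)) (not_lt.2 (key θ hcon))

theorem LeT.comap {S S' : Set ℝ} {θ : Ordinal.{0}} (h : LeT S' θ) (φ : ℝ → ℝ)
    (hφ : StrictMonoOn φ S) (hm : MapsTo φ S S') : LeT S θ := by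
  obtain ⟨f, hf, hlt⟩ := h
  exact ⟨f ∘ φ, hf.comp hφ hm, fun x hx => hlt _ (hm hx)⟩

theorem GeT.map {S S' : Set ℝ} {θ : Ordinal.{0}} (h : GeT θ S) (φ : ℝ → ℝ)
    (hφ : StrictMonoOn φ S) (hm : MapsTo φ S S') : GeT θ S' := by
  obtain ⟨g, hg, hmg⟩ := h
  exact ⟨φ ∘ g, hφ.comp hg (fun β hβ => hmg β hβ), fun β hβ => hm (hmg β hβ)⟩

theorem LeT_empty (θ : Ordinal.{0}) : LeT ∅ θ :=
  ⟨fun _ => 0, fun x hx => absurd hx (by simp), fun x hx => absurd hx (by simp)⟩

theorem GeT_zero (S : Set ℝ) : GeT 0 S :=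
  ⟨fun _ => 0, fun x hx => absurd hx (by simp), fun x hx => absurd hx (by simp)⟩

theorem LeT_subsingleton {S : Set ℝ} (h : S.Subsingleton) : LeT S 1 :=
  ⟨fun _ => 0, fun _ hx _ hy hxy => absurd (h hx hy) hxy.ne, fun _ _ => zero_lt_one⟩

theorem GeT_one {S : Set ℝ} (h : S.Nonempty) : GeT 1 S := by
  obtain ⟨x, hx⟩ := h
  refine ⟨fun _ => x, fun α hα β hβ hab => ?_, fun β _ => hx⟩
  simp only [mem_Iio, Order.lt_one_iff] at hα hβ
  simp [hα, hβ] at hab

/-- a well-ordered set of reals has an exact type in this sense -/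
theorem type_spec (S : Set ℝ) [hw : IsWellOrder S (· < ·)] :
    LeT S (Ordinal.type ((· < ·) : S → S → Prop)) ∧
    GeT (Ordinal.type ((· < ·) : S → S → Prop)) S := by
  classical
  constructor
  · refine ⟨fun x => if hx : x ∈ S then Ordinal.typein ((· < ·) : S → S → Prop) ⟨x, hx⟩ else 0,
      ?_, ?_⟩
    · intro x hx y hy hxy
      simp only [hx, hy, dif_pos]
      exact (Ordinal.typein_lt_typein _).2 hxy
    · intro x hx
      simp only [hx, dif_pos]
      exact Ordinal.typein_lt_type _ _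
  · refine ⟨fun β => if hβ : β < Ordinal.type ((· < ·) : S → S → Prop) then
      (Ordinal.enum ((· < ·) : S → S → Prop) ⟨β, hβ⟩ : S) else 0, ?_, ?_⟩
    · intro β hβ β' hβ' hlt
      simp only [mem_Iio] at hβ hβ'
      simp only [hβ, hβ', dif_pos]
      have := (Ordinal.enum_lt_enum (r := ((· < ·) : S → S → Prop))
        (o₁ := ⟨β, hβ⟩) (o₂ := ⟨β', hβ'⟩)).2 hlt
      exact this
    · intro β hβ
      simp only [hβ, dif_pos]
      exact Subtype.coe_prop _

theorem LeT.isWellOrder {S : Set ℝ} {θ : Ordinal.{0}} (h : LeT S θ) :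
    IsWellOrder S (· < ·) := by
  obtain ⟨f, hf, -⟩ := h
  have hwf : WellFounded ((· < ·) : S → S → Prop) := by
    refine Subrelation.wf (r := InvImage (· < ·) (fun x : S => f x)) ?_
      (InvImage.wf _ Ordinal.lt_wf)
    intro x y hxy
    exact hf x.2 y.2 hxy
  exact { wf := hwf }

theorem type_eq_of {S : Set ℝ} {θ : Ordinal.{0}} (h : LeT S θ) (h' : GeT θ S)
    (hw : IsWellOrder S (· < ·)) : Ordinal.type ((· < ·) : S → S → Prop) = θ := by
  obtain ⟨h1, h2⟩ := type_spec S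
  exact le_antisymm (le_of_LeT_GeT h h2) (le_of_LeT_GeT h1 h')

/-- exact type for a subset of a well-ordered set -/
theorem LeT.exists_exact {S : Set ℝ} {θ : Ordinal.{0}} (h : LeT S θ) :
    ∃ τ ≤ θ, LeT S τ ∧ GeT τ S := by
  have := h.isWellOrder
  obtain ⟨h1, h2⟩ := type_spec S
  exact ⟨_, le_of_LeT_GeT h h2, h1, h2⟩

theorem LeT.lt_of_not_GeT {S : Set ℝ} {θ ξ : Ordinal.{0}} (h : LeT S θ) (h' : ¬ GeT ξ S) :
    ∃ τ < ξ, LeT S τ := by
  obtain ⟨τ, -, h1, h2⟩ := h.exists_exact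
  refine ⟨τ, ?_, h1⟩
  by_contra hcon
  exact h' (h2.mono le_rfl (not_lt.1 hcon))

theorem LeT.union {S S' : Set ℝ} {θ θ' : Ordinal.{0}} (h : LeT S θ) (h' : LeT S' θ')
    (hlt : ∀ x ∈ S, ∀ y ∈ S', x < y) : LeT (S ∪ S') (θ + θ') := by
  classical
  obtain ⟨f, hf, hb⟩ := h
  obtain ⟨f', hf', hb'⟩ := h'
  refine ⟨fun x => if x ∈ S then f x else θ + f' x, ?_, ?_⟩
  · intro x hx y hy hxy
    by_cases hxS : x ∈ S
    · by_cases hyS : y ∈ S
      · simp only [hxS, hyS, if_true]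
        exact hf hxS hyS hxy
      · simp only [hxS, hyS, if_true, if_false]
        exact (hb x hxS).trans_le le_self_add
    · have hxS' : x ∈ S' := hx.resolve_left hxS
      have hyS : y ∉ S := fun hyS => absurd hxy (not_lt.2 (hlt y hyS x hxS').le)
      have hyS' : y ∈ S' := hy.resolve_left hyS
      simp only [hxS, hyS, if_false]
      exact (add_lt_add_iff_left _).2 (hf' hxS' hyS' hxy)
  · intro x hx
    by_cases hxS : x ∈ S
    · simp only [hxS, if_true]
      exact (hb x hxS).trans_le le_self_add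
    · simp only [hxS, if_false]
      exact (add_lt_add_iff_left _).2 (hb' x (hx.resolve_left hxS))

theorem GeT.union {S S' : Set ℝ} {θ θ' : Ordinal.{0}} (h : GeT θ S) (h' : GeT θ' S')
    (hlt : ∀ x ∈ S, ∀ y ∈ S', x < y) : GeT (θ + θ') (S ∪ S') := by
  classical
  obtain ⟨g, hg, hm⟩ := h
  obtain ⟨g', hg', hm'⟩ := h'
  refine ⟨fun β => if β < θ then g β else g' (β - θ), ?_, ?_⟩
  · intro β hβ β' hβ' hlt'
    simp only [mem_Iio] at hβ hβ'
    by_cases h1 : β' < θ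
    · simp only [hlt'.trans h1, h1, if_true]
      exact hg (hlt'.trans h1) h1 hlt'
    · have h1' := not_lt.1 h1
      have h2 : β' - θ < θ' := (Ordinal.sub_lt_of_le h1').2 hβ'
      by_cases h3 : β < θ
      · simp only [h1, h3, if_true, if_false]
        exact hlt _ (hm _ h3) _ (hm' _ h2)
      · have h3' := not_lt.1 h3
        have h4 : β - θ < θ' := (Ordinal.sub_lt_of_le h3').2 hβ
        simp only [h1, h3, if_false]
        refine hg' h4 h2 ?_
        rw [Ordinal.sub_lt_of_le h3', Ordinal.add_sub_cancel_of_le h1']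
        exact hlt'
  · intro β hβ
    by_cases h3 : β < θ
    · simp only [h3, if_true]
      exact Or.inl (hm _ h3)
    · have h3' := not_lt.1 h3
      have h4 : β - θ < θ' := (Ordinal.sub_lt_of_le h3').2 hβ
      simp only [h3, if_false]
      exact Or.inr (hm' _ h4)

/-- partial sums of a sequence of ordinals -/
noncomputable def psum (θ : ℕ → Ordinal.{0}) : ℕ → Ordinal.{0}
  | 0 => 0
  | n + 1 => psum θ n + θ n

theorem psum_mono (θ : ℕ → Ordinal.{0}) : Monotone (psum θ) :=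
  monotone_nat_of_le_succ fun n => by
    change psum θ n ≤ psum θ n + θ n
    exact le_self_add

theorem LeT_sum {S : Set ℝ} (h : ℝ → ℕ) (hh : MonotoneOn h S) (θ : ℕ → Ordinal.{0})
    (hθ : ∀ n, LeT {x ∈ S | h x = n} (θ n)) (τ : Ordinal.{0}) (hτ : ∀ n, psum θ n ≤ τ) :
    LeT S τ := by
  choose f hf hb using hθ
  refine ⟨fun x => psum θ (h x) + f (h x) x, ?_, ?_⟩
  · intro x hx y hy hxy
    have hle := hh hx hy hxy.le
    rcases hle.eq_or_lt with heq | hlt
    · simp only [heq]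
      refine (add_lt_add_iff_left _).2 (hf (h y) ⟨hx, heq⟩ ⟨hy, rfl⟩ hxy)
    · calc psum θ (h x) + f (h x) x < psum θ (h x) + θ (h x) :=
            (add_lt_add_iff_left _).2 (hb _ x ⟨hx, rfl⟩)
        _ = psum θ (h x + 1) := rfl
        _ ≤ psum θ (h y) := psum_mono θ hlt
        _ ≤ psum θ (h y) + f (h y) y := le_self_add
  · intro x hx
    calc psum θ (h x) + f (h x) x < psum θ (h x) + θ (h x) :=
            (add_lt_add_iff_left _).2 (hb _ x ⟨hx, rfl⟩)
        _ = psum θ (h x + 1) := rfl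
        _ ≤ τ := hτ _

theorem psum_lt_opow {θ : ℕ → Ordinal.{0}} {ξ : Ordinal.{0}} (h : ∀ n, θ n < ω ^ ξ) (n : ℕ) :
    psum θ n < ω ^ ξ := by
  induction n with
  | zero => exact Ordinal.opow_pos _ Ordinal.omega0_pos
  | succ n ih => exact Ordinal.isPrincipal_add_omega0_opow ξ ih (h n)

theorem psum_le_mul {θ : ℕ → Ordinal.{0}} {ξ : Ordinal.{0}} (h : ∀ n, θ n ≤ ξ) (n : ℕ) :
    psum θ n ≤ ξ * n := by
  induction n with
  | zero => simp [psum]
  | succ n ih =>
    rw [Nat.cast_succ, mul_add_one]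
    exact add_le_add ih (h n)

/-- an `ω`-chain of sets of type less than `ω ^ ξ` has type at most `ω ^ ξ` -/
theorem LeT_chain_opow {S : Set ℝ} (h : ℝ → ℕ) (hh : MonotoneOn h S) (ξ : Ordinal.{0})
    (hθ : ∀ n, ∃ θ < ω ^ ξ, LeT {x ∈ S | h x = n} θ) : LeT S (ω ^ ξ) := by
  choose θ hlt hθ using hθ
  exact LeT_sum h hh θ hθ _ (fun n => (psum_lt_opow hlt n).le)

theorem LeT_chain_mul {S : Set ℝ} (h : ℝ → ℕ) (hh : MonotoneOn h S) (θ : Ordinal.{0})
    (hθ : ∀ n, LeT {x ∈ S | h x = n} θ) : LeT S (θ * ω) := by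
  refine LeT_sum h hh (fun _ => θ) hθ _ (fun n => (psum_le_mul (fun _ => le_rfl) n).trans ?_)
  exact mul_le_mul_right (Ordinal.natCast_lt_omega0 n).le θ

/-- an `ω`-chain containing, for each `β < ξ`, infinitely many links of type at least `ω ^ β`
has type at least `ω ^ ξ` -/
theorem GeT_chain {S : Set ℝ} (h : ℝ → ℕ) (hh : MonotoneOn h S) {ξ τ : Ordinal.{0}}
    (hS : LeT S τ) (hξ : ξ ≠ 0)
    (hθ : ∀ β < ξ, ∀ N : ℕ, ∃ n ≥ N, GeT (ω ^ β) {x ∈ S | h x = n}) : GeT (ω ^ ξ) S := by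
  by_contra hcon
  obtain ⟨σ, hσ, hSσ⟩ := hS.lt_of_not_GeT hcon
  obtain ⟨c, hc, n, hn⟩ := (Ordinal.lt_omega0_opow hξ).1 hσ
  have key : ∀ m : ℕ, ∃ N : ℕ, GeT (ω ^ c * m) {x ∈ S | h x < N} := by
    intro m
    induction m with
    | zero => exact ⟨0, by simpa using GeT_zero _⟩
    | succ m ih =>
      obtain ⟨N, hN⟩ := ih
      obtain ⟨n, hn, hg⟩ := hθ c hc N
      refine ⟨n + 1, ?_⟩
      rw [Nat.cast_succ, mul_add_one]
      refine (GeT.union hN hg ?_).mono ?_ le_rfl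
      · rintro x ⟨hx, hxN⟩ y ⟨hy, hyn⟩
        by_contra hxy
        have := hh hy hx (not_lt.1 hxy)
        omega
      · rintro x (⟨hx, hxN⟩ | ⟨hx, hxn⟩)
        · exact ⟨hx, by omega⟩
        · exact ⟨hx, by omega⟩
  obtain ⟨N, hN⟩ := key n
  have := le_of_LeT_GeT (hSσ.mono (fun x hx => hx.1) le_rfl : LeT {x ∈ S | h x < N} σ) hN
  exact absurd hn (not_lt.2 this)

end Pool.Agent.H85
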