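import Pool.Agent.H85.Build

/-!
# Every admissible ordinal is the order type of a well-ordered shift orbit
-/

open Ordinal Set Order

namespace Pool.Agent.H85

theorem exists_orbit (child : Ordinal.{0} → ℕ → Ordinal.{0}) (ξ : ℕ → Ordinal.{0})
    (k M d : ℕ) : ∃ (b : ℕ → Fin 2) (S : ℕ → ℝ), GoodS child ξ k M d S ∧
      IsOrbit child ξ k M d S (orbitSet b) := by
  set Wd : ℕ → List (Fin 2) := fun i => (stage child ξ k M i).flatMap (bits d) with hWd
  have hne : ∀ i, Wd i ≠ [] := by
    intro i h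
    obtain ⟨p, l, hpl⟩ := List.exists_cons_of_ne_nil (stage_ne_nil child ξ k M i)
    simp only [hWd, hpl, List.flatMap_cons, List.append_eq_nil_iff] at h
    exact bits_ne_nil d p h.1
  obtain ⟨b, pos, h0, hpos, hb⟩ := exists_flat Wd hne
  have hmem := mem_orbitSet_flat hne h0 hpos hb
  refine ⟨b, fun i => shiftVal b (pos i), ⟨fun i => ⟨shiftVal_nonneg b _, shiftVal_le_one b _⟩,
    fun i => ?_⟩, ?_, ?_, ?_⟩
  · have h1 := shiftVal_drop hpos hb i (Wd i).length 0 (by omega)
    rw [add_zero, List.drop_zero] at h1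
    rw [h1, hWd, lval_flatMap_bits]
  · intro x hx
    obtain ⟨i, u, v, huv, hv, rfl⟩ := (hmem x).1 hx
    obtain ⟨pre, p, rest, u', v', h1, h2, h3, rfl⟩ := flatMap_suffix (bits d) _ u v huv hv
    have hP : PP child ξ k M d (fun i => shiftVal b (pos i)) p.1 p.2
        (blks d rest (shiftVal b (pos (i + 1)))) := ⟨i, pre, rest, h1, rfl⟩
    rw [lval_append, lval_flatMap_bits]
    rcases bits_suffix d p.1 p.2 u' v' h2 h3 with ⟨w', h4, h5, h6⟩ | ⟨r, n', h4, h5, h6, h7⟩
    · left
      exact ⟨p.1, p.2, _, w', hP, h4, h5, h6 _⟩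
    · right
      exact ⟨p.1, p.2, _, r, n', hP, h4, h5, h6, h7 _⟩
  · rintro w n y w' ⟨i, pre, rest, h1, rfl⟩ hw
    obtain ⟨u, v, h2, h3, h4⟩ := bits_suffix_ones d w n w' hw
    refine (hmem _).2 ⟨i, pre.flatMap (bits d) ++ u, v ++ rest.flatMap (bits d), ?_, ?_, ?_⟩
    · simp only [hWd]
      rw [h1, List.flatMap_append, List.flatMap_cons, h2]
      simp
    · simp [h3]
    · rw [lval_append, lval_flatMap_bits, h4]
  · rintro w n y r n' ⟨i, pre, rest, h1, rfl⟩ hr hn h
    obtain ⟨u, v, h2, h3, h4⟩ := bits_suffix_zeros d w n r n' hr hn h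
    refine (hmem _).2 ⟨i, pre.flatMap (bits d) ++ u, v ++ rest.flatMap (bits d), ?_, ?_, ?_⟩
    · simp only [hWd]
      rw [h1, List.flatMap_append, List.flatMap_cons, h2]
      simp
    · simp [h3]
    · rw [lval_append, lval_flatMap_bits, h4]

theorem psum_succ' (θ : ℕ → Ordinal.{0}) (n : ℕ) :
    psum θ (n + 1) = θ 0 + psum (fun j => θ (j + 1)) n := by
  induction n with
  | zero => simp [psum]
  | succ n ih =>
    change psum θ (n + 1) + θ (n + 1) = θ 0 + (psum (fun j => θ (j + 1)) n + θ (n + 1))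
    rw [ih, add_assoc]

theorem psum_one (m : ℕ) : psum (fun _ => 1) m = (m : Ordinal.{0}) := by
  induction m with
  | zero => simp [psum]
  | succ m ih =>
    change psum (fun _ => 1) m + 1 = ((m + 1 : ℕ) : Ordinal.{0})
    rw [ih, Nat.cast_succ]

/-- expansion of an ordinal below `ω ^ (γ + 1)` -/
theorem exists_expansion (δ : Ordinal.{0}) : ∀ γ : Ordinal.{0}, 1 ≤ γ → δ < ω ^ (γ + 1) →
    ∃ (k m : ℕ) (ξ : ℕ → Ordinal.{0}), ξ 0 = γ ∧ (∀ w ≤ k, 1 ≤ ξ w) ∧
      (∀ w w', w ≤ w' → w' ≤ k → ξ w' ≤ ξ w) ∧ psum (wtype ξ k) (k + m) = δ := by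
  induction δ using WellFoundedLT.induction with
  | _ δ ih =>
    intro γ hγ hδ
    rcases lt_or_ge δ ω with hfin | hinf
    · obtain ⟨m, rfl⟩ := Ordinal.lt_omega0.1 hfin
      refine ⟨0, m, fun _ => γ, rfl, fun _ _ => hγ, fun _ _ _ _ => le_rfl, ?_⟩
      rw [zero_add]
      have : wtype (fun _ => γ) 0 = fun _ => 1 := by
        funext j
        simp [wtype]
      rw [this, psum_one]
    · have hδ0 : δ ≠ 0 := fun h => by
        rw [h] at hinf
        exact absurd hinf (not_le.2 Ordinal.omega0_pos)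
      set β := Ordinal.log ω δ with hβ
      have hβ1 : 1 ≤ β := by
        rw [Order.one_le_iff_pos]
        exact Ordinal.log_pos Ordinal.one_lt_omega0 hδ0 hinf
      have hβγ : β ≤ γ := by
        rw [← Order.lt_succ_iff, Order.succ_eq_add_one]
        exact (Ordinal.lt_opow_iff_log_lt Ordinal.one_lt_omega0 hδ0).1 hδ
      have hδ' : δ - ω ^ β < δ := Ordinal.sub_omega0_opow_log_lt hδ0
      have hδ'' : δ - ω ^ β < ω ^ (β + 1) := by
        refine hδ'.trans ?_
        rw [← Order.succ_eq_add_one]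
        exact Ordinal.lt_opow_succ_log_self Ordinal.one_lt_omega0 δ
      obtain ⟨k, m, ξ, h0, h1, h2, h3⟩ := ih _ hδ' β hβ1 hδ''
      refine ⟨k + 1, m, fun w => if w = 0 then γ else ξ (w - 1), rfl, ?_, ?_, ?_⟩
      · intro w hw
        by_cases h : w = 0
        · simp [h, hγ]
        · simp only [h, if_false]
          exact h1 _ (by omega)
      · intro w w' hww' hw'
        by_cases hw0 : w' = 0
        · obtain rfl : w = 0 := by omega
          simp [hw0]
        · by_cases hw : w = 0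
          · simp only [hw, hw0, if_true, if_false]
            refine le_trans ?_ hβγ
            rw [← h0]
            exact h2 0 _ (Nat.zero_le _) (by omega)
          · simp only [hw, hw0, if_false]
            exact h2 _ _ (by omega) (by omega)
      · have h4 : k + 1 + m = (k + m) + 1 := by omega
        rw [h4, psum_succ']
        have h5 : wtype (fun w => if w = 0 then γ else ξ (w - 1)) (k + 1) 0 = ω ^ β := by
          simp [wtype, h0]
        have h6 : (fun j => wtype (fun w => if w = 0 then γ else ξ (w - 1)) (k + 1) (j + 1)) =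
            wtype ξ k := by
          funext j
          simp [wtype]
        rw [h5, h6, h3]
        exact Ordinal.add_sub_cancel_of_le (Ordinal.opow_log_le_self ω hδ0)

/-- the set of attained order types -/
def Attained (α : Ordinal.{0}) : Prop :=
  ∃ b : ℕ → Fin 2, ∃ _ : IsWellOrder (orbitSet b) (· < ·),
    Ordinal.type ((· < ·) : orbitSet b → orbitSet b → Prop) = α

theorem attained_infinite {γ δ : Ordinal.{0}} (hγ1 : 1 ≤ γ) (hγ : γ < ω₁) (d : ℕ)
    (hδ : δ < ω ^ (γ + 1)) (hd : δ ≠ 0 → 1 ≤ d) :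
    Attained (ω ^ (γ + 1) * (d + 1 : ℕ) + δ) := by
  obtain ⟨k, m, ξ, h0, h1, h2, h3⟩ := exists_expansion δ γ hγ1 hδ
  obtain ⟨child, hc⟩ := exists_child
  obtain ⟨b, S, hS, hA⟩ := exists_orbit child ξ k (k + m) d
  have hD : Data child ξ k (k + m) d S := by
    refine ⟨hc, ?_, h1, h2, Nat.le_add_right _ _, ?_, hS⟩
    · intro w hw
      refine (h2 0 w (Nat.zero_le _) hw).trans_lt ?_
      rwa [h0]
    · intro hM
      refine hd ?_
      rintro rfl
      obtain ⟨M', hM'⟩ : ∃ M', k + m = M' + 1 := ⟨k + m - 1, by omega⟩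
      rw [hM'] at h3
      have h4 : wtype ξ k M' = 0 := by
        change psum (wtype ξ k) M' + wtype ξ k M' = 0 at h3
        exact Ordinal.right_eq_zero_of_add_eq_zero h3
      unfold wtype at h4
      split_ifs at h4
      · exact Ordinal.opow_ne_zero _ Ordinal.omega0_ne_zero h4
      · exact one_ne_zero h4
  have hle := orbit_le hD hA
  have hge := orbit_ge hD hA
  rw [h0, h3] at hle hge
  exact ⟨b, hle.isWellOrder, type_eq_of hle hge _⟩

theorem attained_finite {n : ℕ} (hn : 0 < n) : Attained n := by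
  obtain ⟨N, rfl⟩ : ∃ N, n = N + 1 := ⟨n - 1, by omega⟩
  set b : ℕ → Fin 2 := fun i => if i < N then 1 else 0 with hb
  have hz : ∀ i, N ≤ i → shiftVal b i = 0 := by
    intro i hi
    unfold shiftVal
    have : ∀ n : ℕ, ((b (n + i) : ℕ) : ℝ) / 2 ^ (n + 1) = 0 := by
      intro n
      have h1 : ¬ (n + i < N) := by omega
      simp [hb, h1]
    simp [this]
  have hv : ∀ j, j ≤ N → shiftVal b (N - j) = 1 - 1 / 2 ^ j := by
    intro j
    induction j with
    | zero => intro _; rw [Nat.sub_zero, hz N le_rfl]; norm_num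
    | succ j ih =>
      intro hj
      rw [shiftVal_succ]
      have h1 : N - (j + 1) + 1 = N - j := by omega
      have h2 : N - (j + 1) < N := by omega
      rw [h1, ih (by omega)]
      simp only [hb, h2, if_true]
      rw [pow_succ]
      field_simp
      norm_num
      ring
  have hset : orbitSet b = (fun j : ℕ => 1 - (1 : ℝ) / 2 ^ j) '' (Set.Iic N) := by
    ext x
    constructor
    · rintro ⟨i, rfl⟩
      rcases le_or_gt i N with h | h
      · refine ⟨N - i, by simp, ?_⟩
        simp only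
        rw [← hv (N - i) (by omega)]
        congr 1
        omega
      · refine ⟨0, by simp, ?_⟩
        rw [hz i h.le]
        norm_num
    · rintro ⟨j, hj, rfl⟩
      exact ⟨N - j, hv j hj⟩
  have hinj : Function.Injective (fun j : ℕ => 1 - (1 : ℝ) / 2 ^ j) := by
    intro i j hij
    simp only at hij
    have h1 : (2 : ℝ) ^ i = 2 ^ j := by
      have h2 : (1 : ℝ) / 2 ^ i = 1 / 2 ^ j := by linarith
      rw [div_eq_div_iff (by positivity) (by positivity)] at h2
      linarith
    exact pow_right_injective₀ (by norm_num) (by norm_num) h1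
  have hfin : (orbitSet b).Finite := by
    rw [hset]
    exact (Set.finite_Iic N).image _
  have hcard : (orbitSet b).ncard = N + 1 := by
    rw [hset, Set.ncard_image_of_injective _ hinj]
    have : (Set.Iic N) = ((Finset.range (N + 1) : Finset ℕ) : Set ℕ) := by
      ext; simp
    rw [this, Set.ncard_coe_finset, Finset.card_range]
  have : Finite (orbitSet b) := hfin.to_subtype
  refine ⟨b, inferInstance, ?_⟩
  rw [← Ordinal.card_eq_nat, Ordinal.card_type]
  rw [← Nat.cast_card (α := orbitSet b), Nat.card_coe_set_eq, hcard]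

theorem attained_of_admissible {α : Ordinal.{0}} (h : Admissible α) : Attained α := by
  rcases h with ⟨h0, h1⟩ | ⟨γ, hγ1, hγ, h | ⟨h1, h2⟩⟩
  · obtain ⟨n, rfl⟩ := Ordinal.lt_omega0.1 h1
    exact attained_finite (by exact_mod_cast h0)
  · have := attained_infinite (δ := 0) hγ1 hγ 0 (Ordinal.opow_pos _ Ordinal.omega0_pos)
      (fun h => absurd rfl h)
    rw [h]
    simpa using this
  · have hpow0 : ω ^ (γ + 1) ≠ 0 := Ordinal.opow_ne_zero _ Ordinal.omega0_ne_zero
    have h3 : α / ω ^ (γ + 1) < ω := by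
      rw [← Ordinal.lt_mul_iff_div_lt hpow0, ← Ordinal.opow_add_one, add_assoc, one_add_one_eq_two]
      exact h2
    obtain ⟨c, hc⟩ := Ordinal.lt_omega0.1 h3
    have h4 : 2 ≤ c := by
      have : 2 ≤ α / ω ^ (γ + 1) := (Ordinal.mul_le_iff_le_div hpow0).1 h1
      rw [hc] at this
      exact_mod_cast this
    obtain ⟨d, rfl⟩ : ∃ d, c = d + 1 := ⟨c - 1, by omega⟩
    have h5 := attained_infinite (δ := α % ω ^ (γ + 1)) hγ1 hγ d (Ordinal.mod_lt _ hpow0)
      (fun _ => by omega)
    rwa [← hc, Ordinal.div_add_mod] at h5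

end Pool.Agent.H85
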